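import Pool.Agent.Work.MP_a2bf38_gt.Ko.Defs
import Pool.Agent.Work.MP_a2bf38_gt.Z.OmegaCompat
import Pool.Agent.Work.MP_a2bf38_gt.K.TouchA

/-!
# The canonical bundle: changes of charts (helper33)
-/

open scoped ContDiff Topology LinearAlgebra.Projectivization
open Set MeasureTheory Filter Pool.Agent.ToricKRF Pool.Agent.ToricKRF.G Pool.Agent.KRFS
  Pool.Agent.KRFF Pool.Agent.KRFQ Pool.Agent.KRFZ

namespace Pool.Agent.KRFKo

section Bun

variable {M P : Type} [TopologicalSpace M] [TopologicalSpace P] {n : ℕ} {κ : Type}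
  {e : κ → OpenPartialHomeomorph M (Cn n)} {π : P → M}
  {E : κ → OpenPartialHomeomorph P (Cn (n + 1))}

theorem IsKBun.isOpen_Vp (hb : IsKBun e π E) {V : Set M} (hV : IsOpen V) :
    IsOpen (Vp E π V) := by
  have h1 : Vp E π V = π ⁻¹' V ∩ ⋃ c, (E c).source ∩ (E c) ⁻¹' {y | hd y ≠ 0} := by
    ext v
    simp [Vp]
  rw [h1]
  refine (hV.preimage hb.cont).inter (isOpen_iUnion fun c => ?_)
  exact (E c).isOpen_inter_preimage (isOpen_ne.preimage contDiff_hd.continuous)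

theorem IsKBun.mem_tgt (hb : IsKBun e π E) {c : κ} {y : Cn (n + 1)} :
    y ∈ (E c).target ↔ tl y ∈ (e c).target := by
  rw [hb.target]
  rfl

theorem IsKBun.mem_src (hb : IsKBun e π E) {c : κ} {v : P} :
    v ∈ (E c).source ↔ π v ∈ (e c).source := by
  rw [hb.source]
  rfl

theorem IsKBun.pi_symm (hb : IsKBun e π E) {c : κ} {y : Cn (n + 1)} (hy : tl y ∈ (e c).target) :
    π ((E c).symm y) = (e c).symm (tl y) := by
  have hy' : y ∈ (E c).target := hb.mem_tgt.2 hy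
  have h1 := hb.tl_eq c _ ((E c).map_target hy')
  rw [(E c).right_inv hy'] at h1
  rw [h1, (e c).left_inv (hb.mem_src.1 ((E c).map_target hy'))]

theorem IsKBun.mem_dom (hb : IsKBun e π E) (c c' : κ) (y : Cn (n + 1)) :
    y ∈ dom E c c' ↔ tl y ∈ dom e c c' := by
  constructor
  · rintro ⟨h1, h2⟩
    have h3 : tl y ∈ (e c).target := hb.mem_tgt.1 h1
    refine ⟨h3, ?_⟩
    rw [← hb.pi_symm h3]
    exact hb.mem_src.1 h2
  · rintro ⟨h1, h2⟩
    refine ⟨hb.mem_tgt.2 h1, hb.mem_src.2 ?_⟩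
    rw [hb.pi_symm h1]
    exact h2

/-- the determinant of a change of charts is not zero -/
theorem Bu.det_Jm_ne (he : IsAtlas e) {c c' : κ} {z : Cn n} (hz : z ∈ dom e c c') :
    (Jm (tr e c c') z).det ≠ 0 := by
  intro h
  have h1 := congrArg Matrix.det (Jm_tr_mul he.holo hz)
  rw [Matrix.det_mul, h, mul_zero, Matrix.det_one] at h1
  exact zero_ne_one h1

/-- being away from the zero section does not depend on the chart -/
theorem IsKBun.hd_ne (hb : IsKBun e π E) (he : IsAtlas e) {V : Set M} {v : P}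
    (hv : v ∈ Vp E π V) {c : κ} (hc : v ∈ (E c).source) : hd (E c v) ≠ 0 := by
  obtain ⟨-, c', hc', h0⟩ := hv
  have h1 : E c' v ∈ dom E c' c := KRFQ.mem_dom hc' hc
  have h2 := (hb.mem_dom c' c _).1 h1
  have h3 : tr E c' c (E c' v) = E c v := KRFQ.tr_apply hc'
  rw [← h3, hb.tr_eq c' c _ h2, hd_jn]
  exact div_ne_zero h0 (Bu.det_Jm_ne he h2)

theorem IsKBun.mem_target (hb : IsKBun e π E) (he : IsAtlas e) {V : Set M} (hV : IsOpen V)
    (hVp : IsOpen (Vp E π V)) (c : κ) (y : Cn (n + 1)) :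
    y ∈ (rs E hVp c).target ↔ tl y ∈ (rs e hV c).target ∧ hd y ≠ 0 := by
  rw [mem_rs_target, mem_rs_target, hb.mem_tgt]
  constructor
  · rintro ⟨h1, h2⟩
    have h3 := hb.hd_ne he h2 ((E c).map_target (hb.mem_tgt.2 h1))
    rw [(E c).right_inv (hb.mem_tgt.2 h1)] at h3
    refine ⟨⟨h1, ?_⟩, h3⟩
    rw [← hb.pi_symm h1]
    exact h2.1
  · rintro ⟨⟨h1, h2⟩, h3⟩
    refine ⟨h1, ?_, c, (E c).map_target (hb.mem_tgt.2 h1), ?_⟩
    · rw [hb.pi_symm h1]
      exact h2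
    · rwa [(E c).right_inv (hb.mem_tgt.2 h1)]

/-! ### The changes of charts are holomorphic -/

theorem Bu.cc_zero_eq (y : Cn (n + 1)) : cc y 0 = hd y := rfl

theorem Bu.cc_succ_eq (y : Cn (n + 1)) (i : Fin n) : cc y i.succ = cc (tl y) i := rfl

theorem Bu.holOn_tl (S : Set (Cn (n + 1))) : HolOn (tl : Cn (n + 1) → Cn n) S := by
  refine ⟨contDiff_tl.contDiffOn, fun z _ u => ?_⟩
  have h1 : fderiv ℝ (tl : Cn (n + 1) → Cn n) z = tlL := (tlL (n := n)).fderiv
  rw [h1]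
  rfl

/-- the determinant of the complex Jacobian matrix is holomorphic -/
theorem Bu.holC_detJm {m : ℕ} {H : Cn m → Cn m} {S : Set (Cn m)} (hS : IsOpen S) (hH : HolOn H S) :
    NF.HolC (fun z => (Jm H z).det) S :=
  NF.HolC.det hS fun l k => NF.holOn_cc hS (NF.holOn_fderiv_const hS hH (eR k)) l

theorem Bu.isOpen_tldom (c c' : κ) : IsOpen {y : Cn (n + 1) | tl y ∈ dom e c c'} :=
  (KRFQ.isOpen_dom c c').preimage contDiff_tl.continuous

theorem Bu.holC_comp_tl {h : Cn n → ℂ} {S : Set (Cn n)} (hS : IsOpen S) (hh : NF.HolC h S) :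
    NF.HolC (fun y : Cn (n + 1) => h (tl y)) {y | tl y ∈ S} ∧
      ∀ y : Cn (n + 1), tl y ∈ S → ∀ u, fderiv ℝ (fun y : Cn (n + 1) => h (tl y)) y u =
        fderiv ℝ h (tl y) (tl u) := by
  have key : ∀ y : Cn (n + 1), tl y ∈ S → ∀ u, fderiv ℝ (fun y : Cn (n + 1) => h (tl y)) y u =
        fderiv ℝ h (tl y) (tl u) := by
    intro y hy u
    have h1 : HasFDerivAt (fun y : Cn (n + 1) => h (tl y)) ((fderiv ℝ h (tl y)).comp tlL) y :=
      (NF.diffAt hS hh.1 hy).hasFDerivAt.comp y (tlL (n := n)).hasFDerivAt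
    rw [h1.fderiv]
    rfl
  refine ⟨⟨hh.1.comp contDiff_tl.contDiffOn fun y hy => hy, fun y hy u => ?_⟩, key⟩
  rw [key y hy, key y hy, tl_J, hh.2 _ hy]

theorem Bu.holC_hd (S : Set (Cn (n + 1))) : NF.HolC (hd : Cn (n + 1) → ℂ) S ∧
    ∀ y u : Cn (n + 1), fderiv ℝ (hd : Cn (n + 1) → ℂ) y u = hd u := by
  have h1 : ∀ y : Cn (n + 1), fderiv ℝ (hd : Cn (n + 1) → ℂ) y = hdL := fun y =>
    (hdL (n := n)).fderiv
  refine ⟨⟨contDiff_hd.contDiffOn, fun z _ u => ?_⟩, fun y u => ?_⟩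
  · rw [h1]
    exact hd_J u
  · rw [h1]
    rfl

/-- the coordinate `ξ` of the change of charts is holomorphic -/
theorem Bu.holC_head (he : IsAtlas e) (c c' : κ) :
    NF.HolC (fun y : Cn (n + 1) => hd y * ((Jm (tr e c c') (tl y)).det)⁻¹)
      {y | tl y ∈ dom e c c'} := by
  have h1 := Bu.holC_detJm (KRFQ.isOpen_dom c c') (he.holo c c')
  have h2 : NF.HolC (fun z => ((Jm (tr e c c') z).det)⁻¹) (dom e c c') :=
    (KRFG.Touch.holC_comp (h := fun w => w⁻¹) (V := {0}ᶜ) isOpen_compl_singleton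
      (fun _ hw => (differentiableAt_inv hw).differentiableWithinAt) (KRFQ.isOpen_dom c c') h1
      (fun z hz => Bu.det_Jm_ne he hz)).1
  exact (Bu.holC_hd _).1.mul (Bu.isOpen_tldom c c') (Bu.holC_comp_tl (KRFQ.isOpen_dom c c') h2).1

/-- the coordinates of the change of charts -/
noncomputable def Bu.trc (e : κ → OpenPartialHomeomorph M (Cn n)) (c c' : κ) (l : Fin (n + 1))
    (y : Cn (n + 1)) : ℂ :=
  Fin.cases (motive := fun _ => ℂ) (hd y * ((Jm (tr e c c') (tl y)).det)⁻¹)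
    (fun i => cc (tr e c c' (tl y)) i) l

theorem Bu.holC_trc (he : IsAtlas e) (c c' : κ) (l : Fin (n + 1)) :
    NF.HolC (Bu.trc e c c' l) {y | tl y ∈ dom e c c'} := by
  refine Fin.cases ?_ (fun i => ?_) l
  · exact Bu.holC_head he c c'
  · exact (Bu.holC_comp_tl (KRFQ.isOpen_dom c c') (NF.holOn_cc (KRFQ.isOpen_dom c c') (he.holo c c') i)).1

theorem IsKBun.tr_trc (hb : IsKBun e π E) (c c' : κ) :
    EqOn (tr E c c') (fun y => KRFG.ofC fun l => Bu.trc e c c' l y) {y | tl y ∈ dom e c c'} := by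
  intro y hy
  rw [hb.tr_eq c c' y hy]
  refine cc_ext fun l => ?_
  rw [KRFG.Touch.cc_ofC]
  refine Fin.cases ?_ (fun i => ?_) l
  · rw [Bu.cc_zero_eq, hd_jn, div_eq_mul_inv]
    rfl
  · rw [Bu.cc_succ_eq, tl_jn]
    rfl

theorem IsKBun.dom_eq (hb : IsKBun e π E) (c c' : κ) :
    dom E c c' = {y | tl y ∈ dom e c c'} := by
  ext y
  exact hb.mem_dom c c' y

theorem IsKBun.holo (hb : IsKBun e π E) (he : IsAtlas e) (c c' : κ) :
    HolOn (tr E c c') (dom E c c') := by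
  rw [hb.dom_eq]
  exact NF.holOn_congr (Bu.isOpen_tldom c c')
    (KRFG.Touch.holOn_ofC (Bu.isOpen_tldom c c') (Bu.holC_trc he c c')).1 (hb.tr_trc c c')

/-- the complex Jacobian matrix of the change of charts -/
theorem IsKBun.Jm_tr (hb : IsKBun e π E) (he : IsAtlas e) (c c' : κ) {y : Cn (n + 1)}
    (hy : y ∈ dom E c c') (l k : Fin (n + 1)) :
    Jm (tr E c c') y l k = fderiv ℝ (Bu.trc e c c' l) y (eR k) := by
  have hy' := (hb.mem_dom c c' y).1 hy
  rw [← (KRFG.Touch.holOn_ofC (Bu.isOpen_tldom c c') (Bu.holC_trc he c c')).2 y hy' (eR k) l]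
  rw [Jm_apply]
  have h1 : tr E c c' =ᶠ[𝓝 y] fun y => KRFG.ofC fun l => Bu.trc e c c' l y := by
    filter_upwards [(Bu.isOpen_tldom c c').mem_nhds hy'] with x hx
    exact hb.tr_trc c c' hx
  rw [h1.fderiv_eq]

theorem Bu.hd_eR_zero : hd (eR (0 : Fin (n + 1))) = 1 := by
  rw [← Bu.cc_zero_eq, cc_eR, if_pos rfl]

theorem Bu.tl_eR_zero : tl (eR (0 : Fin (n + 1))) = 0 := by
  refine cc_ext fun l => ?_
  rw [← Bu.cc_succ_eq, cc_eR, if_neg (Fin.succ_ne_zero l), cc_zero]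

theorem Bu.tl_eR_succ (k : Fin n) : tl (eR k.succ) = eR k := by
  refine cc_ext fun l => ?_
  rw [← Bu.cc_succ_eq, cc_eR, cc_eR]
  simp only [Fin.succ_inj]

theorem IsKBun.det_Jm (hb : IsKBun e π E) (he : IsAtlas e) (c c' : κ) {y : Cn (n + 1)}
    (hy : y ∈ dom E c c') : (Jm (tr E c c') y).det = 1 := by
  have hy' := (hb.mem_dom c c' y).1 hy
  have hne := Bu.det_Jm_ne he hy'
  have h0 : Jm (tr E c c') y 0 0 = ((Jm (tr e c c') (tl y)).det)⁻¹ := by
    rw [hb.Jm_tr he c c' hy]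
    have h1 := Bu.holC_detJm (KRFQ.isOpen_dom c c') (he.holo c c')
    have h2 : NF.HolC (fun z => ((Jm (tr e c c') z).det)⁻¹) (dom e c c') :=
      (KRFG.Touch.holC_comp (h := fun w => w⁻¹) (V := {0}ᶜ) isOpen_compl_singleton
        (fun _ hw => (differentiableAt_inv hw).differentiableWithinAt) (KRFQ.isOpen_dom c c') h1
        (fun z hz => Bu.det_Jm_ne he hz)).1
    obtain ⟨h3, h4⟩ := Bu.holC_comp_tl (KRFQ.isOpen_dom c c') h2
    have h5 : HasFDerivAt (Bu.trc e c c' 0) _ y :=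
      (NF.diffAt (Bu.isOpen_tldom c c') (Bu.holC_hd _).1.1 hy').hasFDerivAt.fun_mul
        (NF.diffAt (Bu.isOpen_tldom c c') h3.1 hy').hasFDerivAt
    rw [h5.fderiv]
    simp only [add_apply, smul_apply, smul_eq_mul]
    rw [h4 y hy', (Bu.holC_hd {y | tl y ∈ dom e c c'}).2, Bu.tl_eR_zero, Bu.hd_eR_zero, map_zero]
    ring
  have hs : ∀ (i : Fin n) (k : Fin (n + 1)), Jm (tr E c c') y i.succ k =
      cc (fderiv ℝ (tr e c c') (tl y) (tl (eR k))) i := by
    intro i k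
    rw [hb.Jm_tr he c c' hy]
    have h1 := (Bu.holC_comp_tl (KRFQ.isOpen_dom c c') (NF.holOn_cc (KRFQ.isOpen_dom c c') (he.holo c c') i)).2
      y hy' (eR k)
    have h2 : Bu.trc e c c' i.succ = fun y : Cn (n + 1) => cc (tr e c c' (tl y)) i := rfl
    rw [h2, h1]
    have h4 : (fun z => cc (tr e c c' z) i) = fun z => NF.ccL i (tr e c c' z) := by
      funext z
      rw [NF.ccL_apply]
    have h5 : HasFDerivAt (fun z => NF.ccL i (tr e c c' z))
        ((NF.ccL i).comp (fderiv ℝ (tr e c c') (tl y))) (tl y) :=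
      (NF.ccL i).hasFDerivAt.comp (tl y)
        (NF.diffAt (KRFQ.isOpen_dom c c') (he.holo c c').1 hy').hasFDerivAt
    rw [h4, h5.fderiv, ContinuousLinearMap.comp_apply, NF.ccL_apply]
  rw [Matrix.det_succ_column_zero, Fin.sum_univ_succ]
  have hz : ∀ i : Fin n, Jm (tr E c c') y i.succ 0 = 0 := by
    intro i
    rw [hs, Bu.tl_eR_zero, map_zero, cc_zero]
  have hsub : (Jm (tr E c c') y).submatrix (Fin.succAbove 0) Fin.succ =
      Jm (tr e c c') (tl y) := by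
    ext i k
    rw [Matrix.submatrix_apply, Fin.succAbove_zero, hs, Bu.tl_eR_succ, Jm_apply]
  rw [hsub, h0, Finset.sum_eq_zero fun i _ => by rw [hz i]; ring]
  simp [hne]

theorem IsKBun.det_one (hb : IsKBun e π E) (he : IsAtlas e) (c c' : κ) {y : Cn (n + 1)}
    (hy : y ∈ dom E c c') : |(fderiv ℝ (tr E c c') y).det| = 1 := by
  rw [abs_det_eq _ ((hb.holo he c c').2 y hy)]
  have h1 := hb.det_Jm he c c' hy
  have h2 : (Matrix.of fun k a => cc (fderiv ℝ (tr E c c') y ((Pi.single k 1, 0) : Cn (n + 1))) a)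
      = (Jm (tr E c c') y).transpose := by
    ext k a
    rfl
  rw [h2, Matrix.det_transpose, h1, map_one]

/-- the norm in two charts -/
theorem IsKBun.nr_tr (hb : IsKBun e π E) (he : IsAtlas e) {V : Set M} (hV : IsOpen V)
    {w g : κ → Cn n → ℝ} (h : L2D (rs e hV) V w g) {c c' : κ} {y : Cn (n + 1)}
    (hy : tl y ∈ dom (rs e hV) c c') (h0 : hd y ≠ 0) :
    nr w c' (tr E c c' y) = nr w c y := by
  have hy' : tl y ∈ dom e c c' := dom_rs hV c c' hy
  have hne := Bu.det_Jm_ne he hy'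
  rw [hb.tr_eq c c' y hy']
  unfold nr
  rw [hd_jn, tl_jn]
  have h1 := h.w_compat c c' (tl y) hy
  rw [tr_rs, abs_det_eq _ ((he.holo c c').2 (tl y) hy')] at h1
  have h2 : (Matrix.of fun k a => cc (fderiv ℝ (tr e c c') (tl y) ((Pi.single k 1, 0) : Cn n)) a)
      = (Jm (tr e c c') (tl y)).transpose := by
    ext k a
    rfl
  rw [h2, Matrix.det_transpose, Complex.normSq_eq_norm_sq] at h1
  have hw : 0 < w c' (tr e c c' (tl y)) := h.w_pos c' _ (tr_mem_target hy)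
  have hd2 : ‖(Jm (tr e c c') (tl y)).det‖ ^ 2 ≠ 0 := pow_ne_zero 2 (norm_ne_zero_iff.2 hne)
  rw [h1, Real.log_mul hd2 hw.ne', norm_div, div_pow,
    Real.log_div (pow_ne_zero 2 (norm_ne_zero_iff.2 h0)) hd2]
  ring

end Bun

end Pool.Agent.KRFKo
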