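import Pool.Agent.Work.MP_a2bf38_gt.Ko.Defs
import Mathlib.Topology.FiberBundle.Basic

/-!
# The total space of the canonical bundle (helper70)
-/

open scoped ContDiff Topology
open Set MeasureTheory Filter Pool.Agent.ToricKRF Pool.Agent.ToricKRF.G Pool.Agent.KRFS
  Pool.Agent.KRFF Pool.Agent.KRFQ

namespace Pool.Agent.KRFKo

namespace KB

/-- the coordinates of `ℂ^(n+1)` -/
noncomputable def jnH (n : ℕ) : Cn n × ℂ ≃ₜ Cn (n + 1) where
  toFun q := jn q.2 q.1
  invFun z := (tl z, hd z)
  left_inv q := by simp
  right_inv z := by simp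
  continuous_toFun := contDiff_jn.continuous.comp (continuous_snd.prodMk continuous_fst)
  continuous_invFun := contDiff_tl.continuous.prodMk contDiff_hd.continuous

/-! ### The Jacobian determinants -/

section

variable {M : Type} [TopologicalSpace M] {n : ℕ} {κ : Type}
  {e : κ → OpenPartialHomeomorph M (Cn n)}

/-- the Jacobian determinant of the change of charts at the point `p` -/
noncomputable def jd (e : κ → OpenPartialHomeomorph M (Cn n)) (c c' : κ) (p : M) : ℂ :=
  (Jm (tr e c c') (e c p)).det

theorem jd_comp (he : ∀ c c', HolOn (tr e c c') (dom e c c')) {i j k : κ} {p : M}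
    (hi : p ∈ (e i).source) (hj : p ∈ (e j).source) (hk : p ∈ (e k).source) :
    jd e j k p * jd e i j p = jd e i k p := by
  have hij : e i p ∈ dom e i j := KRFQ.mem_dom hi hj
  have hjk : tr e i j (e i p) ∈ dom e j k := by
    rw [KRFQ.tr_apply hi]
    exact KRFQ.mem_dom hj hk
  have h1 := Jm_comp (KRFQ.isOpen_dom i j) (he i j) (KRFQ.isOpen_dom j k) (he j k) hij hjk
  have h2 : (fun x => tr e j k (tr e i j x)) =ᶠ[𝓝 (e i p)] tr e i k := by
    filter_upwards [(KRFQ.isOpen_dom i j).mem_nhds hij] with x hx
    simp only [tr, (e j).left_inv hx.2]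
  rw [Jm_congr h2] at h1
  rw [jd, jd, jd, h1, Matrix.det_mul, KRFQ.tr_apply hi]

theorem jd_self {i : κ} {p : M} (hi : p ∈ (e i).source) : jd e i i p = 1 := by
  have h1 : tr e i i =ᶠ[𝓝 (e i p)] fun x => x := by
    filter_upwards [(e i).open_target.mem_nhds ((e i).map_source hi)] with x hx
    exact (e i).right_inv hx
  rw [jd, Jm_congr h1, Jm_id, Matrix.det_one]

theorem jd_ne (he : ∀ c c', HolOn (tr e c c') (dom e c c')) {i j : κ} {p : M}
    (hi : p ∈ (e i).source) (hj : p ∈ (e j).source) : jd e i j p ≠ 0 := by
  have h1 := jd_comp he hi hj hi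
  rw [jd_self hi] at h1
  exact right_ne_zero_of_mul_eq_one h1

theorem continuousOn_jd (he : ∀ c c', HolOn (tr e c c') (dom e c c')) (i j : κ) :
    ContinuousOn (jd e i j) ((e i).source ∩ (e j).source) := by
  have h1 : ContDiffOn ℝ ∞ (fun z => (Jm (tr e i j) z).det) (dom e i j) :=
    KRFQ.contDiffOn_det fun l k => contDiffOn_Jm (KRFQ.isOpen_dom i j) (he i j) l k
  exact h1.continuousOn.comp ((e i).continuousOn.mono inter_subset_left)
    fun p hp => KRFQ.mem_dom hp.1 hp.2

/-! ### The bundle -/

/-- the bundle of the `n`-forms -/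
noncomputable def core (he : IsAtlas e) : FiberBundleCore κ M ℂ where
  baseSet c := (e c).source
  isOpen_baseSet c := (e c).open_source
  indexAt p := (he.cover p).choose
  mem_baseSet_at p := (he.cover p).choose_spec
  coordChange c c' p ξ := ξ / jd e c c' p
  coordChange_self i p hp ξ := by
    rw [jd_self hp, div_one]
  continuousOn_coordChange i j := by
    have h1 : ContinuousOn (fun q : M × ℂ => jd e i j q.1)
        (((e i).source ∩ (e j).source) ×ˢ univ) :=
      (continuousOn_jd he.holo i j).comp continuousOn_fst fun q hq => hq.1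
    exact continuousOn_snd.div h1 fun q hq => jd_ne he.holo hq.1.1 hq.1.2
  coordChange_comp i j k p hp ξ := by
    rw [← jd_comp he.holo hp.1.1 hp.1.2 hp.2, div_div, mul_comm (jd e i j p)]

/-- the charts of the bundle -/
noncomputable def chart (he : IsAtlas e) (c : κ) :
    OpenPartialHomeomorph (core he).TotalSpace (Cn (n + 1)) :=
  (((core he).localTriv c).toOpenPartialHomeomorph.trans
    ((e c).prod (OpenPartialHomeomorph.refl ℂ))).trans (jnH n).toOpenPartialHomeomorph

theorem chart_source (he : IsAtlas e) (c : κ) :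
    (chart he c).source = (core he).proj ⁻¹' (e c).source := by
  ext v
  constructor
  · intro h
    exact h.1.1
  · intro h
    exact ⟨⟨h, h, mem_univ _⟩, mem_univ _⟩

theorem chart_target (he : IsAtlas e) (c : κ) :
    (chart he c).target = {z | tl z ∈ (e c).target} := by
  ext z
  constructor
  · intro h
    exact h.2.1.1
  · intro h1
    refine ⟨mem_univ _, ⟨h1, mem_univ _⟩, ?_⟩
    change ((e c).symm (tl z), hd z) ∈ ((core he).localTriv c).target
    rw [FiberBundleCore.mem_localTriv_target]
    exact (e c).map_target h1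

theorem tr_chart (he : IsAtlas e) (c c' : κ) {z : Cn (n + 1)}
    (hz : tl z ∈ dom e c c') : tr (chart he) c c' z =
      jn (hd z / (Jm (tr e c c') (tl z)).det) (tr e c c' (tl z)) := by
  set p : M := (e c).symm (tl z) with hp
  have h3 : p ∈ (e c).source := (e c).map_target hz.1
  have h4 : tr (chart he) c c' z = jn ((core he).coordChange ((core he).indexAt p) c' p
      ((core he).coordChange c ((core he).indexAt p) p (hd z))) (e c' p) := rfl
  rw [h4, (core he).coordChange_comp c _ c' p ⟨⟨h3, (core he).mem_baseSet_at p⟩, hz.2⟩]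
  have h5 : (core he).coordChange c c' p (hd z) = hd z / (Jm (tr e c c') (tl z)).det := by
    change hd z / jd e c c' p = _
    rw [jd, hp, (e c).right_inv hz.1]
  rw [h5]
  rfl

theorem t2 [T2Space M] (he : IsAtlas e) : T2Space (core he).TotalSpace := by
  refine ⟨fun v w hvw => ?_⟩
  by_cases h : (core he).proj v = (core he).proj w
  · obtain ⟨c, hc⟩ := he.cover ((core he).proj v)
    have hv : v ∈ (chart he c).source := by
      rw [chart_source]
      exact hc
    have hw : w ∈ (chart he c).source := by
      rw [chart_source]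
      change (core he).proj w ∈ (e c).source
      rw [← h]
      exact hc
    obtain ⟨A, B, hA, hB, hvA, hwB, hAB⟩ := t2_separation fun h1 =>
      hvw ((chart he c).injOn hv hw h1)
    refine ⟨(chart he c).source ∩ chart he c ⁻¹' A, (chart he c).source ∩ chart he c ⁻¹' B,
      (chart he c).isOpen_inter_preimage hA, (chart he c).isOpen_inter_preimage hB,
      ⟨hv, hvA⟩, ⟨hw, hwB⟩, ?_⟩
    rw [Set.disjoint_left]
    rintro q ⟨-, hq⟩ ⟨-, hq'⟩
    exact Set.disjoint_left.1 hAB hq hq'
  · exact separated_by_continuous (FiberBundle.continuous_proj ℂ (core he).Fiber) h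

end

end KB

section

variable {M : Type} [TopologicalSpace M] {n : ℕ} {κ : Type}
  {e : κ → OpenPartialHomeomorph M (Cn n)}

theorem exists_kbun [T2Space M] (he : IsAtlas e) : ∃ (P : Type) (_ : TopologicalSpace P) (_ : T2Space P) (π : P → M)
    (E : κ → OpenPartialHomeomorph P (Cn (n + 1))), IsKBun e π E :=
  ⟨(KB.core he).TotalSpace, inferInstance, KB.t2 he, (KB.core he).proj, KB.chart he,
    { cont := FiberBundle.continuous_proj ℂ (KB.core he).Fiber
      source := KB.chart_source he
      target := KB.chart_target he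
      tl_eq := fun _ _ _ => rfl
      tr_eq := fun c c' _ hz => KB.tr_chart he c c' hz }⟩

end

end Pool.Agent.KRFKo
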