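import Pool.Agent.Work.MP_a2bf38_gt.Z.HolMean
import Pool.Agent.Work.MP_a2bf38_gt.L.AsubN
import Pool.Agent.Work.MP_a2bf38_gt.L.Three
import Pool.Agent.Work.MP_a2bf38_gt.X.RegKer
import Mathlib.Analysis.Complex.Liouville

/-!
# The value and the derivative of a holomorphic function and its mean square on a ball (helper53)
-/

open scoped ContDiff ENNReal ComplexOrder Topology
open Set MeasureTheory Filter Pool.Agent.ToricKRF Pool.Agent.ToricKRF.G Pool.Agent.KRFS
  Pool.Agent.KRFF Pool.Agent.KRFG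

namespace Pool.Agent.KRFKo

variable {n : ℕ}

/-- The value and the derivatives at the centre of a ball are bounded by the square integral. -/
theorem jet_le (n : ℕ) : ∃ C : ℝ, 0 < C ∧ ∀ {h : Cn n → ℂ} {V : Set (Cn n)}, IsOpen V →
    NF.HolC h V → ∀ {z : Cn n} {r : ℝ}, 0 < r → {w | nsq (w - z) ≤ r ^ 2} ⊆ V → ∀ {I : ℝ}, 0 ≤ I →
    ∫⁻ w in {w : Cn n | nsq (w - z) ≤ r ^ 2}, ENNReal.ofReal (‖h w‖ ^ 2) ≤ ENNReal.ofReal I →
    ‖h z‖ ^ 2 ≤ C * I / r ^ (2 * n) ∧
      ∀ v, ‖fderiv ℝ h z v‖ ^ 2 ≤ C * nsq v * I / r ^ (2 * n + 2) := by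
  set v₁ := (volume {w : Cn n | nsq w ≤ 1}).toReal with hv₁
  have hv0 : 0 < v₁ := KRFZ.Pole.volume_unit_pos
  refine ⟨4 * 2 ^ (2 * n) / v₁, by positivity, ?_⟩
  intro h V hV hh z r hr hsub I hI hint
  -- the values near the centre
  have hval : ∀ w, nsq (w - z) ≤ (r / 2) ^ 2 →
      ‖h w‖ ^ 2 ≤ 2 ^ (2 * n) * I / (r ^ (2 * n) * v₁) := by
    intro w hw
    have hsub' : {x | nsq (x - w) ≤ (r / 2) ^ 2} ⊆ {w | nsq (w - z) ≤ r ^ 2} := by
      intro x hx
      have h1 := KRFX.RegK.nsq_tri (x := x - w) (y := w - z) (a := r / 2) (b := r / 2)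
        (by positivity) (by positivity) hx hw
      rw [sub_add_sub_cancel, add_halves] at h1
      exact h1
    have h1 := KRFZ.HM.mean_sq_lint hV hh (z := w) (r := r / 2) (by positivity)
      (hsub'.trans hsub) hI ((lintegral_mono_set hsub').trans hint)
    rw [← hv₁, div_pow] at h1
    rw [le_div_iff₀ (by positivity)]
    have h2 : r ^ (2 * n) * v₁ * ‖h w‖ ^ 2 =
        2 ^ (2 * n) * (r ^ (2 * n) / 2 ^ (2 * n) * v₁ * ‖h w‖ ^ 2) := by
      field_simp
    rw [mul_comm, h2]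
    exact mul_le_mul_of_nonneg_left h1 (by positivity)
  constructor
  · have h1 := hval z (by
      rw [sub_self]
      have : nsq (0 : Cn n) = 0 := by simp [nsq]
      rw [this]
      positivity)
    refine h1.trans ?_
    rw [div_mul_eq_mul_div, div_div]
    rw [div_le_div_iff₀ (by positivity) (by positivity)]
    have : 0 ≤ 2 ^ (2 * n) * I * (v₁ * r ^ (2 * n)) := by positivity
    nlinarith
  · intro v
    by_cases hv : nsq v = 0
    · have hv' : v = 0 := nsq_eq_zero_iff.1 hv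
      rw [hv', map_zero, norm_zero]
      have : 0 ≤ 4 * 2 ^ (2 * n) / v₁ * nsq (0 : Cn n) * I / r ^ (2 * n + 2) := by
        have := Fb.nsq_nonneg (0 : Cn n)
        positivity
      simpa using this
    have hvp : 0 < nsq v := lt_of_le_of_ne (Fb.nsq_nonneg v) (Ne.symm hv)
    have hsq : 0 < √(nsq v) := Real.sqrt_pos.2 hvp
    set ρ : ℝ := r / 2 / √(nsq v) with hρ
    have hρ0 : 0 < ρ := by positivity
    have hline : ∀ ζ : ℂ, nsq (line z v ζ - z) = ‖ζ‖ ^ 2 * nsq v := fun ζ => by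
      rw [line_eq, add_sub_cancel_left, KRFH.Three.nsq_lineL]
    have hρ2 : ρ ^ 2 * nsq v = (r / 2) ^ 2 := by
      rw [hρ, div_pow, Real.sq_sqrt hvp.le]
      field_simp
    have hcl : ∀ ζ ∈ Metric.closedBall (0 : ℂ) ρ, nsq (line z v ζ - z) ≤ (r / 2) ^ 2 := by
      intro ζ hζ
      rw [hline, ← hρ2]
      refine mul_le_mul_of_nonneg_right (pow_le_pow_left₀ (norm_nonneg _) ?_ 2) hvp.le
      simpa using hζ
    have hmem : ∀ ζ ∈ Metric.closedBall (0 : ℂ) ρ, line z v ζ ∈ V := by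
      intro ζ hζ
      refine hsub ?_
      have := hcl ζ hζ
      change nsq (line z v ζ - z) ≤ r ^ 2
      nlinarith [sq_nonneg r]
    have hd := KRFH.AsubN.diff_line hV hh z v
    have hO : IsOpen (line z v ⁻¹' V) := hV.preimage (line_contDiff z v).continuous
    have hdc : DiffContOnCl ℂ (fun ζ => h (line z v ζ)) (Metric.ball 0 ρ) := by
      refine DifferentiableOn.diffContOnCl (hd.mono ?_)
      rw [closure_ball _ hρ0.ne']
      exact fun ζ hζ => hmem ζ hζ
    set S : ℝ := √(2 ^ (2 * n) * I / (r ^ (2 * n) * v₁)) with hS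
    have hder := Complex.norm_deriv_le_of_forall_mem_sphere_norm_le (C := S) hρ0 hdc fun ζ hζ => by
      rw [hS]
      exact Real.le_sqrt_of_sq_le (hval _ (hcl ζ (Metric.sphere_subset_closedBall hζ)))
    have hderiv : deriv (fun ζ => h (line z v ζ)) 0 = fderiv ℝ h z v := by
      have h0 : (0 : ℂ) ∈ line z v ⁻¹' V := hmem 0 (Metric.mem_closedBall_self hρ0.le)
      have h1 : HasFDerivAt (fun ζ => h (line z v ζ))
          ((fderiv ℝ h (line z v 0)).comp (lineL v)) 0 :=
        (NF.diffAt hV hh.1 h0).hasFDerivAt.comp 0 (hasFDerivAt_line z v 0)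
      have h2 := ((hd.differentiableAt (hO.mem_nhds h0)).hasDerivAt.hasFDerivAt.restrictScalars
        ℝ).unique h1
      have h3 := congrArg (fun L : ℂ →L[ℝ] ℂ => L 1) h2
      simp only [ContinuousLinearMap.comp_apply, lineL_apply, Complex.one_re, one_smul,
        Complex.one_im, zero_smul, add_zero, line_zero] at h3
      rw [← h3]
      simp
    rw [hderiv] at hder
    calc ‖fderiv ℝ h z v‖ ^ 2 ≤ (S / ρ) ^ 2 := pow_le_pow_left₀ (norm_nonneg _) hder 2
      _ = S ^ 2 * (4 * nsq v / r ^ 2) := by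
          rw [div_pow, hρ, div_pow, Real.sq_sqrt hvp.le]
          field_simp
          ring
      _ = 2 ^ (2 * n) * I / (r ^ (2 * n) * v₁) * (4 * nsq v / r ^ 2) := by
          rw [hS, Real.sq_sqrt (by positivity)]
      _ = _ := by
          rw [pow_add]
          field_simp

end Pool.Agent.KRFKo
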