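import Pool.Agent.Work.MP_a2bf38_gt.Q.HormG
import Pool.Agent.Work.MP_a2bf38_gt.Z.HormDens
import Pool.Agent.Work.MP_a2bf38_gt.W.EmbDefs

/-!
# The canonical bundle of an open set of a complex manifold: definitions

`e c` are charts of `M`.  The total space `P` of the canonical bundle has the charts `E c` with
values `(ξ, x)`, the point `ξ dx` over the point with the coordinates `x`.
-/

open scoped ContDiff Topology
open Set MeasureTheory Filter Pool.Agent.ToricKRF Pool.Agent.ToricKRF.G Pool.Agent.KRFS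
  Pool.Agent.KRFF Pool.Agent.KRFQ

namespace Pool.Agent.KRFKo

section Coord

variable {n : ℕ}

/-- the coordinate `ξ` of `(ξ, x)` -/
noncomputable def hd (y : Cn (n + 1)) : ℂ := ⟨y.1 0, y.2 0⟩

/-- the point `x` of `(ξ, x)` -/
def tl (y : Cn (n + 1)) : Cn n := (fun i => y.1 i.succ, fun i => y.2 i.succ)

/-- the point `(ξ, x)` -/
def jn (ξ : ℂ) (x : Cn n) : Cn (n + 1) := (Fin.cons ξ.re x.1, Fin.cons ξ.im x.2)

@[simp] theorem hd_jn (ξ : ℂ) (x : Cn n) : hd (jn ξ x) = ξ := rfl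

@[simp] theorem tl_jn (ξ : ℂ) (x : Cn n) : tl (jn ξ x) = x := rfl

@[simp] theorem jn_hd_tl (y : Cn (n + 1)) : jn (hd y) (tl y) = y := by
  refine Prod.ext ?_ ?_ <;> funext i <;> refine Fin.cases ?_ (fun j => ?_) i <;> rfl

theorem hd_add (y y' : Cn (n + 1)) : hd (y + y') = hd y + hd y' := rfl

theorem tl_add (y y' : Cn (n + 1)) : tl (y + y') = tl y + tl y' := rfl

theorem hd_smul (a : ℝ) (y : Cn (n + 1)) : hd (a • y) = a * hd y := by
  apply Complex.ext <;> simp [hd]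

theorem tl_smul (a : ℝ) (y : Cn (n + 1)) : tl (a • y) = a • tl y := rfl

theorem hd_J (y : Cn (n + 1)) : hd (J y) = Complex.I * hd y := by
  apply Complex.ext <;> simp [hd, J]

theorem tl_J (y : Cn (n + 1)) : tl (J y) = J (tl y) := rfl

/-- `hd` as a continuous linear map -/
noncomputable def hdL : Cn (n + 1) →L[ℝ] ℂ :=
  LinearMap.toContinuousLinearMap
    { toFun := hd, map_add' := hd_add, map_smul' := fun a y => by
        rw [hd_smul, Complex.real_smul]; rfl }

/-- `tl` as a continuous linear map -/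
noncomputable def tlL : Cn (n + 1) →L[ℝ] Cn n :=
  LinearMap.toContinuousLinearMap { toFun := tl, map_add' := tl_add, map_smul' := tl_smul }

theorem hdL_apply (y : Cn (n + 1)) : hdL y = hd y := rfl

theorem tlL_apply (y : Cn (n + 1)) : tlL y = tl y := rfl

theorem jn_add (ξ ξ' : ℂ) (x x' : Cn n) : jn (ξ + ξ') (x + x') = jn ξ x + jn ξ' x' := by
  refine Prod.ext ?_ ?_ <;> funext i <;> refine Fin.cases ?_ (fun j => ?_) i <;> rfl

theorem jn_smul (a : ℝ) (ξ : ℂ) (x : Cn n) : jn (a * ξ) (a • x) = a • jn ξ x := by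
  refine Prod.ext ?_ ?_ <;> funext i <;> refine Fin.cases ?_ (fun j => ?_) i <;> simp [jn]

/-- `jn` as a continuous linear map -/
noncomputable def jnL : ℂ × Cn n →L[ℝ] Cn (n + 1) :=
  LinearMap.toContinuousLinearMap
    { toFun := fun p => jn p.1 p.2, map_add' := fun p p' => jn_add _ _ _ _
      map_smul' := fun a p => by
        rw [RingHom.id_apply, Prod.smul_fst, Prod.smul_snd, Complex.real_smul]
        exact jn_smul _ _ _ }

theorem jnL_apply (p : ℂ × Cn n) : jnL p = jn p.1 p.2 := rfl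

theorem contDiff_hd : ContDiff ℝ ∞ (hd : Cn (n + 1) → ℂ) := (hdL (n := n)).contDiff

theorem contDiff_tl : ContDiff ℝ ∞ (tl : Cn (n + 1) → Cn n) := (tlL (n := n)).contDiff

theorem contDiff_jn : ContDiff ℝ ∞ fun p : ℂ × Cn n => jn p.1 p.2 := (jnL (n := n)).contDiff

end Coord

/-- `-log w` -/
noncomputable def kf {κ : Type} {n : ℕ} (w : κ → Cn n → ℝ) (c : κ) (x : Cn n) : ℝ :=
  -Real.log (w c x)

/-- `log (|ξ|^2 / w)`, the norm on the canonical bundle -/
noncomputable def nr {κ : Type} {n : ℕ} (w : κ → Cn n → ℝ) (c : κ) (y : Cn (n + 1)) : ℝ :=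
  Real.log (‖hd y‖ ^ 2) - Real.log (w c (tl y))

/-- a function with the derivative `arctan r + π/2` and the second derivative `1 / (1 + r^2)` -/
noncomputable def Uf (r : ℝ) : ℝ :=
  r * Real.arctan r - Real.log (1 + r ^ 2) / 2 + Real.pi / 2 * r

/-- the Laurent coefficient of `ξ^m` of a function on `ℂ - 0` -/
noncomputable def cm (m : ℕ) (b : ℂ → ℂ) : ℂ :=
  (2 * Real.pi * Complex.I)⁻¹ * ∮ ζ in C(0, 1), ζ ^ (-(m + 1 : ℤ)) * b ζ

section Bundle

variable {M P : Type} [TopologicalSpace M] [TopologicalSpace P] {n : ℕ} {κ : Type}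

/-- `P` is the total space of the canonical bundle, with the projection `π` and the charts
`E c`. -/
structure IsKBun (e : κ → OpenPartialHomeomorph M (Cn n)) (π : P → M)
    (E : κ → OpenPartialHomeomorph P (Cn (n + 1))) : Prop where
  cont : Continuous π
  source : ∀ c, (E c).source = π ⁻¹' (e c).source
  target : ∀ c, (E c).target = {y | tl y ∈ (e c).target}
  tl_eq : ∀ c, ∀ v ∈ (E c).source, tl (E c v) = e c (π v)
  tr_eq : ∀ c c', ∀ y, tl y ∈ dom e c c' →
    tr E c c' y = jn (hd y / (Jm (tr e c c') (tl y)).det) (tr e c c' (tl y))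

/-- The part over `V` of the bundle, without the zero section. -/
def Vp (E : κ → OpenPartialHomeomorph P (Cn (n + 1))) (π : P → M) (V : Set M) : Set P :=
  {v | π v ∈ V ∧ ∃ c, v ∈ (E c).source ∧ hd (E c v) ≠ 0}

/-- `s` is a holomorphic section of `-m K`. -/
structure IsSect (e : κ → OpenPartialHomeomorph M (Cn n)) (m : ℕ) (s : κ → Cn n → ℂ) :
    Prop where
  holo : ∀ c, NF.HolC (s c) (e c).target
  compat : ∀ c c', ∀ z ∈ dom e c c',
    s c' (tr e c c' z) = (Jm (tr e c c') z).det ^ m * s c z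

/-- the weight `m r + 2 log (1 + exp r) + W` on the bundle, in the chart `c` -/
noncomputable def wtP (e : κ → OpenPartialHomeomorph M (Cn n)) (w : κ → Cn n → ℝ) (m : ℕ)
    (W : M → ℝ) (c : κ) (y : Cn (n + 1)) : ℝ :=
  m * nr w c y + 2 * Real.log (1 + Real.exp (nr w c y)) + W ((e c).symm (tl y))

/-- Solution of the `∂bar`-equation for the sections of `-m K` with a weight `exp (-W)`: a smooth
section `u` with compact support in the chart `c` and `|∂bar u|^2 ≤ B` is near a holomorphic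
section `s`. -/
def HasSec (e : κ → OpenPartialHomeomorph M (Cn n)) (w : κ → Cn n → ℝ) : Prop :=
  ∀ (m : ℕ) (W : M → ℝ), (∀ c, ContDiffOn ℝ ∞ (pb e c W) (e c).target) →
    (∀ c, ∀ z ∈ (e c).target, ∀ v,
      -((m : ℝ) - 1) * levz (kf w c) v z ≤ levz (pb e c W) v z) →
    ∀ (c : κ) (u : Cn n → ℂ) (B : Cn n → ℝ), ContDiff ℝ ∞ u → HasCompactSupport u →
      tsupport u ⊆ (e c).target → Continuous B → HasCompactSupport B →
      tsupport B ⊆ (e c).target → (∀ x, 0 ≤ B x) →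
      (∀ z ∈ (e c).target, ∀ v,
        ‖∑ j, dzb j u z * (starRingEnd ℂ) (cc v j)‖ ^ 2 ≤ B z * levz (kf w c) v z) →
      ∃ s, IsSect e m s ∧
        (∫⁻ z in (e c).target, ENNReal.ofReal
            (‖u z - s c z‖ ^ 2 * w c z ^ (m + 1) * Real.exp (-pb e c W z)) ≤
          ∫⁻ z in (e c).target, ENNReal.ofReal
            (B z * w c z ^ (m + 1) * Real.exp (-pb e c W z))) ∧
        ∀ (c' : κ) (A : Set (Cn n)), IsOpen A → A ⊆ (e c').target →
          (∀ z ∈ A, (e c').symm z ∈ (e c).source → e c ((e c').symm z) ∉ tsupport u) →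
          ∫⁻ z in A, ENNReal.ofReal
              (‖s c' z‖ ^ 2 * w c' z ^ (m + 1) * Real.exp (-pb e c' W z)) ≤
            ∫⁻ z in (e c).target, ENNReal.ofReal
              (B z * w c z ^ (m + 1) * Real.exp (-pb e c W z))

/-- The functions `W ε`, `0 < ε ≤ 1`, have a logarithmic pole at `p` for `ε = 0`; `-C` bounds their
Levi forms and `c` is a chart with `p`. -/
structure IsPole (e : κ → OpenPartialHomeomorph M (Cn n)) (V : Set M) (w : κ → Cn n → ℝ) (C : ℝ)
    (p : M) (c : κ) (W : ℝ → M → ℝ) : Prop where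
  mem : p ∈ (e c).source
  smooth : ∀ ε, 0 < ε → ∀ c', ContDiffOn ℝ ∞ (pb e c' (W ε)) (e c').target
  lev : ∀ ε, 0 < ε → ε ≤ 1 → ∀ c', ∀ z ∈ (e c').target, ∀ v,
    -C * levz (kf w c') v z ≤ levz (pb e c' (W ε)) v z
  le : ∀ ε, 0 < ε → ε ≤ 1 → ∀ x, W ε x ≤ C
  near : ∃ r C' : ℝ, 0 < r ∧ ∀ ε, 0 < ε → ε ≤ 1 → ∀ z, nsq (z - e c p) < r →
    z ∈ (e c).target ∧ pb e c (W ε) z ≤ (n + 2) * Real.log (nsq (z - e c p) + ε ^ 2) + C'
  away : ∀ S : Set M, IsOpen S → p ∈ S → ∃ C' : ℝ, ∀ ε, 0 < ε → ε ≤ 1 → ∀ x ∈ V, x ∉ S →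
    -C' ≤ W ε x

/-- Finitely many sections of `-m K` embed the set `K` in a projective space. -/
structure IsEmbK (e : κ → OpenPartialHomeomorph M (Cn n)) (K : Set M) (m : ℕ) {L : ℕ}
    (s : Fin (L + 1) → κ → Cn n → ℂ) : Prop where
  sect : ∀ i, IsSect e m (s i)
  ne : ∀ c, ∀ z ∈ (e c).target, (e c).symm z ∈ K → ∃ i, s i c z ≠ 0
  imm : ∀ c, ∀ z ∈ (e c).target, (e c).symm z ∈ K → ∀ v,
    (∃ a : ℂ, ∀ i, fderiv ℝ (s i c) z v = a * s i c z) → v = 0
  inj : ∀ c, ∀ z ∈ (e c).target, (e c).symm z ∈ K → ∀ c', ∀ z' ∈ (e c').target,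
    (e c').symm z' ∈ K → (∃ a : ℂ, ∀ i, s i c z = a * s i c' z') → (e c).symm z = (e c').symm z'

end Bundle

end Pool.Agent.KRFKo
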