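import Pool.Agent.Work.MP_a2bf38_gt.Ko.Defs

/-!
# KRF VIII, B7b: finite sets of sections that embed a compact set
-/

open scoped ContDiff Topology
open Set MeasureTheory Filter Pool.Agent.ToricKRF Pool.Agent.ToricKRF.G Pool.Agent.KRFS
  Pool.Agent.KRFF Pool.Agent.KRFQ Pool.Agent.KRFZ

namespace Pool.Agent.KRFKo

section Sets

variable {M : Type} [TopologicalSpace M] {n : ℕ} {κ : Type}
  {e : κ → OpenPartialHomeomorph M (Cn n)}

/-! ### sets of sections -/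

/-- the sections in `A` have no common zero at `x` and are immersive there -/
def Loc (e : κ → OpenPartialHomeomorph M (Cn n)) (A : Set (κ → Cn n → ℂ)) (x : M) : Prop :=
  ∀ c, ∀ z ∈ (e c).target, (e c).symm z = x → (∃ s ∈ A, s c z ≠ 0) ∧
    ∀ v, (∃ a : ℂ, ∀ s ∈ A, fderiv ℝ (s c) z v = a * s c z) → v = 0

/-- the sections in `A` separate `x` and `x'` -/
def Sep (e : κ → OpenPartialHomeomorph M (Cn n)) (A : Set (κ → Cn n → ℂ)) (x x' : M) : Prop :=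
  ∀ c, ∀ z ∈ (e c).target, (e c).symm z = x → ∀ c', ∀ z' ∈ (e c').target,
    (e c').symm z' = x' → (∃ a : ℂ, ∀ s ∈ A, s c z = a * s c' z') → x = x'

theorem Loc.mono {A B : Set (κ → Cn n → ℂ)} (h : A ⊆ B) {x : M} (hA : Loc e A x) :
    Loc e B x := by
  intro c z hz hx
  obtain ⟨⟨s, hs, hs0⟩, hi⟩ := hA c z hz hx
  exact ⟨⟨s, h hs, hs0⟩, fun v ⟨a, ha⟩ => hi v ⟨a, fun s hs => ha s (h hs)⟩⟩

theorem Sep.mono {A B : Set (κ → Cn n → ℂ)} (h : A ⊆ B) {x x' : M} (hA : Sep e A x x') :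
    Sep e B x x' :=
  fun c z hz hx c' z' hz' hx' ⟨a, ha⟩ => hA c z hz hx c' z' hz' hx' ⟨a, fun s hs => ha s (h hs)⟩

/-- finitely many sections as a family -/
theorem exists_family {m : ℕ} {K : Set M} {A : Set (κ → Cn n → ℂ)} (hA : A.Finite)
    (hs : ∀ s ∈ A, IsSect e m s) (h1 : ∀ x ∈ K, Loc e A x)
    (h2 : ∀ x ∈ K, ∀ x' ∈ K, Sep e A x x') :
    ∃ (L : ℕ) (s : Fin (L + 1) → κ → Cn n → ℂ), IsEmbK e K m s := by
  classical
  have hz : IsSect e m (fun _ _ => 0) := ⟨fun c => NF.HolC.const 0 _, fun c c' z _ => by simp⟩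
  set F : Finset (κ → Cn n → ℂ) := insert (fun _ _ => 0) hA.toFinset with hF
  have hcard : F.card ≠ 0 := Finset.card_ne_zero_of_mem (Finset.mem_insert_self _ _)
  obtain ⟨L, hL⟩ := Nat.exists_eq_succ_of_ne_zero hcard
  set φ := F.equivFinOfCardEq hL
  have hall : ∀ s ∈ A, ∃ i, (φ.symm i : κ → Cn n → ℂ) = s := fun s hs =>
    ⟨φ ⟨s, Finset.mem_insert_of_mem (hA.mem_toFinset.2 hs)⟩, by simp⟩
  refine ⟨L, fun i => φ.symm i, ?_, ?_, ?_, ?_⟩
  · intro i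
    rcases Finset.mem_insert.1 (φ.symm i).2 with h | h
    · rw [h]
      exact hz
    · exact hs _ (hA.mem_toFinset.1 h)
  · intro c z hz hx
    obtain ⟨⟨s, hs, hs0⟩, -⟩ := h1 _ hx c z hz rfl
    obtain ⟨i, rfl⟩ := hall s hs
    exact ⟨i, hs0⟩
  · intro c z hz hx v ⟨a, ha⟩
    refine (h1 _ hx c z hz rfl).2 v ⟨a, fun s hs => ?_⟩
    obtain ⟨i, rfl⟩ := hall s hs
    exact ha i
  · intro c z hz hx c' z' hz' hx' ⟨a, ha⟩
    refine h2 _ hx _ hx' c z hz rfl c' z' hz' rfl ⟨a, fun s hs => ?_⟩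
    obtain ⟨i, rfl⟩ := hall s hs
    exact ha i

/-- Two sections separate two points if their determinant is not `0`. -/
theorem sep_pair {m : ℕ} {s t : κ → Cn n → ℂ} (hs : IsSect e m s) (ht : IsSect e m t)
    {c c' : κ} {x x' : M} (hx : x ∈ (e c).source) (hx' : x' ∈ (e c').source)
    (hD : s c (e c x) * t c' (e c' x') - s c' (e c' x') * t c (e c x) ≠ 0) :
    Sep e {s, t} x x' := by
  intro d z hz hzx d' z' hz' hzx' ⟨a, ha⟩
  subst hzx hzx'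
  exfalso
  apply hD
  have e1 := hs.compat d c z ⟨hz, hx⟩
  have e2 := ht.compat d c z ⟨hz, hx⟩
  have e3 := hs.compat d' c' z' ⟨hz', hx'⟩
  have e4 := ht.compat d' c' z' ⟨hz', hx'⟩
  have a1 := ha s (by simp)
  have a2 := ha t (by simp)
  change s c (tr e d c z) * t c' (tr e d' c' z') - s c' (tr e d' c' z') * t c (tr e d c z) = 0
  rw [e1, e2, e3, e4, a1, a2]
  ring

/-- the values of a section in a chart are continuous -/
theorem IsSect.tendsto {m : ℕ} {s : κ → Cn n → ℂ} (hs : IsSect e m s) {c : κ} {p : M}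
    (hp : p ∈ (e c).source) : Tendsto (fun x => s c (e c x)) (𝓝 p) (𝓝 (s c (e c p))) :=
  ContinuousAt.comp (f := fun x => e c x) (g := s c)
    ((hs.holo c).1.continuousOn.continuousAt
      ((e c).open_target.mem_nhds ((e c).map_source hp))) ((e c).continuousAt hp)

/-- The determinant is not `0` for almost diagonal values. -/
theorem det_ne {a b c d : ℂ} (ha : ‖a - 1‖ ≤ 1 / 4) (hb : ‖b - 1‖ ≤ 1 / 4) (hc : ‖c‖ ≤ 1 / 4)
    (hd : ‖d‖ ≤ 1 / 4) : a * b - c * d ≠ 0 := by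
  intro h
  have h1 : ‖a‖ * ‖b‖ = ‖c‖ * ‖d‖ := by
    rw [← norm_mul, ← norm_mul, sub_eq_zero.1 h]
  have h2 := norm_sub_le a (a - 1)
  have h3 := norm_sub_le b (b - 1)
  rw [sub_sub_cancel, norm_one] at h2 h3
  have h4 : ‖c‖ * ‖d‖ ≤ 1 / 4 * (1 / 4) := mul_le_mul hc hd (norm_nonneg _) (by norm_num)
  have h5 : 3 / 4 * (3 / 4) ≤ ‖a‖ * ‖b‖ :=
    mul_le_mul (by linarith) (by linarith) (by norm_num) (norm_nonneg _)
  linarith

/-- Two sections with determinant `≠ 0` separate all nearby points. -/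
theorem sep_nhds {m : ℕ} {s t : κ → Cn n → ℂ} (hs : IsSect e m s) (ht : IsSect e m t)
    {c c' : κ} {p p' : M} (hp : p ∈ (e c).source) (hp' : p' ∈ (e c').source)
    (hD : s c (e c p) * t c' (e c' p') - s c' (e c' p') * t c (e c p) ≠ 0) :
    {q : M × M | Sep e {s, t} q.1 q.2} ∈ 𝓝 (p, p') := by
  have f1 : Tendsto (fun q : M × M => q.1) (𝓝 (p, p')) (𝓝 p) := continuousAt_fst
  have f2 : Tendsto (fun q : M × M => q.2) (𝓝 (p, p')) (𝓝 p') := continuousAt_snd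
  have c1 : Tendsto (fun q : M × M => s c (e c q.1)) (𝓝 (p, p')) (𝓝 (s c (e c p))) :=
    (hs.tendsto hp).comp f1
  have c2 : Tendsto (fun q : M × M => t c (e c q.1)) (𝓝 (p, p')) (𝓝 (t c (e c p))) :=
    (ht.tendsto hp).comp f1
  have c3 : Tendsto (fun q : M × M => s c' (e c' q.2)) (𝓝 (p, p')) (𝓝 (s c' (e c' p'))) :=
    (hs.tendsto hp').comp f2
  have c4 : Tendsto (fun q : M × M => t c' (e c' q.2)) (𝓝 (p, p')) (𝓝 (t c' (e c' p'))) :=
    (ht.tendsto hp').comp f2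
  have hev := ((c1.mul c4).sub (c3.mul c2)).eventually_ne hD
  have hev1 : ∀ᶠ q : M × M in 𝓝 (p, p'), q.1 ∈ (e c).source :=
    f1.eventually ((e c).open_source.mem_nhds hp)
  have hev2 : ∀ᶠ q : M × M in 𝓝 (p, p'), q.2 ∈ (e c').source :=
    f2.eventually ((e c').open_source.mem_nhds hp')
  filter_upwards [hev, hev1, hev2] with q hq hq1 hq2
  exact sep_pair hs ht hq1 hq2 hq

/-- A compact set is embedded by finitely many sections if there are sections with given jets and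
the jets give local embeddings. -/
theorem exists_embed_of {m : ℕ} {K : Set M} (hK : IsCompact K) (Q : M → κ → Prop)
    (hQ : ∀ p ∈ K, ∃ c, Q p c) (hQs : ∀ p c, Q p c → p ∈ (e c).source)
    (hjet : ∀ p c p' c', Q p c → Q p' c' → ∀ (a₀ : ℂ) (a : Fin n → ℂ) (δ : ℝ), 0 < δ →
      ∃ s, IsSect e m s ∧ ‖s c (e c p) - a₀‖ ≤ δ ∧ (∀ i, ‖dz i (s c) (e c p) - a i‖ ≤ δ) ∧
        (p ≠ p' → ‖s c' (e c' p')‖ ≤ δ))
    (hlocal : ∀ p c, p ∈ (e c).source → (∀ (a₀ : ℂ) (a : Fin n → ℂ) (δ : ℝ), 0 < δ →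
      ∃ s, IsSect e m s ∧ ‖s c (e c p) - a₀‖ ≤ δ ∧ ∀ i, ‖dz i (s c) (e c p) - a i‖ ≤ δ) →
      ∃ (S : Set M) (s : Fin (n + 1) → κ → Cn n → ℂ), IsOpen S ∧ p ∈ S ∧ IsEmbK e S m s) :
    ∃ (L : ℕ) (s : Fin (L + 1) → κ → Cn n → ℂ), IsEmbK e K m s := by
  classical
  have hloc : ∀ p ∈ K, ∃ (S : Set M) (A : Set (κ → Cn n → ℂ)), IsOpen S ∧ p ∈ S ∧ A.Finite ∧
      (∀ s ∈ A, IsSect e m s) ∧ (∀ x ∈ S, Loc e A x) ∧ ∀ x ∈ S, ∀ x' ∈ S, Sep e A x x' := by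
    intro p hp
    obtain ⟨c, hW⟩ := hQ p hp
    obtain ⟨S, s, hS, hpS, hs⟩ := hlocal p c (hQs p c hW) fun a₀ a δ hδ => by
      obtain ⟨s, h1, h2, h3, -⟩ := hjet p c p c hW hW a₀ a δ hδ
      exact ⟨s, h1, h2, h3⟩
    refine ⟨S, range s, hS, hpS, finite_range s, ?_, ?_, ?_⟩
    · rintro _ ⟨i, rfl⟩
      exact hs.sect i
    · intro x hx c z hz hzx
      subst hzx
      obtain ⟨i, hi⟩ := hs.ne c z hz hx
      exact ⟨⟨s i, mem_range_self i, hi⟩, fun v ⟨a, ha⟩ =>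
        hs.imm c z hz hx v ⟨a, fun i => ha _ (mem_range_self i)⟩⟩
    · intro x hx x' hx' c z hz hzx c' z' hz' hzx' ⟨a, ha⟩
      subst hzx hzx'
      exact hs.inj c z hz hx c' z' hz' hx' ⟨a, fun i => ha _ (mem_range_self i)⟩
  obtain ⟨A₁, hA₁, hs₁, hl₁⟩ : ∃ A : Set (κ → Cn n → ℂ), A.Finite ∧
      (∀ s ∈ A, IsSect e m s) ∧ ∀ x ∈ K, Loc e A x := by
    refine hK.induction_on (p := fun T => ∃ A : Set (κ → Cn n → ℂ), A.Finite ∧
      (∀ s ∈ A, IsSect e m s) ∧ ∀ x ∈ T, Loc e A x) ?_ ?_ ?_ ?_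
    · exact ⟨∅, finite_empty, by simp, by simp⟩
    · rintro T T' hT ⟨A, h1, h2, h3⟩
      exact ⟨A, h1, h2, fun x hx => h3 x (hT hx)⟩
    · rintro T T' ⟨A, h1, h2, h3⟩ ⟨A', h1', h2', h3'⟩
      refine ⟨A ∪ A', h1.union h1', ?_, ?_⟩
      · rintro s (hs | hs)
        exacts [h2 s hs, h2' s hs]
      · rintro x (hx | hx)
        exacts [(h3 x hx).mono subset_union_left, (h3' x hx).mono subset_union_right]
    · intro p hp
      obtain ⟨S, A, hS, hpS, h1, h2, h3, -⟩ := hloc p hp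
      exact ⟨S, mem_nhdsWithin_of_mem_nhds (hS.mem_nhds hpS), A, h1, h2, h3⟩
  obtain ⟨A₂, hA₂, hs₂, hl₂⟩ : ∃ A : Set (κ → Cn n → ℂ), A.Finite ∧
      (∀ s ∈ A, IsSect e m s) ∧ ∀ q ∈ K ×ˢ K, Sep e A q.1 q.2 := by
    refine (hK.prod hK).induction_on (p := fun T => ∃ A : Set (κ → Cn n → ℂ), A.Finite ∧
      (∀ s ∈ A, IsSect e m s) ∧ ∀ q ∈ T, Sep e A q.1 q.2) ?_ ?_ ?_ ?_
    · exact ⟨∅, finite_empty, by simp, by simp⟩
    · rintro T T' hT ⟨A, h1, h2, h3⟩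
      exact ⟨A, h1, h2, fun x hx => h3 x (hT hx)⟩
    · rintro T T' ⟨A, h1, h2, h3⟩ ⟨A', h1', h2', h3'⟩
      refine ⟨A ∪ A', h1.union h1', ?_, ?_⟩
      · rintro s (hs | hs)
        exacts [h2 s hs, h2' s hs]
      · rintro x (hx | hx)
        exacts [(h3 x hx).mono subset_union_left, (h3' x hx).mono subset_union_right]
    · rintro ⟨p, p'⟩ ⟨hp, hp'⟩
      rcases eq_or_ne p p' with rfl | hne
      · obtain ⟨S, A, hS, hpS, h1, h2, -, h3⟩ := hloc p hp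
        exact ⟨S ×ˢ S, mem_nhdsWithin_of_mem_nhds (prod_mem_nhds (hS.mem_nhds hpS)
          (hS.mem_nhds hpS)), A, h1, h2, fun q hq => h3 _ hq.1 _ hq.2⟩
      · obtain ⟨c, hW⟩ := hQ p hp
        obtain ⟨c', hW'⟩ := hQ p' hp'
        obtain ⟨s, hs, hs1, -, hs2⟩ := hjet p c p' c' hW hW' 1 0 (1 / 4) (by norm_num)
        obtain ⟨t, ht, ht1, -, ht2⟩ := hjet p' c' p c hW' hW 1 0 (1 / 4) (by norm_num)
        have hD := det_ne hs1 ht1 (hs2 hne) (ht2 hne.symm)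
        refine ⟨_, mem_nhdsWithin_of_mem_nhds
          (sep_nhds hs ht (hQs p c hW) (hQs p' c' hW') hD), {s, t},
          toFinite _, ?_, fun q hq => hq⟩
        rintro r (rfl | rfl)
        exacts [hs, ht]
  refine exists_family (hA₁.union hA₂) ?_ (fun x hx => (hl₁ x hx).mono subset_union_left)
    (fun x hx x' hx' => (hl₂ (x, x') ⟨hx, hx'⟩).mono subset_union_right)
  rintro s (hs | hs)
  exacts [hs₁ s hs, hs₂ s hs]

end Sets

end Pool.Agent.KRFKo
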