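import Pool.Agent.Work.MP_a2bf38_gt.Z.HolMean
import Pool.Agent.Work.MP_a2bf38_gt.L.AsubN
import Pool.Agent.Work.MP_a2bf38_gt.Q.Weyl

/-!
# The isotropic pole with the exponent `n + 2`: values and first derivatives
-/

open scoped ContDiff Topology ENNReal
open Set MeasureTheory Filter Pool.Agent.ToricKRF Pool.Agent.ToricKRF.G Pool.Agent.KRFS
  Pool.Agent.KRFF Pool.Agent.KRFG Pool.Agent.KRFZ

namespace Pool.Agent.KRFKo

variable {n : ℕ}

/-- the volume of the unit ball -/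
noncomputable def vol1 (n : ℕ) : ℝ := (volume {w : Cn n | nsq w ≤ 1}).toReal

theorem vol1_pos : 0 < vol1 n := Pole.volume_unit_pos

/-- the constant of `jet_val` -/
noncomputable def jc (n : ℕ) (B o : ℝ) : ℝ := Real.exp B * 2 ^ (n + 2) * 2 ^ (2 * n) / (o * vol1 n)

theorem jc_pos {B o : ℝ} (ho : 0 < o) : 0 < jc n B o := by
  have := vol1_pos (n := n)
  unfold jc
  positivity

theorem nsq_add_le' {x y : Cn n} {r : ℝ} (hx : nsq x ≤ r ^ 2) (hy : nsq y ≤ r ^ 2) :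
    nsq (x + y) ≤ (2 * r) ^ 2 := by
  have h2 : nsq (x + y) + nsq (x - y) = 2 * nsq x + 2 * nsq y := by
    simp only [nsq, Prod.fst_add, Prod.snd_add, Prod.fst_sub, Prod.snd_sub, add_dotProduct,
      dotProduct_add, sub_dotProduct, dotProduct_sub]
    ring
  have h3 := Fb.nsq_nonneg (x - y)
  nlinarith

/-- values in the half ball -/
theorem jet_val {W Ω : Cn n → ℝ} {z₀ : Cn n} {ε B o : ℝ} (hε : 0 < ε) (ho : 0 < o)
    (hW : ∀ w, nsq (w - z₀) ≤ ε ^ 2 → W w ≤ (n + 2) * Real.log (nsq (w - z₀) + ε ^ 2) + B)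
    (hΩ : ∀ w, nsq (w - z₀) ≤ ε ^ 2 → o ≤ Ω w) {V : Set (Cn n)} (hV : IsOpen V) {g : Cn n → ℂ}
    (hg : NF.HolC g V) (hsub : {w | nsq (w - z₀) ≤ ε ^ 2} ⊆ V) {I : ℝ} (hI : 0 ≤ I)
    (hint : ∫⁻ w in {w : Cn n | nsq (w - z₀) ≤ ε ^ 2}, ENNReal.ofReal (‖g w‖ ^ 2 *
      (Ω w * Real.exp (-W w))) ≤ ENNReal.ofReal I)
    {z : Cn n} (hz : nsq (z - z₀) ≤ (ε / 2) ^ 2) :
    ‖g z‖ ^ 2 ≤ jc n B o * ε ^ 4 * I := by
  have hv : 0 < vol1 n := vol1_pos
  set K : ℝ := Real.exp B * (2 * ε ^ 2) ^ (n + 2) / o with hK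
  have hKp : 0 < K := by positivity
  have hpt : ∀ w, nsq (w - z₀) ≤ ε ^ 2 → ‖g w‖ ^ 2 ≤ K * (‖g w‖ ^ 2 *
      (Ω w * Real.exp (-W w))) := by
    intro w hw
    set q : ℝ := nsq (w - z₀) + ε ^ 2 with hq
    have hq0 : 0 < q := by
      have := Fb.nsq_nonneg (w - z₀)
      positivity
    have hq1 : q ≤ 2 * ε ^ 2 := by
      rw [hq]
      linarith
    have h4 : Real.exp (-B) * (q ^ (n + 2))⁻¹ ≤ Real.exp (-W w) := by
      have h5 : Real.exp (-B) * (q ^ (n + 2))⁻¹ = Real.exp (-((n + 2) * Real.log q + B)) := by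
        rw [neg_add, Real.exp_add, show -((n + 2 : ℝ) * Real.log q) = -(((n + 2 : ℕ) : ℝ) *
          Real.log q) by push_cast; ring, Real.exp_neg ((((n + 2 : ℕ) : ℝ)) * _),
          Real.exp_nat_mul, Real.exp_log hq0, mul_comm]
      rw [h5]
      exact Real.exp_le_exp.2 (by linarith [hW w hw])
    have h3 : 1 ≤ K * (Ω w * Real.exp (-W w)) := by
      have h5 : ((2 * ε ^ 2) ^ (n + 2))⁻¹ ≤ (q ^ (n + 2))⁻¹ := by
        gcongr
      have h6 : K * (o * (Real.exp (-B) * ((2 * ε ^ 2) ^ (n + 2))⁻¹)) = 1 := by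
        rw [hK, Real.exp_neg]
        have : Real.exp B ≠ 0 := (Real.exp_pos B).ne'
        field_simp
      rw [← h6]
      have h7 := hΩ w hw
      have h8 : Real.exp (-B) * ((2 * ε ^ 2) ^ (n + 2))⁻¹ ≤ Real.exp (-W w) :=
        (mul_le_mul_of_nonneg_left h5 (Real.exp_pos _).le).trans h4
      have h9 : (0 : ℝ) ≤ Real.exp (-B) * ((2 * ε ^ 2) ^ (n + 2))⁻¹ := by positivity
      exact mul_le_mul_of_nonneg_left (mul_le_mul h7 h8 h9 (ho.le.trans h7)) hKp.le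
    calc ‖g w‖ ^ 2 = ‖g w‖ ^ 2 * 1 := (mul_one _).symm
      _ ≤ ‖g w‖ ^ 2 * (K * (Ω w * Real.exp (-W w))) :=
        mul_le_mul_of_nonneg_left h3 (sq_nonneg _)
      _ = _ := by ring
  have h1 : ∫⁻ w in {w : Cn n | nsq (w - z₀) ≤ ε ^ 2}, ENNReal.ofReal (‖g w‖ ^ 2) ≤
      ENNReal.ofReal (K * I) := by
    calc ∫⁻ w in {w : Cn n | nsq (w - z₀) ≤ ε ^ 2}, ENNReal.ofReal (‖g w‖ ^ 2) ≤
        ∫⁻ w in {w : Cn n | nsq (w - z₀) ≤ ε ^ 2}, ENNReal.ofReal K * ENNReal.ofReal (‖g w‖ ^ 2 *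
          (Ω w * Real.exp (-W w))) := by
          refine setLIntegral_mono' (Pool.Agent.KRFZ.HM.isCompact_ball z₀ ε).measurableSet fun w hw => ?_
          rw [← ENNReal.ofReal_mul hKp.le]
          exact ENNReal.ofReal_le_ofReal (hpt w hw)
      _ = ENNReal.ofReal K * ∫⁻ w in {w : Cn n | nsq (w - z₀) ≤ ε ^ 2}, ENNReal.ofReal
          (‖g w‖ ^ 2 * (Ω w * Real.exp (-W w))) := lintegral_const_mul' _ _ ENNReal.ofReal_ne_top
      _ ≤ ENNReal.ofReal K * ENNReal.ofReal I := mul_le_mul_right hint _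
      _ = ENNReal.ofReal (K * I) := (ENNReal.ofReal_mul hKp.le).symm
  have hsub2 : {w | nsq (w - z) ≤ (ε / 2) ^ 2} ⊆ {w : Cn n | nsq (w - z₀) ≤ ε ^ 2} := by
    intro w hw
    have h2 := nsq_add_le' (x := w - z) (y := z - z₀) hw hz
    rw [sub_add_sub_cancel, show (2 * (ε / 2)) = ε by ring] at h2
    exact h2
  have h1' : ∫⁻ w in {w : Cn n | nsq (w - z) ≤ (ε / 2) ^ 2}, ENNReal.ofReal (‖g w‖ ^ 2) ≤
      ENNReal.ofReal (K * I) := (lintegral_mono_set hsub2).trans h1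
  have h2 := Pool.Agent.KRFZ.HM.mean_sq_lint hV hg (half_pos hε) (hsub2.trans hsub) (by positivity) h1'
  rw [← vol1] at h2
  have hεn : 0 < (ε / 2) ^ (2 * n) := by positivity
  have h3 : ‖g z‖ ^ 2 ≤ K * I / ((ε / 2) ^ (2 * n) * vol1 n) := by
    rw [le_div_iff₀ (by positivity)]
    linarith
  refine h3.trans (le_of_eq ?_)
  rw [hK, jc, mul_pow, div_pow, show (ε ^ 2) ^ (n + 2) = ε ^ (2 * n) * ε ^ 4 by
    rw [← pow_mul]; ring]
  field_simp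

theorem nsq_lineL (v : Cn n) (ζ : ℂ) : nsq (lineL v ζ) = ‖ζ‖ ^ 2 * nsq v := by
  rw [lineL_apply, ← Complex.normSq_eq_norm_sq, Complex.normSq_apply]
  simp only [nsq, J, Prod.fst_add, Prod.snd_add, Prod.smul_fst, Prod.smul_snd, smul_neg,
    add_dotProduct, dotProduct_add, smul_dotProduct, dotProduct_smul, smul_eq_mul,
    neg_dotProduct, dotProduct_neg, dotProduct_comm v.2 v.1]
  ring

/-- derivatives at the centre -/
theorem jet_der {z₀ : Cn n} {ε A : ℝ} (hε : 0 < ε) (hA : 0 ≤ A) {V : Set (Cn n)} (hV : IsOpen V)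
    {g : Cn n → ℂ} (hg : NF.HolC g V) (hsub : {w | nsq (w - z₀) ≤ (ε / 2) ^ 2} ⊆ V)
    (hval : ∀ z, nsq (z - z₀) ≤ (ε / 2) ^ 2 → ‖g z‖ ^ 2 ≤ A) (v : Cn n) :
    ‖fderiv ℝ g z₀ v‖ ^ 2 ≤ A * (4 / ε ^ 2) * nsq v := by
  by_cases hv : v = 0
  · rw [hv, map_zero, norm_zero]
    have := Fb.nsq_nonneg (0 : Cn n)
    rw [zero_pow two_ne_zero]
    exact mul_nonneg (mul_nonneg hA (by positivity)) this
  have hnv : 0 < nsq v := lt_of_le_of_ne (Fb.nsq_nonneg v) fun h =>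
    hv (Pool.Agent.KRFX.NC.nsq_eq_zero.1 h.symm)
  have hsv : 0 < √(nsq v) := Real.sqrt_pos.2 hnv
  set R : ℝ := ε / (2 * √(nsq v)) with hR
  have hR0 : 0 < R := by positivity
  have hball : ∀ ζ : ℂ, ‖ζ‖ ≤ R → nsq (line z₀ v ζ - z₀) ≤ (ε / 2) ^ 2 := by
    intro ζ hζ
    rw [line_eq, add_sub_cancel_left, nsq_lineL]
    have h1 : ‖ζ‖ ^ 2 ≤ R ^ 2 := pow_le_pow_left₀ (norm_nonneg _) hζ 2
    have h2 : R ^ 2 * nsq v = (ε / 2) ^ 2 := by
      rw [hR, div_pow, mul_pow, Real.sq_sqrt hnv.le]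
      field_simp
    rw [← h2]
    exact mul_le_mul_of_nonneg_right h1 hnv.le
  have hd := Pool.Agent.KRFH.AsubN.diff_line hV hg z₀ v
  have hcl : DiffContOnCl ℂ (fun ζ => g (line z₀ v ζ)) (Metric.ball 0 R) := by
    refine DifferentiableOn.diffContOnCl (hd.mono ?_)
    intro ζ hζ
    rw [closure_ball _ hR0.ne'] at hζ
    exact hsub (hball ζ (by simpa using hζ))
  have hb : ∀ ζ ∈ Metric.sphere (0 : ℂ) R, ‖g (line z₀ v ζ)‖ ≤ √A := by
    intro ζ hζ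
    exact Real.le_sqrt_of_sq_le (hval _ (hball ζ (by simpa using (le_of_eq hζ))))
  have h1 := Complex.norm_deriv_le_of_forall_mem_sphere_norm_le hR0 hcl hb
  have hz₀V : z₀ ∈ V := hsub (by
    change nsq (z₀ - z₀) ≤ _
    rw [sub_self, Pool.Agent.KRFX.NC.nsq_eq_zero.2 rfl]
    positivity)
  have h2 : deriv (fun ζ => g (line z₀ v ζ)) 0 = fderiv ℝ g z₀ v := by
    have h3 : HasFDerivAt g (fderiv ℝ g z₀) (line z₀ v 0) := by
      rw [line_zero]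
      exact (NF.diffAt hV hg.1 hz₀V).hasFDerivAt
    have h4 := h3.comp 0 (hasFDerivAt_line z₀ v 0)
    have h0 : (0 : ℂ) ∈ line z₀ v ⁻¹' V := by
      change line z₀ v 0 ∈ V
      rw [line_zero]
      exact hz₀V
    have h5 : DifferentiableAt ℂ (fun ζ => g (line z₀ v ζ)) 0 :=
      hd.differentiableAt ((hV.preimage (contDiff_line z₀ v).continuous).mem_nhds h0)
    have h6 := h5.hasDerivAt.hasFDerivAt.restrictScalars ℝ
    have h7 := h6.unique h4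
    have h8 := congrArg (fun L : ℂ →L[ℝ] ℂ => L 1) h7
    simpa [lineL_apply] using h8
  rw [h2] at h1
  calc ‖fderiv ℝ g z₀ v‖ ^ 2 ≤ (√A / R) ^ 2 := pow_le_pow_left₀ (norm_nonneg _) h1 2
    _ = A * (4 / ε ^ 2) * nsq v := by
      rw [div_pow, Real.sq_sqrt hA, hR, div_pow, mul_pow, Real.sq_sqrt hnv.le]
      field_simp
      norm_num

end Pool.Agent.KRFKo
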