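import Pool.Agent.Work.MP_a2bf38_gt.Ko.PoleA
import Pool.Agent.Work.MP_a2bf38_gt.X.NatMono
import Pool.Agent.Work.MP_a2bf38_gt.Ko.JetLoc
import Pool.Agent.Work.MP_a2bf38_gt.Ko.Defs

/-!
# B6: sections with given values and first derivatives
-/

open scoped ContDiff Topology ENNReal
open Set MeasureTheory Filter Pool.Agent.ToricKRF Pool.Agent.ToricKRF.G Pool.Agent.KRFS
  Pool.Agent.KRFF Pool.Agent.KRFQ

namespace Pool.Agent.KRFKo

section loc

variable {n : ℕ}

/-- the polynomial `a₀ + ∑ a_i (z - z₀)_i` -/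
noncomputable def lin (z₀ : Cn n) (a₀ : ℂ) (a : Fin n → ℂ) (z : Cn n) : ℂ :=
  a₀ + ∑ i, a i * cc (z - z₀) i

theorem cc_sub' (x y : Cn n) (i : Fin n) : cc (x - y) i = cc x i - cc y i := by
  apply Complex.ext <;> simp [cc]

theorem holC_lin (z₀ : Cn n) (a₀ : ℂ) (a : Fin n → ℂ) : NF.HolC (lin z₀ a₀ a) univ := by
  refine (NF.HolC.const a₀ univ).add isOpen_univ (NF.HolC.sum _ isOpen_univ fun i =>
    (NF.HolC.const (a i) univ).mul isOpen_univ ?_)
  have h1 : (fun z : Cn n => cc (z - z₀) i) = fun z => cc z i + -cc z₀ i := by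
    funext z
    rw [cc_sub', sub_eq_add_neg]
  rw [h1]
  exact (Pool.Agent.KRFX.NC.holC_cc i).add isOpen_univ (NF.HolC.const _ univ)

theorem contDiff_lin (z₀ : Cn n) (a₀ : ℂ) (a : Fin n → ℂ) : ContDiff ℝ ∞ (lin z₀ a₀ a) :=
  contDiffOn_univ.1 (holC_lin z₀ a₀ a).1

theorem lin_self (z₀ : Cn n) (a₀ : ℂ) (a : Fin n → ℂ) : lin z₀ a₀ a z₀ = a₀ := by
  have h1 : ∀ i, cc (z₀ - z₀) i = 0 := by
    intro i
    rw [cc_sub', sub_self]
  simp only [lin, h1, mul_zero, Finset.sum_const_zero, add_zero]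

theorem dz_holC {h : Cn n → ℂ} {S : Set (Cn n)} (hh : NF.HolC h S) {z : Cn n} (hz : z ∈ S)
    (k : Fin n) : dz k h z = fderiv ℝ h z (eR k) := by
  have h1 := hh.2 z hz (eR k)
  rw [J_eR] at h1
  rw [dz, h1, ← mul_assoc, Complex.I_mul_I]
  ring

theorem dz_lin (z₀ : Cn n) (a₀ : ℂ) (a : Fin n → ℂ) (k : Fin n) (z : Cn n) :
    dz k (lin z₀ a₀ a) z = a k := by
  rw [dz_holC (holC_lin z₀ a₀ a) (mem_univ z)]
  have h1 : HasDerivAt (fun t : ℝ => lin z₀ a₀ a (z + t • eR k))
      (fderiv ℝ (lin z₀ a₀ a) z (eR k)) 0 := by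
    have h2 : HasFDerivAt (lin z₀ a₀ a) (fderiv ℝ (lin z₀ a₀ a) z) (z + (0 : ℝ) • eR k) := by
      rw [zero_smul, add_zero]
      exact ((contDiff_lin z₀ a₀ a).differentiable (by simp) z).hasFDerivAt
    have h3 : HasDerivAt (fun t : ℝ => z + t • eR k) (eR k) 0 := by
      simpa using ((hasDerivAt_id (0 : ℝ)).smul_const (eR k)).const_add z
    exact h2.comp_hasDerivAt 0 h3
  have h4 : (fun t : ℝ => lin z₀ a₀ a (z + t • eR k)) = fun t : ℝ => lin z₀ a₀ a z +
      (t : ℂ) * a k := by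
    funext t
    simp only [lin]
    have h5 : ∀ i, cc (z + t • eR k - z₀) i = cc (z - z₀) i + if i = k then (t : ℂ) else 0 := by
      intro i
      by_cases hi : i = k
      · subst hi
        apply Complex.ext <;> simp [cc, eR] ; ring
      · apply Complex.ext <;> simp [cc, eR, hi]
    simp only [h5, mul_add, Finset.sum_add_distrib]
    simp only [mul_ite, mul_zero, Finset.sum_ite_eq', Finset.mem_univ, if_true]
    ring
  rw [h4] at h1
  have h5 : HasDerivAt (fun t : ℝ => lin z₀ a₀ a z + (t : ℂ) * a k) (1 * a k) 0 := by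
    have h6 : HasDerivAt (fun t : ℝ => (t : ℂ)) 1 0 := by
      have h7 := (hasDerivAt_id (0 : ℝ)).ofReal_comp
      rw [Complex.ofReal_one] at h7
      exact h7
    exact (h6.mul_const (a k)).const_add _
  rw [one_mul] at h5
  exact h1.unique h5

theorem nsq_eR' (k : Fin n) : nsq (eR k) = 1 := by
  simp [nsq, eR]

/-- Cauchy-Schwarz -/
theorem norm_sum_sq_le (b : Fin n → ℂ) (v : Cn n) :
    ‖∑ j, b j * (starRingEnd ℂ) (cc v j)‖ ^ 2 ≤ (∑ j, ‖b j‖ ^ 2) * nsq v := by
  have h1 : ‖∑ j, b j * (starRingEnd ℂ) (cc v j)‖ ≤ ∑ j, ‖b j‖ * ‖cc v j‖ := by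
    refine (norm_sum_le _ _).trans (le_of_eq (Finset.sum_congr rfl fun j _ => ?_))
    rw [norm_mul, RCLike.norm_conj]
  have h2 := Finset.sum_mul_sq_le_sq_mul_sq Finset.univ (fun j => ‖b j‖) (fun j => ‖cc v j‖)
  have h3 : nsq v = ∑ j, ‖cc v j‖ ^ 2 := by
    exact Pool.Agent.KRFG.NK.nsq_eq_sum v
  rw [h3]
  exact (pow_le_pow_left₀ (norm_nonneg _) h1 2).trans h2

/-- the polynomial `lin` with a cut-off -/
theorem exists_cut (z₀ : Cn n) {R : ℝ} (hR : 0 < R) (a₀ : ℂ) (a : Fin n → ℂ) :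
    ∃ u : Cn n → ℂ, ContDiff ℝ ∞ u ∧ HasCompactSupport u ∧ tsupport u ⊆ Metric.closedBall z₀ R ∧
      ∀ z ∈ Metric.ball z₀ (R / 2), u z = lin z₀ a₀ a z := by
  let f : ContDiffBump z₀ := ⟨R / 2, R, by positivity, by linarith⟩
  have hsub : tsupport (fun z => ((f z : ℝ) : ℂ) * lin z₀ a₀ a z) ⊆ Metric.closedBall z₀ R := by
    refine (tsupport_mul_subset_left).trans ?_
    refine closure_minimal ?_ Metric.isClosed_closedBall
    intro z hz
    by_contra hz'
    refine hz ?_
    have h1 : R ≤ dist z z₀ := by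
      rw [Metric.mem_closedBall, not_le] at hz'
      exact hz'.le
    have h2 : f z = 0 := f.zero_of_le_dist h1
    change ((f z : ℝ) : ℂ) = 0
    rw [h2, Complex.ofReal_zero]
  refine ⟨fun z => ((f z : ℝ) : ℂ) * lin z₀ a₀ a z, ?_, ?_, hsub, ?_⟩
  · exact (Complex.ofRealCLM.contDiff.comp f.contDiff).mul (contDiff_lin z₀ a₀ a)
  · exact HasCompactSupport.of_support_subset_isCompact (isCompact_closedBall z₀ R)
      ((subset_tsupport _).trans hsub)
  · intro z hz
    have h1 : f z = 1 := f.one_of_mem_closedBall (Metric.ball_subset_closedBall hz)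
    change ((f z : ℝ) : ℂ) * lin z₀ a₀ a z = _
    rw [h1, Complex.ofReal_one, one_mul]

end loc

section glob

variable {M : Type} [TopologicalSpace M] {n : ℕ} {κ : Type}
  {e : κ → OpenPartialHomeomorph M (Cn n)} {V : Set M} {w : κ → Cn n → ℝ}

theorem exists_loc (h0 : L2D e V w (kf w)) {p : M} {c : κ} (hp : p ∈ (e c).source) :
    ∃ R C₂ o : ℝ, 0 < R ∧ 0 ≤ C₂ ∧ 0 < o ∧ ∀ z ∈ Metric.closedBall (e c p) R,
      z ∈ (e c).target ∧ o ≤ w c z ∧ ∀ v, nsq v ≤ C₂ * levz (kf w c) v z := by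
  have hz₀ : e c p ∈ (e c).target := (e c).map_source hp
  have hsm : ContDiffOn ℝ ∞ (fun x : Cn n => nsq x) (e c).target :=
    Pool.Agent.KRFX.NC.contDiff_nsq.contDiffOn
  obtain ⟨C, hC, hev⟩ := Bd.levz_le_local (e c).open_target hsm (h0.g_smooth c) hz₀
    (fun x hx u hu => h0.g_pos c x hx u hu)
  have hw0 := h0.w_pos c _ hz₀
  have hcw : ContinuousAt (w c) (e c p) :=
    (h0.w_smooth c).continuousOn.continuousAt ((e c).open_target.mem_nhds hz₀)
  have hev2 : ∀ᶠ x in 𝓝 (e c p), w c (e c p) / 2 < w c x :=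
    hcw.eventually (isOpen_Ioi.mem_nhds (by
      change w c (e c p) / 2 < w c (e c p)
      linarith))
  have hev3 : ∀ᶠ x in 𝓝 (e c p), x ∈ (e c).target ∧ w c (e c p) / 2 ≤ w c x ∧
      ∀ v, nsq v ≤ C * levz (kf w c) v x := by
    filter_upwards [hev, hev2, (e c).open_target.mem_nhds hz₀] with x h1 h2 h3
    refine ⟨h3, h2.le, fun v => ?_⟩
    have := h1 v
    rwa [show (fun x : Cn n => nsq x) = nsq from rfl, Pool.Agent.KRFF.Gap.levz_nsq'] at this
  obtain ⟨ρ, hρ, hball⟩ := Metric.eventually_nhds_iff.1 hev3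
  refine ⟨ρ / 2, C, w c (e c p) / 2, by positivity, hC, by positivity, fun z hz => ?_⟩
  refine hball ?_
  rw [Metric.mem_closedBall] at hz
  linarith

theorem dist_le_of_nsq {z z₀ : Cn n} {ε : ℝ} (hε : 0 ≤ ε) (h : nsq (z - z₀) ≤ ε ^ 2) :
    dist z z₀ ≤ ε := by
  rw [dist_eq_norm]
  exact le_of_sq_le_sq ((Pool.Agent.KRFX.GA.norm_sq_le _).trans h) hε

theorem IsPole.est (h0 : L2D e V w (kf w)) {C : ℝ} {p : M} {c : κ} {W : ℝ → M → ℝ}
    (hW : IsPole e V w C p c W) {W₂ : ℝ → M → ℝ} {C₂ : ℝ}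
    (hW₂ : ∀ ε, 0 < ε → ε ≤ 1 → ∀ x, W₂ ε x ≤ C₂) (m : ℕ) {O : Set (Cn n)} (hO : IsOpen O)
    (hpO : e c p ∈ O) :
    ∃ A ε₀ : ℝ, 0 < A ∧ 0 < ε₀ ∧ ε₀ ≤ 1 ∧ ∀ ε, 0 < ε → ε ≤ ε₀ → ∀ I : ℝ, 0 ≤ I →
      ∀ g : Cn n → ℂ, NF.HolC g O →
      ∫⁻ z in O, ENNReal.ofReal (‖g z‖ ^ 2 * w c z ^ (m + 1) *
        Real.exp (-pb e c (fun x => W ε x + W₂ ε x) z)) ≤ ENNReal.ofReal I →
      ‖g (e c p)‖ ^ 2 ≤ A * ε ^ 4 * I ∧
        ∀ v, ‖fderiv ℝ g (e c p) v‖ ^ 2 ≤ A * ε ^ 2 * I * nsq v := by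
  obtain ⟨R, _, o, hR, _, ho, hloc⟩ := exists_loc h0 hW.mem
  obtain ⟨r, C', hr, hnear⟩ := hW.near
  obtain ⟨R₂, hR₂, hball⟩ := Metric.isOpen_iff.1 hO _ hpO
  have hsr : 0 < √r := Real.sqrt_pos.2 hr
  set ε₀ : ℝ := min (min 1 R) (min (R₂ / 2) (√r / 2)) with hε₀
  have hε₀0 : 0 < ε₀ := lt_min (lt_min one_pos hR) (lt_min (by positivity) (by positivity))
  have hj := jc_pos (n := n) (B := C' + C₂) (o := o ^ (m + 1)) (by positivity)
  refine ⟨4 * jc n (C' + C₂) (o ^ (m + 1)), ε₀, by positivity, hε₀0,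
    (min_le_left _ _).trans (min_le_left _ _), ?_⟩
  intro ε hε hεε I hI g hg hint
  have he1 : ε ≤ 1 := hεε.trans ((min_le_left _ _).trans (min_le_left _ _))
  have heR : ε ≤ R := hεε.trans ((min_le_left _ _).trans (min_le_right _ _))
  have heR₂ : ε < R₂ := by
    have := hεε.trans ((min_le_right _ _).trans (min_le_left _ _))
    linarith
  have her : ε ^ 2 < r := by
    have h1 := hεε.trans ((min_le_right _ _).trans (min_le_right _ _))
    have h2 : ε < √r := by linarith
    have h3 := pow_lt_pow_left₀ h2 hε.le two_ne_zero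
    rwa [Real.sq_sqrt hr.le] at h3
  have hsub : {z | nsq (z - e c p) ≤ ε ^ 2} ⊆ O := fun z hz => hball (by
    rw [Metric.mem_ball]
    exact lt_of_le_of_lt (dist_le_of_nsq hε.le hz) heR₂)
  have hval : ∀ z, nsq (z - e c p) ≤ (ε / 2) ^ 2 →
      ‖g z‖ ^ 2 ≤ jc n (C' + C₂) (o ^ (m + 1)) * ε ^ 4 * I := by
    intro z hz
    refine jet_val (W := fun z => pb e c (fun x => W ε x + W₂ ε x) z)
      (Ω := fun z => w c z ^ (m + 1)) hε (by positivity) ?_ ?_ hO hg hsub hI ?_ hz
    · intro x hx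
      have h1 := (hnear ε hε he1 x (lt_of_le_of_lt hx her)).2
      have h2 := hW₂ ε hε he1 ((e c).symm x)
      have h3 : pb e c (fun x => W ε x + W₂ ε x) x = pb e c (W ε) x + W₂ ε ((e c).symm x) := rfl
      rw [h3]
      linarith
    · intro x hx
      have h1 := (hloc x (Metric.mem_closedBall.2 ((dist_le_of_nsq hε.le hx).trans heR))).2.1
      exact pow_le_pow_left₀ ho.le h1 _
    · refine le_trans ?_ hint
      refine (lintegral_mono_set hsub).trans (le_of_eq ?_)
      simp only [mul_assoc]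
  have hA : 0 ≤ jc n (C' + C₂) (o ^ (m + 1)) * ε ^ 4 * I :=
    mul_nonneg (mul_nonneg hj.le (by positivity)) hI
  constructor
  · have h1 := hval (e c p) (by
      rw [sub_self, Pool.Agent.KRFX.NC.nsq_eq_zero.2 rfl]
      positivity)
    linarith
  · intro v
    have hsub' : {z | nsq (z - e c p) ≤ (ε / 2) ^ 2} ⊆ O := by
      intro z hz
      have hz' : nsq (z - e c p) ≤ (ε / 2) ^ 2 := hz
      refine hsub ?_
      change nsq (z - e c p) ≤ ε ^ 2
      nlinarith
    have h1 := jet_der hε hA hO hg hsub' hval v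
    refine h1.trans (le_of_eq ?_)
    field_simp

theorem levz_kf_nonneg (h0 : L2D e V w (kf w)) {c : κ} {z : Cn n} (hz : z ∈ (e c).target)
    (v : Cn n) : 0 ≤ levz (kf w c) v z := by
  by_cases hv : v = 0
  · rw [hv, levz_zero_vec]
  · exact (h0.g_pos c z hz v hv).le

/-- B6: sections with given values and first derivatives at `p`, and small at `p'` -/
theorem exists_jet [T2Space M] (h0 : L2D e V w (kf w)) (hsec : HasSec e w) {C : ℝ} {p p' : M}
    {c c' : κ} {W W' : ℝ → M → ℝ} (hW : IsPole e V w C p c W) (hW' : IsPole e V w C p' c' W')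
    {m : ℕ} (hm : 2 * C + 1 ≤ m) (a₀ : ℂ) (a : Fin n → ℂ) {δ : ℝ} (hδ : 0 < δ) :
    ∃ s, IsSect e m s ∧ ‖s c (e c p) - a₀‖ ≤ δ ∧ (∀ i, ‖dz i (s c) (e c p) - a i‖ ≤ δ) ∧
      (p ≠ p' → ‖s c' (e c' p')‖ ≤ δ) := by
  obtain ⟨R₀, C₂, o, hR₀, hC₂, ho, hloc⟩ := exists_loc h0 hW.mem
  -- the radius
  obtain ⟨R, hR, hRR, hRp⟩ : ∃ R, 0 < R ∧ R ≤ R₀ ∧
      (p ≠ p' → p' ∉ (e c).symm '' Metric.closedBall (e c p) R) := by
    by_cases hs : p' ∈ (e c).source
    · by_cases hpp : p = p'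
      · exact ⟨R₀, hR₀, le_rfl, fun h => absurd hpp h⟩
      · have hne : e c p' ≠ e c p := fun h => hpp ((e c).injOn hW.mem hs h.symm)
        have hd : 0 < dist (e c p') (e c p) := dist_pos.2 hne
        refine ⟨min R₀ (dist (e c p') (e c p) / 2), lt_min hR₀ (by positivity),
          min_le_left _ _, fun _ => ?_⟩
        rintro ⟨z, hz, hzp⟩
        have hz1 : dist z (e c p) ≤ min R₀ (dist (e c p') (e c p) / 2) := hz
        have hzt : z ∈ (e c).target := (hloc z (hz1.trans (min_le_left _ _))).1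
        have h1 : e c p' = z := by rw [← hzp, (e c).right_inv hzt]
        have h2 := hz1.trans (min_le_right _ _)
        rw [h1] at hd h2
        linarith
    · refine ⟨R₀, hR₀, le_rfl, fun _ => ?_⟩
      rintro ⟨z, hz, hzp⟩
      exact hs (hzp ▸ (e c).map_target (hloc z hz).1)
  have hloc' : ∀ z ∈ Metric.closedBall (e c p) R, z ∈ (e c).target ∧ o ≤ w c z ∧
      ∀ v, nsq v ≤ C₂ * levz (kf w c) v z := fun z hz =>
    hloc z (Metric.closedBall_subset_closedBall hRR hz)
  have hKt : Metric.closedBall (e c p) R ⊆ (e c).target := fun z hz => (hloc' z hz).1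
  have hKc : IsCompact ((e c).symm '' Metric.closedBall (e c p) R) :=
    (isCompact_closedBall _ _).image_of_continuousOn ((e c).symm.continuousOn.mono hKt)
  -- the smooth section
  obtain ⟨u, hu, huc, hut, hul⟩ := exists_cut (e c p) hR a₀ a
  set B : Cn n → ℝ := fun z => C₂ * ∑ j, ‖dzb j u z‖ ^ 2 with hB
  have hBcont : Continuous B :=
    continuous_const.mul (continuous_finsetSum _ fun j _ =>
      ((contDiff_dzb hu j).continuous.norm.pow 2))
  have hB0 : ∀ z, 0 ≤ B z := fun z => mul_nonneg hC₂ (Finset.sum_nonneg fun j _ => by positivity)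
  have hBz : ∀ z, z ∉ tsupport u → B z = 0 := by
    intro z hz
    simp only [hB, dzb_of_notMem hz, norm_zero, ne_eq, OfNat.ofNat_ne_zero, not_false_eq_true,
      zero_pow, Finset.sum_const_zero, mul_zero]
  have hBt : tsupport B ⊆ Metric.closedBall (e c p) R := by
    refine closure_minimal (fun z hz => ?_) Metric.isClosed_closedBall
    by_contra hz'
    exact hz (hBz z fun h => hz' (hut h))
  have hBc : HasCompactSupport B := HasCompactSupport.of_support_subset_isCompact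
    (isCompact_closedBall (e c p) R) ((subset_tsupport _).trans hBt)
  have hBin : ∀ z ∈ Metric.ball (e c p) (R / 2), B z = 0 := by
    intro z hz
    have h1 : u =ᶠ[𝓝 z] lin (e c p) a₀ a := by
      filter_upwards [Metric.isOpen_ball.mem_nhds hz] with x hx
      exact hul x hx
    have h2 : ∀ j, dzb j u z = 0 := fun j => by
      rw [dzb_congr h1]
      exact dzb_of_fderiv_J (fun v => (holC_lin (e c p) a₀ a).2 z (mem_univ z) v) j
    simp only [hB, h2, norm_zero, ne_eq, OfNat.ofNat_ne_zero, not_false_eq_true,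
      zero_pow, Finset.sum_const_zero, mul_zero]
  have hBu : ∀ z ∈ (e c).target, ∀ v,
      ‖∑ j, dzb j u z * (starRingEnd ℂ) (cc v j)‖ ^ 2 ≤ B z * levz (kf w c) v z := by
    intro z hz v
    by_cases hzu : z ∈ tsupport u
    · have h1 := (hloc' z (hut hzu)).2.2 v
      have h2 : 0 ≤ ∑ j, ‖dzb j u z‖ ^ 2 := Finset.sum_nonneg fun j _ => by positivity
      calc ‖∑ j, dzb j u z * (starRingEnd ℂ) (cc v j)‖ ^ 2 ≤
          (∑ j, ‖dzb j u z‖ ^ 2) * nsq v := norm_sum_sq_le _ v
        _ ≤ (∑ j, ‖dzb j u z‖ ^ 2) * (C₂ * levz (kf w c) v z) :=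
          mul_le_mul_of_nonneg_left h1 h2
        _ = B z * levz (kf w c) v z := by
          simp only [hB]
          ring
    · simp only [dzb_of_notMem hzu, zero_mul, Finset.sum_const_zero, norm_zero, ne_eq,
        OfNat.ofNat_ne_zero, not_false_eq_true, zero_pow]
      exact mul_nonneg (hB0 z) (levz_kf_nonneg h0 hz v)
  -- the bounds of the weight from below
  obtain ⟨D₁, hD₁⟩ := hW.away ((e c).symm '' Metric.ball (e c p) (R / 2))
    ((e c).symm.isOpen_image_of_subset_source Metric.isOpen_ball (by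
      refine (Metric.ball_subset_closedBall.trans (Metric.closedBall_subset_closedBall ?_)).trans
        hKt
      linarith)) ⟨e c p, Metric.mem_ball_self (by positivity), (e c).left_inv hW.mem⟩
  obtain ⟨D₂, hD₂⟩ : ∃ D₂ : ℝ, ∀ ε, 0 < ε → ε ≤ 1 → ∀ z ∈ Metric.closedBall (e c p) R,
      z ∉ Metric.ball (e c p) (R / 2) → -D₂ ≤ W' ε ((e c).symm z) := by
    by_cases hpp : p = p'
    · have hp' : p' ∈ (e c).symm '' Metric.ball (e c p) (R / 2) := by
        rw [← hpp]
        exact ⟨e c p, Metric.mem_ball_self (by positivity), (e c).left_inv hW.mem⟩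
      have hsub : Metric.ball (e c p) (R / 2) ⊆ (e c).target := by
        refine (Metric.ball_subset_closedBall.trans
          (Metric.closedBall_subset_closedBall ?_)).trans hKt
        linarith
      obtain ⟨D₂, hD₂⟩ := hW'.away _
        ((e c).symm.isOpen_image_of_subset_source Metric.isOpen_ball hsub) hp'
      refine ⟨D₂, fun ε hε hε1 z hz hz' => hD₂ ε hε hε1 _ (h0.sub c ((e c).map_target (hKt hz))) ?_⟩
      rintro ⟨x, hx, hxz⟩
      have : x = z := (e c).symm.injOn (hsub hx) (hKt hz) hxz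
      exact hz' (this ▸ hx)
    · obtain ⟨D₂, hD₂⟩ := hW'.away _ hKc.isClosed.isOpen_compl (hRp hpp)
      refine ⟨D₂, fun ε hε hε1 z hz _ => hD₂ ε hε hε1 _ (h0.sub c ((e c).map_target (hKt hz))) ?_⟩
      rw [mem_compl_iff, not_not]
      exact mem_image_of_mem _ hz
  -- the bound of the right side
  obtain ⟨C₃, hC₃⟩ := (isCompact_closedBall (e c p) R).exists_bound_of_continuousOn
    (f := fun z => B z * w c z ^ (m + 1) * Real.exp (D₁ + D₂))
    (((hBcont.continuousOn).mul (((h0.w_smooth c).continuousOn.mono hKt).pow _)).mul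
      continuousOn_const)
  have hC₃0 : 0 ≤ C₃ := (norm_nonneg _).trans (hC₃ (e c p) (Metric.mem_closedBall_self hR.le))
  set vol := volume (Metric.closedBall (e c p) R) with hvol
  have hvolt : vol ≠ ⊤ := (isCompact_closedBall (e c p) R).measure_lt_top.ne
  set I : ℝ := C₃ * vol.toReal with hI
  have hI0 : 0 ≤ I := mul_nonneg hC₃0 ENNReal.toReal_nonneg
  have hint : ∀ ε, 0 < ε → ε ≤ 1 → ∫⁻ z in (e c).target, ENNReal.ofReal
      (B z * w c z ^ (m + 1) * Real.exp (-pb e c (fun x => W ε x + W' ε x) z)) ≤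
        ENNReal.ofReal I := by
    intro ε hε hε1
    calc _ ≤ ∫⁻ z in (e c).target,
              (Metric.closedBall (e c p) R).indicator (fun _ => ENNReal.ofReal C₃) z := by
          refine setLIntegral_mono' (e c).open_target.measurableSet fun z hz => ?_
          by_cases hz1 : z ∈ Metric.closedBall (e c p) R
          · rw [indicator_of_mem hz1]
            refine ENNReal.ofReal_le_ofReal ?_
            by_cases hz2 : z ∈ Metric.ball (e c p) (R / 2)
            · rw [hBin z hz2, zero_mul, zero_mul]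
              exact hC₃0
            · have h1 : -D₁ ≤ W ε ((e c).symm z) := by
                refine hD₁ ε hε hε1 _ (h0.sub c ((e c).map_target hz)) ?_
                rintro ⟨x, hx, hxz⟩
                have hxt : x ∈ (e c).target := hKt
                  (Metric.closedBall_subset_closedBall (by linarith)
                    (Metric.ball_subset_closedBall hx))
                have : x = z := (e c).symm.injOn hxt hz hxz
                exact hz2 (this ▸ hx)
              have h2 := hD₂ ε hε hε1 z hz1 hz2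
              have h3 := (le_abs_self _).trans (hC₃ z hz1)
              refine le_trans ?_ h3
              have h4 : 0 ≤ B z * w c z ^ (m + 1) :=
                mul_nonneg (hB0 z) (pow_nonneg (h0.w_pos c z hz).le _)
              refine mul_le_mul_of_nonneg_left (Real.exp_le_exp.2 ?_) h4
              have h5 : pb e c (fun x => W ε x + W' ε x) z =
                  W ε ((e c).symm z) + W' ε ((e c).symm z) := rfl
              rw [h5]
              linarith
          · rw [indicator_of_notMem hz1, hBz z fun h => hz1 (hut h), zero_mul, zero_mul,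
              ENNReal.ofReal_zero]
      _ ≤ ∫⁻ z, (Metric.closedBall (e c p) R).indicator (fun _ => ENNReal.ofReal C₃) z :=
          setLIntegral_le_lintegral _ _
      _ = ENNReal.ofReal I := by
          rw [lintegral_indicator_const Metric.isClosed_closedBall.measurableSet, hI,
            ENNReal.ofReal_mul hC₃0, ENNReal.ofReal_toReal hvolt]
  -- the estimates at the two points
  have hball : e c p ∈ Metric.ball (e c p) (R / 2) := Metric.mem_ball_self (by positivity)
  have hballt : Metric.ball (e c p) (R / 2) ⊆ (e c).target :=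
    (Metric.ball_subset_closedBall.trans (Metric.closedBall_subset_closedBall (by
      linarith))).trans hKt
  obtain ⟨A, ε₀, hA, hε₀, hε₀1, hest⟩ := hW.est h0 hW'.le m Metric.isOpen_ball hball
  have hO' : IsOpen ((e c').target ∩ (e c').symm ⁻¹'
      ((e c).symm '' Metric.closedBall (e c p) R)ᶜ) :=
    (e c').symm.isOpen_inter_preimage hKc.isClosed.isOpen_compl
  obtain ⟨A', ε₀', hA', hε₀', hest'⟩ : ∃ A' ε₀' : ℝ, 0 < A' ∧ 0 < ε₀' ∧ (p ≠ p' →
      ∀ ε, 0 < ε → ε ≤ ε₀' → ∀ I : ℝ, 0 ≤ I →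
      ∀ g : Cn n → ℂ, NF.HolC g ((e c').target ∩ (e c').symm ⁻¹'
        ((e c).symm '' Metric.closedBall (e c p) R)ᶜ) →
      ∫⁻ z in (e c').target ∩ (e c').symm ⁻¹' ((e c).symm '' Metric.closedBall (e c p) R)ᶜ,
        ENNReal.ofReal (‖g z‖ ^ 2 * w c' z ^ (m + 1) *
        Real.exp (-pb e c' (fun x => W ε x + W' ε x) z)) ≤ ENNReal.ofReal I →
      ‖g (e c' p')‖ ^ 2 ≤ A' * ε ^ 4 * I) := by
    by_cases hpp : p = p'
    · exact ⟨1, 1, one_pos, one_pos, fun h => absurd hpp h⟩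
    · have hmem : e c' p' ∈ (e c').target ∩ (e c').symm ⁻¹'
          ((e c).symm '' Metric.closedBall (e c p) R)ᶜ := by
        refine ⟨(e c').map_source hW'.mem, ?_⟩
        rw [mem_preimage, (e c').left_inv hW'.mem]
        exact hRp hpp
      obtain ⟨A', ε₀', h1, h2, _, h3⟩ := hW'.est h0 hW.le m hO' hmem
      refine ⟨A', ε₀', h1, h2, fun _ ε hε hεε I hI g hg hgi => (h3 ε hε hεε I hI g hg ?_).1⟩
      have h4 : (fun x => W' ε x + W ε x) = fun x => W ε x + W' ε x := by
        funext x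
        exact add_comm _ _
      rw [h4]
      exact hgi
  -- the choice of `ε`
  set Q : ℝ := (A + A') * I + 1 with hQ
  have hQ0 : 0 < Q := by positivity
  set ε : ℝ := min (min ε₀ ε₀') (δ / √Q) with hεdef
  have hsQ : 0 < √Q := Real.sqrt_pos.2 hQ0
  have hε : 0 < ε := lt_min (lt_min hε₀ hε₀') (by positivity)
  have hεε₀ : ε ≤ ε₀ := (min_le_left _ _).trans (min_le_left _ _)
  have hεε₀' : ε ≤ ε₀' := (min_le_left _ _).trans (min_le_right _ _)
  have hε1 : ε ≤ 1 := hεε₀.trans hε₀1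
  have hεδ : (A + A') * ε ^ 2 * I ≤ δ ^ 2 := by
    have h1 : ε ^ 2 ≤ (δ / √Q) ^ 2 := pow_le_pow_left₀ hε.le (min_le_right _ _) 2
    rw [div_pow, Real.sq_sqrt hQ0.le] at h1
    have h2 : (A + A') * I ≤ Q := by linarith
    have h3 : 0 ≤ (A + A') * I := by positivity
    calc (A + A') * ε ^ 2 * I = (A + A') * I * ε ^ 2 := by ring
      _ ≤ Q * (δ ^ 2 / Q) := mul_le_mul h2 h1 (sq_nonneg _) hQ0.le
      _ = δ ^ 2 := by field_simp
  have hε4 : ε ^ 4 ≤ ε ^ 2 := pow_le_pow_of_le_one hε.le hε1 (by norm_num)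
  -- the section
  have hCm : 2 * C ≤ (m : ℝ) - 1 := by linarith
  have hsm : ∀ b, ContDiffOn ℝ ∞ (pb e b (fun x => W ε x + W' ε x)) (e b).target := fun b =>
    (hW.smooth ε hε b).add (hW'.smooth ε hε b)
  obtain ⟨s, hs, hs1, hs2⟩ := hsec m (fun x => W ε x + W' ε x) hsm (fun b z hz v => by
      have h1 := hW.lev ε hε hε1 b z hz v
      have h2 := hW'.lev ε hε hε1 b z hz v
      have h3 : levz (pb e b (fun x => W ε x + W' ε x)) v z =
          levz (pb e b (W ε)) v z + levz (pb e b (W' ε)) v z := by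
        refine Bd.levz_add (((hW.smooth ε hε b).contDiffAt
          ((e b).open_target.mem_nhds hz)).of_le two_le_infty) (((hW'.smooth ε hε b).contDiffAt
          ((e b).open_target.mem_nhds hz)).of_le two_le_infty) v
      have h4 := levz_kf_nonneg h0 hz v
      have h5 := mul_le_mul_of_nonneg_right hCm h4
      rw [h3]
      linarith) c u B hu huc (hut.trans hKt) hBcont hBc (hBt.trans hKt) hB0 hBu
  have hr := hint ε hε hε1
  have hgl : NF.HolC (fun z => lin (e c p) a₀ a z - s c z) (Metric.ball (e c p) (R / 2)) := by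
    refine ⟨(contDiff_lin _ _ _).contDiffOn.sub ((hs.holo c).1.mono hballt), fun z hz v => ?_⟩
    have h1 := NF.diffAt (e c).open_target (hs.holo c).1 (hballt hz)
    have h2 := (contDiff_lin (e c p) a₀ a).differentiable (by simp) z
    rw [fderiv_fun_sub h2 h1]
    simp only [sub_apply, (holC_lin (e c p) a₀ a).2 z (mem_univ z), (hs.holo c).2 z (hballt hz)]
    ring
  have hfin := hest ε hε hεε₀ I hI0 _ hgl (by
    refine le_trans ?_ (hs1.trans hr)
    refine le_trans (le_of_eq ?_) (lintegral_mono_set hballt)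
    refine setLIntegral_congr_fun Metric.isOpen_ball.measurableSet fun z hz => ?_
    simp only [hul z hz])
  refine ⟨s, hs, ?_, ?_, ?_⟩
  · have h1 := hfin.1
    simp only [lin_self] at h1
    rw [norm_sub_rev]
    refine le_of_sq_le_sq (h1.trans (le_trans ?_ hεδ)) hδ.le
    have h2 : A * ε ^ 4 * I ≤ A * ε ^ 2 * I :=
      mul_le_mul_of_nonneg_right (mul_le_mul_of_nonneg_left hε4 hA.le) hI0
    have h3 : 0 ≤ A' * ε ^ 2 * I := by positivity
    linarith
  · intro i
    have h1 := hfin.2 (eR i)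
    have h2 : fderiv ℝ (fun z => lin (e c p) a₀ a z - s c z) (e c p) (eR i) =
        a i - dz i (s c) (e c p) := by
      rw [← dz_holC hgl hball, dz_sub ((contDiff_lin (e c p) a₀ a).differentiable (by simp) _)
        (NF.diffAt (e c).open_target (hs.holo c).1 (hballt hball)), dz_lin]
    rw [h2, nsq_eR', mul_one] at h1
    rw [norm_sub_rev]
    refine le_of_sq_le_sq (h1.trans (le_trans ?_ hεδ)) hδ.le
    have h3 : 0 ≤ A' * ε ^ 2 * I := by positivity
    linarith
  · intro hpp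
    have hO't : (e c').target ∩ (e c').symm ⁻¹' ((e c).symm '' Metric.closedBall (e c p) R)ᶜ ⊆
        (e c').target := inter_subset_left
    have h1 := hest' hpp ε hε hεε₀' I hI0 (s c') ⟨(hs.holo c').1.mono hO't,
      fun z hz => (hs.holo c').2 z (hO't hz)⟩ ((hs2 c' _ hO' hO't fun z hz hzs hzu => hz.2
        ⟨e c ((e c').symm z), hut hzu, (e c).left_inv hzs⟩).trans hr)
    refine le_of_sq_le_sq (h1.trans (le_trans ?_ hεδ)) hδ.le
    have h2 : A' * ε ^ 4 * I ≤ A' * ε ^ 2 * I :=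
      mul_le_mul_of_nonneg_right (mul_le_mul_of_nonneg_left hε4 hA'.le) hI0
    have h3 : 0 ≤ A * ε ^ 2 * I := by positivity
    linarith

end glob

end Pool.Agent.KRFKo
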