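import Pool.Agent.Work.MP_a2bf38_gt.Ko.Defs

/-!
# KRF VIII, B7a: sections which embed a neighbourhood of a point (helper78)
-/

open scoped ContDiff Topology
open Set MeasureTheory Filter Pool.Agent.ToricKRF Pool.Agent.ToricKRF.G Pool.Agent.KRFS
  Pool.Agent.KRFF Pool.Agent.KRFQ

namespace Pool.Agent.KRFKo

namespace Loc

section

/-- A map with an injective strict derivative at a point is injective near the point. -/
theorem exists_injOn {X Y : Type*} [NormedAddCommGroup X] [NormedSpace ℝ X]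
    [FiniteDimensional ℝ X] [NormedAddCommGroup Y] [NormedSpace ℝ Y] {g : X → Y} {g' : X →L[ℝ] Y}
    {x₀ : X} (h : HasStrictFDerivAt g g' x₀) (hinj : ∀ v, g' v = 0 → v = 0) :
    ∃ N ∈ 𝓝 x₀, InjOn g N := by
  obtain ⟨K, hK, hL⟩ := (g' : X →ₗ[ℝ] Y).exists_antilipschitzWith (by
    rw [LinearMap.ker_eq_bot']
    exact hinj)
  have hKp : (0 : ℝ) < K := hK
  have h1 := h.isLittleO.def (c := 1 / (2 * K)) (by positivity)
  rw [nhds_prod_eq, eventually_prod_self_iff'] at h1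
  obtain ⟨N, hN, h2⟩ := h1
  refine ⟨N, hN, fun x hx y hy hxy => ?_⟩
  have h3 := h2 x hx y hy
  simp only [hxy, sub_self, zero_sub, norm_neg] at h3
  have h4 := hL.le_mul_dist x y
  rw [dist_eq_norm, dist_eq_norm] at h4
  have h5 : ‖(g' : X →ₗ[ℝ] Y) x - (g' : X →ₗ[ℝ] Y) y‖ = ‖g' (x - y)‖ := by
    rw [map_sub]
    rfl
  rw [h5] at h4
  have h6 : (K : ℝ) * ‖g' (x - y)‖ ≤ K * (1 / (2 * K) * ‖x - y‖) :=
    mul_le_mul_of_nonneg_left h3 hKp.le
  have h7 : (K : ℝ) * (1 / (2 * K) * ‖x - y‖) = ‖x - y‖ / 2 := by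
    field_simp
  have h8 : ‖x - y‖ ≤ 0 := by linarith
  exact sub_eq_zero.1 (norm_le_zero_iff.1 h8)

/-- The matrices close to the identity are invertible. -/
theorem exists_delta (k : ℕ) : ∃ δ : ℝ, 0 < δ ∧ ∀ A : Matrix (Fin k) (Fin k) ℂ,
    (∀ i j, ‖A i j - (1 : Matrix (Fin k) (Fin k) ℂ) i j‖ ≤ δ) → A.det ≠ 0 := by
  have hc : Continuous fun B : Fin k → Fin k → ℂ => (Matrix.of B).det :=
    Continuous.matrix_det continuous_id
  obtain ⟨δ, hδ, h⟩ := Metric.continuousAt_iff.1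
    (hc.continuousAt (x := fun i j => (1 : Matrix (Fin k) (Fin k) ℂ) i j)) 1 one_pos
  refine ⟨δ / 2, by positivity, fun A hA h0 => ?_⟩
  have h1 : dist (fun i j => A i j) (fun i j => (1 : Matrix (Fin k) (Fin k) ℂ) i j) < δ := by
    refine lt_of_le_of_lt ?_ (half_lt_self hδ)
    refine (dist_pi_le_iff (by positivity)).2 fun i => (dist_pi_le_iff (by positivity)).2 fun j => ?_
    rw [dist_eq_norm]
    exact hA i j
  have h2 := h h1
  have h3 : (Matrix.of fun i j => A i j).det = 0 := h0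
  have h4 : (Matrix.of fun i j => (1 : Matrix (Fin k) (Fin k) ℂ) i j).det = 1 := Matrix.det_one
  rw [h3, h4, dist_eq_norm, zero_sub, norm_neg, norm_one] at h2
  exact lt_irrefl _ h2

end

section

variable {n : ℕ}

/-- the derivative of a holomorphic function -/
theorem fderiv_holC {h : Cn n → ℂ} {S : Set (Cn n)} (hh : NF.HolC h S) {z : Cn n} (hz : z ∈ S)
    (v : Cn n) : fderiv ℝ h z v = ∑ j, dz j h z * cc v j := by
  rw [KRFQ.fderiv_eq]
  refine Finset.sum_congr rfl fun j _ => ?_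
  have h1 : dzb j h z = 0 := by
    unfold dzb
    rw [← J_eR, hh.2 z hz]
    have hI : Complex.I * Complex.I = -1 := Complex.I_mul_I
    linear_combination (fderiv ℝ h z (eR j)) / 2 * hI
  rw [h1, zero_mul, add_zero]

/-- the matrix of the values and of the first derivatives -/
noncomputable def jm (f : Fin (n + 1) → Cn n → ℂ) (z : Cn n) :
    Matrix (Fin (n + 1)) (Fin (n + 1)) ℂ :=
  Matrix.of fun i => Fin.cons (f i z) fun j => dz j (f i) z

theorem jm_zero (f : Fin (n + 1) → Cn n → ℂ) (z : Cn n) (i : Fin (n + 1)) :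
    jm f z i 0 = f i z := rfl

theorem jm_succ (f : Fin (n + 1) → Cn n → ℂ) (z : Cn n) (i : Fin (n + 1)) (j : Fin n) :
    jm f z i j.succ = dz j (f i) z := rfl

theorem jm_cont {f : Fin (n + 1) → Cn n → ℂ} {S : Set (Cn n)} (hS : IsOpen S)
    (hf : ∀ i, NF.HolC (f i) S) : ContinuousOn (fun z => (jm f z).det) S := by
  refine (KRFQ.contDiffOn_det fun i j => ?_).continuousOn
  refine Fin.cases ?_ (fun j => ?_) j
  · simp only [jm_zero]
    exact (hf i).1
  · simp only [jm_succ]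
    exact contDiffOn_dz hS (hf i).1 j

theorem ne_of_det {f : Fin (n + 1) → Cn n → ℂ} {z : Cn n} (hd : (jm f z).det ≠ 0) :
    ∃ i, f i z ≠ 0 := by
  by_contra h
  push Not at h
  exact hd (Matrix.det_eq_zero_of_column_eq_zero 0 fun i => by rw [jm_zero, h i])

theorem imm_of_det {f : Fin (n + 1) → Cn n → ℂ} {S : Set (Cn n)} (hf : ∀ i, NF.HolC (f i) S)
    {z : Cn n} (hz : z ∈ S) (hd : (jm f z).det ≠ 0) {v : Cn n} {a : ℂ}
    (h : ∀ i, fderiv ℝ (f i) z v = a * f i z) : v = 0 := by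
  have h1 : (jm f z).mulVec (Fin.cons (-a) fun j => cc v j) = 0 := by
    funext i
    simp only [Matrix.mulVec, dotProduct, Fin.sum_univ_succ, Fin.cons_zero, Fin.cons_succ,
      jm_zero, jm_succ, Pi.zero_apply]
    rw [← fderiv_holC (hf i) hz, h i]
    ring
  have h2 := Matrix.eq_zero_of_mulVec_eq_zero hd h1
  refine cc_ext fun j => ?_
  have h3 := congrFun h2 j.succ
  simpa [cc_zero] using h3

end

section

variable {M : Type} [TopologicalSpace M] {n : ℕ} {κ : Type}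
  {e : κ → OpenPartialHomeomorph M (Cn n)}

theorem det_ne (he : ∀ c c', HolOn (tr e c c') (dom e c c')) {c c' : κ} {z : Cn n}
    (hz : z ∈ dom e c c') : (Jm (tr e c c') z).det ≠ 0 := by
  intro h
  have h1 := congrArg Matrix.det (Jm_tr_mul he hz)
  rw [Matrix.det_mul, h, mul_zero, Matrix.det_one] at h1
  exact zero_ne_one h1

theorem fderiv_tr_inj (he : ∀ c c', HolOn (tr e c c') (dom e c c')) {c c' : κ} {z : Cn n}
    (hz : z ∈ dom e c c') {v : Cn n} (hv : fderiv ℝ (tr e c c') z v = 0) : v = 0 := by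
  have h1 : (Jm (tr e c c') z).mulVec (fun k => cc v k) = 0 := by
    funext l
    have h2 := cc_fderiv (he c c') hz v l
    rw [hv, cc_zero] at h2
    simp only [Matrix.mulVec, dotProduct, Pi.zero_apply]
    exact h2.symm
  have h2 := Matrix.eq_zero_of_mulVec_eq_zero (det_ne he hz) h1
  refine cc_ext fun j => ?_
  rw [cc_zero]
  exact congrFun h2 j

/-- Sections under a change of charts: the derivatives. -/
theorem fderiv_sect (he : ∀ c c', HolOn (tr e c c') (dom e c c')) {c c' : κ} {z : Cn n}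
    (hz : z ∈ dom e c c') {m : ℕ} (v : Cn n) : ∃ b : ℂ, ∀ s, IsSect e m s →
      fderiv ℝ (s c') (tr e c c' z) (fderiv ℝ (tr e c c') z v) =
        b * s c z + (Jm (tr e c c') z).det ^ m * fderiv ℝ (s c) z v := by
  have ho := KRFQ.isOpen_dom (e := e) c c'
  have hD : ContDiffOn ℝ ∞ (fun x => (Jm (tr e c c') x).det ^ m) (dom e c c') :=
    (KRFQ.contDiffOn_det fun i j => contDiffOn_Jm ho (he c c') i j).pow m
  refine ⟨fderiv ℝ (fun x => (Jm (tr e c c') x).det ^ m) z v, fun s hs => ?_⟩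
  have h1 : HasFDerivAt (fun x => (Jm (tr e c c') x).det ^ m)
      (fderiv ℝ (fun x => (Jm (tr e c c') x).det ^ m) z) z := (NF.diffAt ho hD hz).hasFDerivAt
  have h2 : HasFDerivAt (s c) (fderiv ℝ (s c) z) z :=
    (NF.diffAt (e c).open_target (hs.holo c).1 hz.1).hasFDerivAt
  have h3 : HasFDerivAt (fun x => s c' (tr e c c' x))
      ((fderiv ℝ (s c') (tr e c c' z)).comp (fderiv ℝ (tr e c c') z)) z :=
    (NF.diffAt (e c').open_target (hs.holo c').1 (tr_mem_target hz)).hasFDerivAt.comp z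
      (HolOn.differentiableAt ho (he c c') hz).hasFDerivAt
  have h4 : (fun x => s c' (tr e c c' x)) =ᶠ[𝓝 z]
      fun x => (Jm (tr e c c') x).det ^ m * s c x := by
    filter_upwards [ho.mem_nhds hz] with x hx using hs.compat c c' x hx
  have h5 := (h3.congr_of_eventuallyEq h4.symm).unique (h1.fun_mul h2)
  have h6 := DFunLike.congr_fun h5 v
  simp only [ContinuousLinearMap.comp_apply, add_apply, smul_apply, smul_eq_mul] at h6
  rw [h6]
  ring

end

end Loc

section Main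

variable {M : Type} [TopologicalSpace M] [T2Space M] {n : ℕ} {κ : Type}
  {e : κ → OpenPartialHomeomorph M (Cn n)} {V : Set M} {w : κ → Cn n → ℝ}

/-- B7a: sections that embed a neighbourhood of `p` -/
theorem exists_local (h0 : L2D e V w (kf w)) {m : ℕ} {p : M} {c : κ} (hp : p ∈ (e c).source)
    (hjet : ∀ (a₀ : ℂ) (a : Fin n → ℂ) (δ : ℝ), 0 < δ → ∃ s, IsSect e m s ∧
      ‖s c (e c p) - a₀‖ ≤ δ ∧ ∀ i, ‖dz i (s c) (e c p) - a i‖ ≤ δ) :
    ∃ (S : Set M) (s : Fin (n + 1) → κ → Cn n → ℂ), IsOpen S ∧ p ∈ S ∧ IsEmbK e S m s := by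
  obtain ⟨δ₀, hδ₀, hdet⟩ := Loc.exists_delta (n + 1)
  set δ : ℝ := min δ₀ (1 / 2) with hδ
  have hδ0 : 0 < δ := lt_min hδ₀ (by norm_num)
  choose s hs hs0 hs1 using fun i : Fin (n + 1) =>
    hjet ((1 : Matrix (Fin (n + 1)) (Fin (n + 1)) ℂ) i 0)
      (fun j => (1 : Matrix (Fin (n + 1)) (Fin (n + 1)) ℂ) i j.succ) δ hδ0
  set x₀ := e c p with hx₀
  have hx₀t : x₀ ∈ (e c).target := (e c).map_source hp
  have hot := (e c).open_target
  have hhol : ∀ i, NF.HolC (s i c) (e c).target := fun i => (hs i).holo c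
  set J : Cn n → Matrix (Fin (n + 1)) (Fin (n + 1)) ℂ := Loc.jm fun i => s i c with hJ
  have hJ0 : (J x₀).det ≠ 0 := by
    refine hdet _ fun i k => ?_
    refine Fin.cases ?_ (fun j => ?_) k
    · exact (hs0 i).trans (min_le_left _ _)
    · exact (hs1 i j).trans (min_le_left _ _)
  have hne : s 0 c x₀ ≠ 0 := by
    intro h
    have h1 := (hs0 0).trans (min_le_right _ _)
    rw [h, Matrix.one_apply_eq, zero_sub, norm_neg, norm_one] at h1
    norm_num at h1
  -- the quotients of the sections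
  set g : Cn n → Fin n → ℂ := fun z i => s i.succ c z / s 0 c z with hg
  set G : Fin n → Cn n →L[ℝ] ℂ := fun i => fderiv ℝ (fun z => s i.succ c z / s 0 c z) x₀ with hG
  have hcd : ∀ i, ContDiffAt ℝ ∞ (s i c) x₀ := fun i => (hhol i).1.contDiffAt (hot.mem_nhds hx₀t)
  have hq : ∀ i : Fin n, HasStrictFDerivAt (fun z => s i.succ c z / s 0 c z) (G i) x₀ := fun i =>
    (((hcd i.succ).mul ((hcd 0).inv hne)).congr_of_eventuallyEq
      (Eventually.of_forall fun z => div_eq_mul_inv _ _)).hasStrictFDerivAt (by simp)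
  have hgs : HasStrictFDerivAt g (ContinuousLinearMap.pi G) x₀ := hasStrictFDerivAt_pi.2 hq
  have hginj : ∀ v, ContinuousLinearMap.pi G v = 0 → v = 0 := by
    intro v hv
    have hGv : ∀ i, G i v = 0 := fun i => congrFun hv i
    refine Loc.imm_of_det (a := fderiv ℝ (s 0 c) x₀ v / s 0 c x₀) hhol hx₀t hJ0 fun i => ?_
    refine Fin.cases ?_ (fun i => ?_) i
    · field_simp
    · have h1 : HasFDerivAt (s 0 c) (fderiv ℝ (s 0 c) x₀) x₀ :=
        (NF.diffAt hot (hhol 0).1 hx₀t).hasFDerivAt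
      have h2 : HasFDerivAt (s i.succ c) (fderiv ℝ (s i.succ c) x₀) x₀ :=
        (NF.diffAt hot (hhol i.succ).1 hx₀t).hasFDerivAt
      have h3 := (hq i).hasFDerivAt.fun_mul h1
      have h4 : (fun z => s i.succ c z / s 0 c z * s 0 c z) =ᶠ[𝓝 x₀] s i.succ c := by
        filter_upwards [(hcd 0).continuousAt.eventually_ne hne] with z hz
        exact div_mul_cancel₀ _ hz
      have h5 := (h3.congr_of_eventuallyEq h4.symm).unique h2
      have h6 := DFunLike.congr_fun h5 v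
      simp only [add_apply, smul_apply, smul_eq_mul, hGv i] at h6
      rw [← h6]
      field_simp
      ring
  obtain ⟨N, hN, hNinj⟩ := Loc.exists_injOn hgs hginj
  -- the neighbourhood
  have hcJ := Loc.jm_cont hot hhol
  have hN1 : {z | z ∈ (e c).target ∧ s 0 c z ≠ 0 ∧ (J z).det ≠ 0} ∈ 𝓝 x₀ := by
    filter_upwards [hot.mem_nhds hx₀t, (hcd 0).continuousAt.eventually_ne hne,
      (hcJ.continuousAt (hot.mem_nhds hx₀t)).eventually_ne hJ0] with z h1 h2 h3
    exact ⟨h1, h2, h3⟩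
  obtain ⟨O, hOsub, hO, hxO⟩ := mem_nhds_iff.1 (inter_mem hN hN1)
  refine ⟨(e c).source ∩ e c ⁻¹' O, s, (e c).isOpen_inter_preimage hO, ⟨hp, hxO⟩, ?_⟩
  have hdom : ∀ c', ∀ z ∈ (e c').target, (e c').symm z ∈ (e c).source ∩ e c ⁻¹' O →
      z ∈ dom e c' c ∧ tr e c' c z ∈ O := fun c' z hz h => ⟨⟨hz, h.1⟩, h.2⟩
  have hpow : ∀ {c' : κ} {z : Cn n}, z ∈ dom e c' c → (Jm (tr e c' c) z).det ^ m ≠ 0 :=
    fun hz => pow_ne_zero m (Loc.det_ne h0.holo hz)
  refine ⟨hs, ?_, ?_, ?_⟩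
  · intro c' z hz hzS
    obtain ⟨hd, hy⟩ := hdom c' z hz hzS
    refine ⟨0, fun h => (hOsub hy).2.2.1 ?_⟩
    rw [(hs 0).compat c' c z hd, h, mul_zero]
  · rintro c' z hz hzS v ⟨a, ha⟩
    obtain ⟨hd, hy⟩ := hdom c' z hz hzS
    obtain ⟨b, hb⟩ := Loc.fderiv_sect (m := m) h0.holo hd v
    refine Loc.fderiv_tr_inj h0.holo hd ?_
    refine Loc.imm_of_det (a := b / (Jm (tr e c' c) z).det ^ m + a) hhol (hOsub hy).2.1
      (hOsub hy).2.2.2 fun i => ?_
    rw [hb (s i) (hs i), ha i, (hs i).compat c' c z hd]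
    have := hpow hd
    field_simp
  · rintro c' z hz hzS c'' z' hz' hzS' ⟨a, ha⟩
    obtain ⟨hd, hy⟩ := hdom c' z hz hzS
    obtain ⟨hd', hy'⟩ := hdom c'' z' hz' hzS'
    set b : ℂ := (Jm (tr e c' c) z).det ^ m * a / (Jm (tr e c'' c) z').det ^ m with hb
    have h1 : ∀ i, s i c (tr e c' c z) = b * s i c (tr e c'' c z') := by
      intro i
      rw [(hs i).compat c' c z hd, (hs i).compat c'' c z' hd', ha i, hb]
      have := hpow hd'
      field_simp
    have hb0 : b ≠ 0 := by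
      intro h
      apply (hOsub hy).2.2.1
      rw [h1 0, h, zero_mul]
    have h2 : g (tr e c' c z) = g (tr e c'' c z') := by
      funext i
      simp only [hg]
      rw [h1 i.succ, h1 0, mul_div_mul_left _ _ hb0]
    have h3 := hNinj (hOsub hy).1 (hOsub hy').1 h2
    rw [← symm_tr hd, h3, symm_tr hd']

end Main

end Pool.Agent.KRFKo
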