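import Pool.Agent.Work.MP_a2bf38_gt.Ko.PoleA
import Pool.Agent.Work.MP_a2bf38_gt.Ko.Defs

/-!
# B5: functions with a logarithmic pole
-/

open scoped ContDiff Topology
open Set Filter Pool.Agent.ToricKRF Pool.Agent.ToricKRF.G Pool.Agent.KRFS Pool.Agent.KRFQ

namespace Pool.Agent.KRFKo

variable {M : Type} [TopologicalSpace M] [T2Space M] {n : ℕ} {κ : Type}
  {e : κ → OpenPartialHomeomorph M (Cn n)} {V : Set M} {w g : κ → Cn n → ℝ}

theorem exists_pole_of (h0 : L2D e V w (kf w)) {b C : ℝ} (hb : 0 < b) (hb1 : b ≤ 1) (hC : 0 ≤ C)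
    {C₁ : ℝ} (hC₁ : 0 ≤ C₁)
    (hl : ∀ (z₀ : Cn n) (ε : ℝ), 0 < ε → ∀ u z, -(C₁ * nsq u) ≤ levz (poleL (b / 2) b z₀ ε) u z)
    {p : M} {c : κ} (hc : GoodChart e (kf w) b C p c) :
    IsPole e V w ((n + 2) * (C₁ * C)) p c fun ε x => (n + 2) * poleM e b c p ε x where
  mem := hc.1
  smooth := fun ε hε c' => contDiffOn_const.mul (poleM_smooth h0 hb hc hε c')
  lev := fun ε hε _ c' z hz v => by
    have h1 := levz_poleM h0 hb hC hC₁ hl hc hε c' hz v
    have h2 : pb e c' (fun x => ((n : ℝ) + 2) * poleM e b c p ε x) =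
        fun x => ((n : ℝ) + 2) * pb e c' (poleM e b c p ε) x := rfl
    rw [h2, Bd.levz_const_mul _ (((poleM_smooth h0 hb hc hε c').contDiffAt
      ((e c').open_target.mem_nhds hz)).of_le two_le_infty)]
    have h3 : (0 : ℝ) ≤ (n : ℝ) + 2 := by positivity
    have h4 := mul_le_mul_of_nonneg_left h1 h3
    linarith
  le := fun ε hε _ x => by
    have h1 := poleM_nonpos (e := e) hb hb1 c p hε x
    have h2 : ((n : ℝ) + 2) * poleM e b c p ε x ≤ 0 :=
      mul_nonpos_of_nonneg_of_nonpos (by positivity) h1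
    refine h2.trans ?_
    positivity
  near := by
    refine ⟨b, -((n + 2) * Real.log (b / 2)), hb, fun ε hε _ z hz => ?_⟩
    have hz' := (hc.2 z hz.le).1
    refine ⟨hz', ?_⟩
    have h1 : pb e c (fun x => ((n : ℝ) + 2) * poleM e b c p ε x) z =
        ((n : ℝ) + 2) * poleL (b / 2) b (e c p) ε z := by
      rw [← pb_poleM hz']
      rfl
    rw [h1]
    have hs := arg_pos (e c p) z hε
    have h2 : poleL (b / 2) b (e c p) ε z ≤ Real.log (nsq (z - e c p) + ε ^ 2) -
        Real.log (b / 2) := by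
      unfold poleL
      rcases le_or_gt (nsq (z - e c p) + ε ^ 2) (b / 2) with h | h
      · rw [cutlog_of_le (by linarith) h]
        have := Real.log_nonpos (by positivity : (0 : ℝ) ≤ b / 2) (by linarith)
        linarith
      · refine (cutlog_nonpos (by linarith) hb1 hs).trans ?_
        rw [sub_nonneg]
        exact Real.log_le_log (by positivity) h.le
    have h3 : (0 : ℝ) ≤ (n : ℝ) + 2 := by positivity
    have h4 := mul_le_mul_of_nonneg_left h2 h3
    linarith
  away := by
    intro S hS hpS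
    have h1 : ∀ᶠ z in 𝓝 (e c p), z ∈ (e c).target ∧ (e c).symm z ∈ S := by
      have h2 : (e c).symm (e c p) ∈ S := by rwa [(e c).left_inv hc.1]
      have h3 := ((e c).symm.continuousAt ((e c).map_source hc.1)).eventually (hS.mem_nhds h2)
      filter_upwards [(e c).open_target.mem_nhds ((e c).map_source hc.1), h3] with z hz hz'
      exact ⟨hz, hz'⟩
    obtain ⟨ρ, hρ, hball⟩ := Metric.eventually_nhds_iff.1 h1
    refine ⟨-((n + 2) * min (Real.log (ρ ^ 2)) 0), fun ε hε _ x _ hx => ?_⟩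
    rw [neg_neg]
    refine mul_le_mul_of_nonneg_left ?_ (by positivity)
    by_cases hxs : x ∈ (e c).source
    · rw [poleM_of_mem hxs]
      have h2 : ρ ^ 2 ≤ nsq (e c x - e c p) + ε ^ 2 := by
        by_contra hlt
        push Not at hlt
        have h3 : nsq (e c x - e c p) < ρ ^ 2 := by
          have := sq_nonneg ε
          linarith
        have h4 : dist (e c x) (e c p) < ρ := by
          rw [dist_eq_norm]
          exact lt_of_pow_lt_pow_left₀ 2 hρ.le
            (lt_of_le_of_lt (Pool.Agent.KRFX.GA.norm_sq_le _) h3)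
        have h5 := (hball h4).2
        rw [(e c).left_inv hxs] at h5
        exact hx h5
      have hs := arg_pos (e c p) (e c x) hε
      rcases le_or_gt (nsq (e c x - e c p) + ε ^ 2) 1 with h | h
      · refine (min_le_left _ _).trans ?_
        exact (Real.log_le_log (by positivity) h2).trans (log_le_cutlog hs h)
      · refine (min_le_right _ _).trans ?_
        unfold poleL
        rw [cutlog_of_ge (by linarith) (hb1.trans h.le)]
    · rw [poleM_of_notMem hxs]
      exact min_le_right _ _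

/-- B5 -/
theorem exists_pole (h0 : L2D e V w (kf w)) {K : Set M} (hK : IsCompact K) (hKV : K ⊆ V) :
    ∃ C : ℝ, 0 ≤ C ∧ ∀ p ∈ K, ∃ c W, IsPole e V w C p c W := by
  obtain ⟨b, C, hb, hb1, hC, h⟩ := L2D.goodChart h0 hK hKV
  obtain ⟨C₁, hC₁, hl⟩ := exists_levz_poleL n (a := b / 2) (b := b) (by positivity) (by linarith)
  refine ⟨(n + 2) * (C₁ * C), by positivity, fun p hp => ?_⟩
  obtain ⟨c, hc⟩ := h p hp
  exact ⟨c, _, exists_pole_of h0 hb hb1 hC hC₁ hl hc⟩

end Pool.Agent.KRFKo
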