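import Pool.Agent.Work.MP_a2bf38_gt.Ko.EmbSet
import Pool.Agent.Work.MP_a2bf38_gt.Ko.Pole
import Pool.Agent.Work.MP_a2bf38_gt.Ko.Jets
import Pool.Agent.Work.MP_a2bf38_gt.Ko.Local

/-!
# Sections that embed a compact set
-/

open scoped ContDiff Topology
open Set MeasureTheory Filter Pool.Agent.ToricKRF Pool.Agent.ToricKRF.G Pool.Agent.KRFS
  Pool.Agent.KRFF Pool.Agent.KRFQ Pool.Agent.KRFZ

namespace Pool.Agent.KRFKo

variable {M : Type} [TopologicalSpace M] [T2Space M] {n : ℕ} {κ : Type}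
  {e : κ → OpenPartialHomeomorph M (Cn n)} {V : Set M} {w : κ → Cn n → ℝ}

theorem exists_embed (h0 : L2D e V w (kf w)) (hsec : HasSec e w) {K : Set M}
    (hK : IsCompact K) (hKV : K ⊆ V) :
    ∃ (m L : ℕ) (s : Fin (L + 1) → κ → Cn n → ℂ), IsEmbK e K m s := by
  obtain ⟨C, hC, H⟩ := exists_pole h0 hK hKV
  obtain ⟨m, hm⟩ := exists_nat_ge (2 * C + 1)
  obtain ⟨L, s, hs⟩ := exists_embed_of (e := e) (m := m) hK (fun p c => ∃ W, IsPole e V w C p c W) H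
    (fun p c ⟨W, hW⟩ => hW.mem)
    (fun p c p' c' ⟨W, hW⟩ ⟨W', hW'⟩ a₀ a δ hδ => exists_jet h0 hsec hW hW' hm a₀ a hδ)
    (fun p c hp hj => exists_local h0 hp hj)
  exact ⟨m, L, s, hs⟩

end Pool.Agent.KRFKo
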