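import Pool.Agent.Work.MP_a2bf38_gt.Ko.FourierA
import Pool.Agent.Work.MP_a2bf38_gt.Ko.Defs

/-!
# The fibres of the canonical bundle: Laurent coefficients and the weight
-/

open scoped ContDiff Topology ENNReal
open Set MeasureTheory Filter Real Pool.Agent.ToricKRF Pool.Agent.ToricKRF.G Pool.Agent.KRFS
  Pool.Agent.KRFF Pool.Agent.KRFQ Pool.Agent.KRFZ

namespace Pool.Agent.KRFKo

theorem cm_eq_lc (m : ℕ) (b : ℂ → ℂ) : cm m b = lc m b := by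
  rw [cm, lc, circleAverage_eq_circleIntegral one_ne_zero, smul_eq_mul]
  congr 1
  refine circleIntegral.integral_congr zero_le_one fun t ht => ?_
  have ht0 : t ≠ 0 := by
    rintro rfl
    simp at ht
  have h1 : t ^ (-(m + 1 : ℤ)) = t⁻¹ * (t ^ m)⁻¹ := by
    rw [zpow_neg, ← mul_inv, mul_comm]
    exact_mod_cast congrArg (·⁻¹) (pow_succ t m)
  simp only [h1, sub_zero, smul_eq_mul, mul_assoc]

/-- the weight on a fibre -/
noncomputable def fw (m : ℕ) (t : ℝ) (ξ : ℂ) : ℝ :=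
  Real.exp (-(m * (Real.log (‖ξ‖ ^ 2) - Real.log t) +
    2 * Real.log (1 + Real.exp (Real.log (‖ξ‖ ^ 2) - Real.log t))))

/-- the weight in terms of `|ξ|^2 / t` -/
theorem fw_eq {m : ℕ} {t : ℝ} (ht : 0 < t) {ξ : ℂ} (hξ : ξ ≠ 0) :
    fw m t ξ = (t / ‖ξ‖ ^ 2) ^ m * ((1 + ‖ξ‖ ^ 2 / t) ^ 2)⁻¹ := by
  have hn : 0 < ‖ξ‖ ^ 2 := by positivity
  have h1 : Real.log (‖ξ‖ ^ 2) - Real.log t = Real.log (‖ξ‖ ^ 2 / t) :=
    (Real.log_div hn.ne' ht.ne').symm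
  have h2 : 0 < ‖ξ‖ ^ 2 / t := by positivity
  have h3 : (0 : ℝ) < 1 + ‖ξ‖ ^ 2 / t := by positivity
  rw [fw, h1, Real.exp_log h2, neg_add, Real.exp_add]
  congr 1
  · rw [← mul_neg, ← Real.log_inv, mul_comm, Real.exp_mul, Real.exp_log (by positivity),
      Real.rpow_natCast, inv_div]
  · rw [← mul_neg, ← Real.log_inv, mul_comm, Real.exp_mul, Real.exp_log (by positivity)]
    norm_cast
    rw [inv_pow]

theorem lintegral_congr_ne {f g : ℂ → ℝ≥0∞} (h : ∀ ξ : ℂ, ξ ≠ 0 → f ξ = g ξ) :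
    ∫⁻ ξ : ℂ, f ξ = ∫⁻ ξ : ℂ, g ξ := by
  refine lintegral_congr_ae ?_
  have h1 : ∀ᵐ ξ : ℂ, ξ ≠ 0 := by
    rw [ae_iff]
    simp
  filter_upwards [h1] with ξ hξ using h ξ hξ

/-- B3a (polar coordinates, Cauchy-Schwarz on every circle) -/
theorem fibre_le {b : ℂ → ℂ} (hb : DifferentiableOn ℂ b {0}ᶜ) (m : ℕ) (a : ℂ) {t : ℝ}
    (ht : 0 < t) :
    ENNReal.ofReal (Real.pi * t ^ (m + 1) * ‖a - cm m b‖ ^ 2) ≤
      ∫⁻ ξ : ℂ, ENNReal.ofReal (‖a * ξ ^ m - b ξ‖ ^ 2 * fw m t ξ) := by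
  rw [cm_eq_lc]
  refine (le_lintegral (m := m) hb a ht).trans_eq (lintegral_congr_ne fun ξ hξ => ?_)
  rw [fw_eq ht hξ, mul_assoc]

/-- B3a -/
theorem fibre_eq (m : ℕ) {t : ℝ} (ht : 0 < t) :
    ∫⁻ ξ : ℂ, ENNReal.ofReal (‖ξ‖ ^ (2 * m) * fw m t ξ) =
      ENNReal.ofReal (Real.pi * t ^ (m + 1)) := by
  have h1 := lintegral_eq_mul (m := m) (w := t) (B := 1) ht zero_le_one
  rw [mul_one] at h1
  rw [← h1]
  refine lintegral_congr_ne fun ξ hξ => ?_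
  rw [fw_eq ht hξ, one_mul, mul_assoc]

/-- the rotation and dilation by `δ` -/
theorem lc_comp_mul {m : ℕ} {F : ℂ → ℂ} (hF : DifferentiableOn ℂ F {0}ᶜ) {δ : ℂ} (hδ : δ ≠ 0) :
    lc m (fun ζ => F (δ * ζ)) = δ ^ m * lc m F := by
  have hρ : 0 < ‖δ‖ := norm_pos_iff.2 hδ
  have h0 : lc m F = (2 * π)⁻¹ • ∫ θ in (0 : ℝ)..2 * π,
      ((circleMap 0 ‖δ‖ (θ + Complex.arg δ)) ^ m)⁻¹ * F (circleMap 0 ‖δ‖ (θ + Complex.arg δ)) := by
    rw [← circleAverage_eq_lc hF hρ]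
    exact circleAverage_eq_integral_add (Complex.arg δ)
  have h3 : ∫ θ in (0 : ℝ)..2 * π, ((circleMap 0 1 θ) ^ m)⁻¹ * F (δ * circleMap 0 1 θ) =
      δ ^ m * ∫ θ in (0 : ℝ)..2 * π,
        ((circleMap 0 ‖δ‖ (θ + Complex.arg δ)) ^ m)⁻¹ * F (circleMap 0 ‖δ‖ (θ + Complex.arg δ)) := by
    rw [← intervalIntegral.integral_const_mul]
    refine intervalIntegral.integral_congr fun θ _ => ?_
    have h1 : circleMap 0 ‖δ‖ (θ + Complex.arg δ) = δ * circleMap 0 1 θ := by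
      have h2 : (‖δ‖ : ℂ) * Complex.exp (Complex.arg δ * Complex.I) = δ :=
        Complex.norm_mul_exp_arg_mul_I δ
      simp only [circleMap, zero_add, Complex.ofReal_one, one_mul]
      push_cast
      rw [add_mul, Complex.exp_add]
      linear_combination Complex.exp (θ * Complex.I) * h2
    have h2 := circleMap_ne one_pos θ
    simp only [h1]
    generalize circleMap 0 1 θ = t at h2
    rw [mul_pow]
    field_simp
  rw [h0, lc, circleAverage_def, h3, mul_smul_comm]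

/-- B3a -/
theorem cm_mul {b : ℂ → ℂ} (hb : DifferentiableOn ℂ b {0}ᶜ) (m : ℕ) {a : ℂ} (ha : a ≠ 0) :
    cm m (fun ξ => b (a * ξ)) = a ^ m * cm m b := by
  rw [cm_eq_lc, cm_eq_lc, lc_comp_mul hb ha]

end Pool.Agent.KRFKo
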