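import Pool.Agent.Work.MP_a2bf38_gt.Ko.Defs
import Pool.Agent.Work.MP_a2bf38_gt.Lj.RootsA
import Pool.Agent.Work.MP_a2bf38_gt.Lj.Global

/-!
# The Laurent coefficients of a holomorphic function on the canonical bundle are holomorphic
-/

open scoped ContDiff Topology
open Set MeasureTheory Filter Pool.Agent.ToricKRF Pool.Agent.ToricKRF.G Pool.Agent.KRFS
  Pool.Agent.KRFF Pool.Agent.KRFQ Pool.Agent.KRFZ

namespace Pool.Agent.KRFKo

namespace Four

variable {n : ℕ}

/-- `(ξ, w)` as a vector with `n + 1` entries -/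
noncomputable def cs (n : ℕ) : ℂ × (Fin n → ℂ) →L[ℂ] (Fin (n + 1) → ℂ) :=
  ContinuousLinearMap.pi fun i => Fin.cases (ContinuousLinearMap.fst ℂ ℂ (Fin n → ℂ))
    (fun j => (ContinuousLinearMap.proj j).comp (ContinuousLinearMap.snd ℂ ℂ (Fin n → ℂ))) i

theorem iot_cs (ξ : ℂ) (w : Fin n → ℂ) : KRFLj.iot (n + 1) (cs n (ξ, w)) = jn ξ (KRFLj.iot n w) := by
  refine Prod.ext ?_ ?_ <;> funext i <;> refine Fin.cases ?_ (fun j => ?_) i <;>
    simp [cs, jn, KRFLj.iot]

/-- the complex coordinates of the point `x` on the zero section -/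
noncomputable def zc (n : ℕ) : Cn n →L[ℝ] ℂ × (Fin n → ℂ) :=
  (0 : Cn n →L[ℝ] ℂ).prod (ContinuousLinearMap.pi fun k => KRFQ.ccL k)

theorem zc_apply (x : Cn n) : zc n x = (0, KRFLj.ccv x) := rfl

theorem zc_J (x : Cn n) : zc n (J x) = Complex.I • zc n x := by
  refine Prod.ext (by simp [zc_apply]) ?_
  funext k
  apply Complex.ext <;> simp [zc_apply, KRFLj.ccv, cc, J]

theorem isOpen_dom {U : Set (Cn n)} (hU : IsOpen U) :
    IsOpen {y : Cn (n + 1) | tl y ∈ U ∧ hd y ≠ 0} :=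
  (hU.preimage contDiff_tl.continuous).inter
    (isOpen_compl_singleton.preimage contDiff_hd.continuous)

theorem differentiableAt_cs {b : Cn (n + 1) → ℂ} {U : Set (Cn n)} (hU : IsOpen U)
    (hb : NF.HolC b {y : Cn (n + 1) | tl y ∈ U ∧ hd y ≠ 0}) {q : ℂ × (Fin n → ℂ)}
    (h0 : q.1 ≠ 0) (h1 : KRFLj.iot n q.2 ∈ U) :
    DifferentiableAt ℂ (fun q : ℂ × (Fin n → ℂ) => b (jn q.1 (KRFLj.iot n q.2))) q := by
  have h2 := KRFLj.differentiableAt_of_holC (isOpen_dom hU) hb 0 (cs n) (w := q) (by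
    rw [zero_add]
    change KRFLj.iot (n + 1) (cs n (q.1, q.2)) ∈ _
    rw [iot_cs]
    exact ⟨by simpa using h1, by simpa using h0⟩)
  refine h2.congr_of_eventuallyEq (Eventually.of_forall fun q => ?_)
  simp only [zero_add]
  rw [← iot_cs]

end Four

open Four in
/-- B3b -/
theorem holC_cm {n : ℕ} {b : Cn (n + 1) → ℂ} {U : Set (Cn n)} (hU : IsOpen U)
    (hb : ContDiffOn ℝ ∞ b {y | tl y ∈ U ∧ hd y ≠ 0})
    (hb' : ∀ k, ∀ y, tl y ∈ U → hd y ≠ 0 → dzb k b y = 0) (m : ℕ) :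
    NF.HolC (fun x => cm m fun ξ => b (jn ξ x)) U ∧
      ∀ x ∈ U, DifferentiableOn ℂ (fun ξ => b (jn ξ x)) {0}ᶜ := by
  have hh : NF.HolC b {y : Cn (n + 1) | tl y ∈ U ∧ hd y ≠ 0} :=
    ⟨hb, fun y hy u => fderiv_J_of_dzb (fun k => hb' k y hy.1 hy.2) u⟩
  constructor
  · -- the set of the parameters
    set A : Set (ℂ × (Fin n → ℂ)) := {q | ‖q.1‖ < 1 ∧ KRFLj.iot n q.2 ∈ U} with hA
    set S : Set (ℂ × (Fin n → ℂ)) := {q | q.1 ≠ 0 ∧ KRFLj.iot n q.2 ∈ U} with hS
    have hAo : IsOpen A := by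
      refine IsOpen.inter ?_ (hU.preimage (by fun_prop))
      exact isOpen_lt (continuous_norm.comp continuous_fst) continuous_const
    have hSo : IsOpen S := by
      refine IsOpen.inter ?_ (hU.preimage (by fun_prop))
      exact isOpen_compl_singleton.preimage continuous_fst
    set Ψ : ℂ × (Fin n → ℂ) → ℂ := fun q => q.1 ^ (-(m + 1 : ℤ)) * b (jn q.1 (KRFLj.iot n q.2))
      with hΨ
    have hΨd : DifferentiableOn ℂ Ψ S := by
      intro q hq
      refine DifferentiableAt.differentiableWithinAt ?_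
      refine DifferentiableAt.mul ?_ (differentiableAt_cs hU hh hq.1 hq.2)
      exact differentiableAt_fst.zpow (Or.inl hq.1)
    have hG : DifferentiableOn ℂ (fun z => ∮ t in C(0, 1), Ψ (z + t • ((1 : ℂ), (0 : Fin n → ℂ)))) A := by
      refine KRFLj.differentiableOn_circle hSo hAo hΨd zero_le_one fun z hz t ht => ⟨?_, ?_⟩
      · intro h1
        have h2 : z.1 + t * 1 = 0 := h1
        rw [mul_one] at h2
        have h3 : ‖z.1‖ = 1 := by
          rw [eq_neg_of_add_eq_zero_left h2, norm_neg, ht]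
        exact absurd hz.1 (by rw [h3]; exact lt_irrefl 1)
      · have h1 : (z + t • ((1 : ℂ), (0 : Fin n → ℂ))).2 = z.2 := by simp
        rw [h1]
        exact hz.2
    set G : ℂ × (Fin n → ℂ) → ℂ := fun z => ∮ t in C(0, 1), Ψ (z + t • ((1 : ℂ), (0 : Fin n → ℂ)))
      with hGdef
    have hGc : ContDiffOn ℂ (∞ : WithTop ℕ∞) G A := SCV.contDiffOn_of_differentiableOn hAo hG (n := ⊤)
    have hmem : ∀ x ∈ U, zc n x ∈ A := by
      intro x hx
      rw [zc_apply]
      refine ⟨by simp, ?_⟩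
      simp only [KRFLj.iot_ccv]
      exact hx
    have heq : (fun x => cm m fun ξ => b (jn ξ x)) =
        fun x => (2 * Real.pi * Complex.I)⁻¹ * G (zc n x) := by
      funext x
      rw [cm, hGdef]
      congr 1
      simp only [hΨ, zc_apply, Prod.smul_mk, smul_eq_mul, mul_one, smul_zero, Prod.mk_add_mk,
        zero_add, add_zero, KRFLj.iot_ccv]
    rw [heq]
    refine ⟨?_, ?_⟩
    · refine contDiffOn_const.mul ?_
      exact (hGc.restrict_scalars ℝ).comp (zc n).contDiff.contDiffOn fun x hx => hmem x hx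
    · intro x hx u
      have h1 : HasFDerivAt G (fderiv ℂ G (zc n x)) (zc n x) :=
        (hG.differentiableAt (hAo.mem_nhds (hmem x hx))).hasFDerivAt
      have h2 : HasFDerivAt (fun x => G (zc n x))
          (((fderiv ℂ G (zc n x)).restrictScalars ℝ).comp (zc n)) x :=
        (h1.restrictScalars ℝ).comp x (zc n).hasFDerivAt
      have h3 := h2.const_mul ((2 * Real.pi * Complex.I)⁻¹ : ℂ)
      rw [h3.fderiv]
      simp only [smul_apply, ContinuousLinearMap.comp_apply,
        ContinuousLinearMap.coe_restrictScalars', zc_J, map_smul, smul_eq_mul]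
      ring
  · intro x hx ξ hξ
    refine DifferentiableAt.differentiableWithinAt ?_
    have h1 := differentiableAt_cs (q := (ξ, KRFLj.ccv x)) hU hh hξ (by
      rw [KRFLj.iot_ccv]
      exact hx)
    have h2 : DifferentiableAt ℂ (fun ξ : ℂ => ((ξ, KRFLj.ccv x) : ℂ × (Fin n → ℂ))) ξ :=
      differentiableAt_id.prodMk (differentiableAt_const _)
    have h3 := h1.comp ξ h2
    refine h3.congr_of_eventuallyEq (Eventually.of_forall fun ξ' => ?_)
    simp only [Function.comp_apply, KRFLj.iot_ccv]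

end Pool.Agent.KRFKo
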