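import Pool.Agent.Work.MP_a2bf38_gt.Lj.RootsA

/-!
# Fourier coefficients on the circles of the punctured plane

`lc m F` is the coefficient of `ξ ^ m` in the Laurent expansion of the holomorphic function `F` on
`ℂ - 0`.
-/

open MeasureTheory Set Metric Real Topology Filter
open scoped ENNReal

namespace Pool.Agent.KRFKo

/-- the coefficient of `ξ ^ m` -/
noncomputable def lc (m : ℕ) (F : ℂ → ℂ) : ℂ := circleAverage (fun t => (t ^ m)⁻¹ * F t) 0 1

theorem differentiableOn_mul_inv {m : ℕ} {F : ℂ → ℂ} (hF : DifferentiableOn ℂ F {0}ᶜ) :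
    DifferentiableOn ℂ (fun t => (t ^ m)⁻¹ * F t) {0}ᶜ :=
  ((differentiableOn_pow m).inv fun _ ht => pow_ne_zero _ ht).mul hF

/-- the circle mean does not depend on the radius -/
theorem circleAverage_eq_lc {m : ℕ} {F : ℂ → ℂ} (hF : DifferentiableOn ℂ F {0}ᶜ) {R : ℝ}
    (hR : 0 < R) : circleAverage (fun t => (t ^ m)⁻¹ * F t) 0 R = lc m F := by
  have hd := differentiableOn_mul_inv (m := m) hF
  have key : ∀ r R' : ℝ, 0 < r → r ≤ R' →
      circleAverage (fun t => (t ^ m)⁻¹ * F t) 0 R' =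
        circleAverage (fun t => (t ^ m)⁻¹ * F t) 0 r := by
    intro r R' hr hR'
    rw [circleAverage_eq_circleIntegral (hr.trans_le hR').ne',
      circleAverage_eq_circleIntegral hr.ne']
    congr 1
    refine Complex.circleIntegral_sub_center_inv_smul_eq_of_differentiable_on_annulus_off_countable
      hr hR' countable_empty ?_ ?_
    · refine hd.continuousOn.mono fun z hz => ?_
      intro h0
      apply hz.2
      rw [mem_singleton_iff.1 h0]
      exact mem_ball_self hr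
    · intro z hz
      refine (hd z ?_).differentiableAt (isOpen_compl_singleton.mem_nhds ?_) <;>
      · intro h0
        apply hz.1.2
        rw [mem_singleton_iff.1 h0]
        exact mem_closedBall_self hr.le
  rw [lc]
  rcases le_total R 1 with h | h
  · exact (key R 1 hR h).symm
  · exact key 1 R one_pos h

theorem circleMap_ne {R : ℝ} (hR : 0 < R) (θ : ℝ) : circleMap 0 R θ ≠ 0 := circleMap_ne_center hR.ne'

theorem continuous_comp_circle {F : ℂ → ℂ} (hF : ContinuousOn F {0}ᶜ) {R : ℝ} (hR : 0 < R) :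
    Continuous fun θ : ℝ => F (circleMap 0 R θ) :=
  hF.comp_continuous (continuous_circleMap 0 R) fun θ => circleMap_ne hR θ

/-- the circle mean of `u - ξ ^ (-m) F` -/
theorem circleAverage_sub {m : ℕ} {F : ℂ → ℂ} (hF : DifferentiableOn ℂ F {0}ᶜ) {R : ℝ}
    (hR : 0 < R) (u : ℂ) : circleAverage (fun t => u - (t ^ m)⁻¹ * F t) 0 R = u - lc m F := by
  have hd := differentiableOn_mul_inv (m := m) hF
  rw [← circleAverage_eq_lc hF hR, circleAverage_def, circleAverage_def]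
  have h1 : IntervalIntegrable (fun θ : ℝ => (fun t : ℂ => (t ^ m)⁻¹ * F t) (circleMap 0 R θ)) volume 0 (2 * π) :=
    (continuous_comp_circle hd.continuousOn hR).intervalIntegrable _ _
  rw [intervalIntegral.integral_sub intervalIntegrable_const h1, smul_sub]
  congr 1
  rw [intervalIntegral.integral_const, sub_zero, smul_smul, inv_mul_cancel₀ (by positivity), one_smul]

/-- Jensen's inequality on the circle -/
theorem norm_sub_lc_sq_le {m : ℕ} {F : ℂ → ℂ} (hF : DifferentiableOn ℂ F {0}ᶜ) {R : ℝ}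
    (hR : 0 < R) (u : ℂ) : 2 * π * ‖u - lc m F‖ ^ 2 ≤
      ∫ θ in (0 : ℝ)..2 * π, ‖u - ((circleMap 0 R θ) ^ m)⁻¹ * F (circleMap 0 R θ)‖ ^ 2 := by
  have hd := differentiableOn_mul_inv (m := m) hF
  set g : ℝ → ℂ := fun θ => u - ((circleMap 0 R θ) ^ m)⁻¹ * F (circleMap 0 R θ) with hg
  have hgc : Continuous g := continuous_const.sub (continuous_comp_circle hd.continuousOn hR)
  have h1 : ∫ θ in (0 : ℝ)..2 * π, g θ = (2 * π) • (u - lc m F) := by
    have := circleAverage_sub (m := m) hF hR u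
    rw [circleAverage_def] at this
    rw [← this, smul_smul, mul_inv_cancel₀ (by positivity), one_smul]
  set a : ℝ := ‖u - lc m F‖ with ha
  have h2 : 2 * π * a ≤ ∫ θ in (0 : ℝ)..2 * π, ‖g θ‖ := by
    have := intervalIntegral.norm_integral_le_integral_norm (f := g) (μ := volume)
      (a := 0) (b := 2 * π) (by positivity)
    rw [h1, norm_smul, Real.norm_eq_abs, abs_of_pos (by positivity)] at this
    exact this
  have h3 : ∫ θ in (0 : ℝ)..2 * π, (2 * a * ‖g θ‖ - a ^ 2) ≤ ∫ θ in (0 : ℝ)..2 * π, ‖g θ‖ ^ 2 := by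
    refine intervalIntegral.integral_mono_on (by positivity) ?_ ?_ fun θ _ => ?_
    · exact (by fun_prop : Continuous fun θ => 2 * a * ‖g θ‖ - a ^ 2).intervalIntegrable _ _
    · exact (by fun_prop : Continuous fun θ => ‖g θ‖ ^ 2).intervalIntegrable _ _
    · nlinarith [sq_nonneg (‖g θ‖ - a)]
  rw [intervalIntegral.integral_sub
    ((by fun_prop : Continuous fun θ => 2 * a * ‖g θ‖).intervalIntegrable _ _)
    intervalIntegrable_const, intervalIntegral.integral_const_mul,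
    intervalIntegral.integral_const, sub_zero, smul_eq_mul] at h3
  have ha0 : 0 ≤ a := norm_nonneg _
  nlinarith [mul_le_mul_of_nonneg_left h2 ha0]

/-- the lower integral over `(-π, π)` is the integral over `(0, 2 π)` -/
theorem lintegral_Ioo_eq {g : ℂ → ℝ} (hg : ContinuousOn g {0}ᶜ) (hg0 : ∀ z, 0 ≤ g z) {R : ℝ}
    (hR : 0 < R) : ∫⁻ θ in Ioo (-π) π, ENNReal.ofReal (g (circleMap 0 R θ)) =
      ENNReal.ofReal (∫ θ in (0 : ℝ)..2 * π, g (circleMap 0 R θ)) := by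
  have hc : Continuous fun θ : ℝ => g (circleMap 0 R θ) :=
    hg.comp_continuous (continuous_circleMap 0 R) fun θ => circleMap_ne hR θ
  have hper : Function.Periodic (fun θ : ℝ => g (circleMap 0 R θ)) (2 * π) := by
    intro θ
    simp only [periodic_circleMap 0 R θ]
  have h1 := hper.intervalIntegral_add_eq 0 (-π)
  have h2 : -π + 2 * π = π := by ring
  rw [zero_add, h2] at h1
  rw [h1, intervalIntegral.integral_of_le (by linarith [pi_pos]), integral_Ioc_eq_integral_Ioo,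
    ofReal_integral_eq_lintegral_ofReal]
  · exact ((hc.integrableOn_Icc (a := -π) (b := π)).mono_set Ioo_subset_Icc_self)
  · exact Eventually.of_forall fun _ => hg0 _

theorem polar_symm (p : ℝ × ℝ) : Complex.polarCoord.symm p = circleMap 0 p.1 p.2 := by
  rw [Complex.polarCoord_symm_apply, circleMap, zero_add, Complex.exp_mul_I]
  push_cast
  ring

/-- polar coordinates -/
theorem lintegral_polar {f : ℂ → ℝ≥0∞} (hf : Measurable f) :
    ∫⁻ z, f z = ∫⁻ ρ in Ioi (0 : ℝ), ENNReal.ofReal ρ * ∫⁻ θ in Ioo (-π) π, f (circleMap 0 ρ θ) := by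
  rw [← Complex.lintegral_comp_polarCoord_symm f]
  have h1 : (polarCoord.target) = Ioi (0 : ℝ) ×ˢ Ioo (-π) π := rfl
  rw [h1, Measure.volume_eq_prod, ← Measure.prod_restrict, lintegral_prod]
  · refine lintegral_congr fun ρ => ?_
    rw [← lintegral_const_mul']
    · refine lintegral_congr fun θ => ?_
      rw [polar_symm, smul_eq_mul]
    · exact ENNReal.ofReal_ne_top
  · refine Measurable.aemeasurable ?_
    have : (fun p : ℝ × ℝ => ENNReal.ofReal p.1 • f (Complex.polarCoord.symm p)) =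
        fun p => ENNReal.ofReal p.1 * f (circleMap 0 p.1 p.2) := by
      funext p; rw [polar_symm, smul_eq_mul]
    rw [this]
    refine (ENNReal.measurable_ofReal.comp measurable_fst).mul (hf.comp ?_)
    have : Continuous fun p : ℝ × ℝ => circleMap 0 p.1 p.2 := by
      unfold circleMap
      fun_prop
    exact this.measurable

/-- the radial integral -/
theorem lintegral_radial {w : ℝ} (hw : 0 < w) :
    ∫⁻ ρ in Ioi (0 : ℝ), ENNReal.ofReal (ρ * ((1 + ρ ^ 2 / w) ^ 2)⁻¹) = ENNReal.ofReal (w / 2) := by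
  have hpos : ∀ ρ : ℝ, 0 < 1 + ρ ^ 2 / w := fun ρ => by positivity
  have hd : ∀ ρ ∈ Ioi (0 : ℝ), HasDerivAt (fun ρ : ℝ => -(w / 2) * (1 + ρ ^ 2 / w)⁻¹)
      (ρ * ((1 + ρ ^ 2 / w) ^ 2)⁻¹) ρ := by
    intro ρ _
    have h1 : HasDerivAt (fun ρ : ℝ => 1 + ρ ^ 2 / w) (2 * ρ / w) ρ := by
      have := ((hasDerivAt_pow 2 ρ).div_const w).const_add 1
      simpa using this
    have h2 := (h1.inv (hpos ρ).ne').const_mul (-(w / 2))
    have h3 : -(w / 2) * (-(2 * ρ / w) / (1 + ρ ^ 2 / w) ^ 2) = ρ * ((1 + ρ ^ 2 / w) ^ 2)⁻¹ := by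
      rw [div_eq_mul_inv (-(2 * ρ / w)), ← mul_assoc]
      congr 1
      field_simp
    rw [← h3]
    exact h2
  have hc : ContinuousWithinAt (fun ρ : ℝ => -(w / 2) * (1 + ρ ^ 2 / w)⁻¹) (Ici 0) 0 := by
    have : Continuous fun ρ : ℝ => -(w / 2) * (1 + ρ ^ 2 / w)⁻¹ :=
      continuous_const.mul (Continuous.inv₀ (by fun_prop) fun ρ => (hpos ρ).ne')
    exact this.continuousWithinAt
  have ht : Tendsto (fun ρ : ℝ => -(w / 2) * (1 + ρ ^ 2 / w)⁻¹) atTop (𝓝 0) := by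
    have h1 : Tendsto (fun ρ : ℝ => 1 + ρ ^ 2 / w) atTop atTop := by
      refine tendsto_atTop_add_const_left _ _ ?_
      exact (tendsto_pow_atTop two_ne_zero).atTop_div_const hw
    have := (tendsto_inv_atTop_zero.comp h1).const_mul (-(w / 2))
    simpa using this
  have hn : ∀ ρ ∈ Ioi (0 : ℝ), 0 ≤ ρ * ((1 + ρ ^ 2 / w) ^ 2)⁻¹ := fun ρ hρ => by
    have : (0 : ℝ) < ρ := hρ
    positivity
  have h1 := integral_Ioi_of_hasDerivAt_of_nonneg hc hd hn ht
  have h2 := integrableOn_Ioi_deriv_of_nonneg hc hd hn ht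
  rw [← ofReal_integral_eq_lintegral_ofReal h2
    ((ae_restrict_iff' measurableSet_Ioi).2 (Eventually.of_forall hn)), h1]
  congr 1
  simp

/-- **The weighted integral over the punctured plane**, for a function `g` on the circles. -/
theorem lintegral_weight {w c : ℝ} (hw : 0 < w) :
    ∫⁻ ρ in Ioi (0 : ℝ), ENNReal.ofReal ρ *
      (ENNReal.ofReal ((1 + ρ ^ 2 / w) ^ 2)⁻¹ * ENNReal.ofReal (2 * π * c)) =
      ENNReal.ofReal (π * w * c) := by
  have h1 : ∀ ρ ∈ Ioi (0 : ℝ), ENNReal.ofReal ρ *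
      (ENNReal.ofReal ((1 + ρ ^ 2 / w) ^ 2)⁻¹ * ENNReal.ofReal (2 * π * c)) =
      ENNReal.ofReal (ρ * ((1 + ρ ^ 2 / w) ^ 2)⁻¹) * ENNReal.ofReal (2 * π * c) := by
    intro ρ hρ
    have : (0 : ℝ) < ρ := hρ
    rw [← mul_assoc, ← ENNReal.ofReal_mul this.le]
  rw [setLIntegral_congr_fun measurableSet_Ioi h1, lintegral_mul_const' _ _ ENNReal.ofReal_ne_top,
    lintegral_radial hw, ← ENNReal.ofReal_mul (by positivity)]
  congr 1
  ring

theorem measurable_of_diff {F : ℂ → ℂ} (hF : ContinuousOn F {0}ᶜ) : Measurable F :=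
  measurable_of_continuousOn_compl_singleton 0 hF

/-- **The component of degree `m`**: the square of the distance of `u` to the coefficient `lc m F`
is at most the weighted square integral of `u ξ ^ m - F`. -/
theorem le_lintegral {m : ℕ} {F : ℂ → ℂ} (hF : DifferentiableOn ℂ F {0}ᶜ) (u : ℂ) {w : ℝ}
    (hw : 0 < w) : ENNReal.ofReal (π * w ^ (m + 1) * ‖u - lc m F‖ ^ 2) ≤
      ∫⁻ ξ : ℂ, ENNReal.ofReal (‖u * ξ ^ m - F ξ‖ ^ 2 * (w / ‖ξ‖ ^ 2) ^ m *
        ((1 + ‖ξ‖ ^ 2 / w) ^ 2)⁻¹) := by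
  have hd := differentiableOn_mul_inv (m := m) hF
  have hmeas : Measurable fun ξ : ℂ => ENNReal.ofReal (‖u * ξ ^ m - F ξ‖ ^ 2 * (w / ‖ξ‖ ^ 2) ^ m *
        ((1 + ‖ξ‖ ^ 2 / w) ^ 2)⁻¹) := by
    have hFm := measurable_of_diff hF.continuousOn
    refine ENNReal.measurable_ofReal.comp ?_
    fun_prop
  rw [lintegral_polar hmeas]
  have h0 : ENNReal.ofReal (π * w ^ (m + 1) * ‖u - lc m F‖ ^ 2) =
      ∫⁻ ρ in Ioi (0 : ℝ), ENNReal.ofReal ρ * (ENNReal.ofReal ((1 + ρ ^ 2 / w) ^ 2)⁻¹ *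
        ENNReal.ofReal (2 * π * (w ^ m * ‖u - lc m F‖ ^ 2))) := by
    rw [lintegral_weight hw]
    congr 1
    ring
  rw [h0]
  refine setLIntegral_mono' measurableSet_Ioi fun ρ hρ => ?_
  have hρ0 : (0 : ℝ) < ρ := hρ
  refine mul_le_mul_right ?_ _
  have hg : ContinuousOn (fun t : ℂ => ‖u - (t ^ m)⁻¹ * F t‖ ^ 2) {0}ᶜ :=
    ((continuousOn_const.sub hd.continuousOn).norm).pow 2
  have h1 : ∀ θ : ℝ, ENNReal.ofReal (‖u * (circleMap 0 ρ θ) ^ m - F (circleMap 0 ρ θ)‖ ^ 2 *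
      (w / ‖circleMap 0 ρ θ‖ ^ 2) ^ m * ((1 + ‖circleMap 0 ρ θ‖ ^ 2 / w) ^ 2)⁻¹) =
      ENNReal.ofReal (w ^ m * ((1 + ρ ^ 2 / w) ^ 2)⁻¹) *
        ENNReal.ofReal (‖u - ((circleMap 0 ρ θ) ^ m)⁻¹ * F (circleMap 0 ρ θ)‖ ^ 2) := by
    intro θ
    have hne := circleMap_ne hρ0 θ
    have hn : ‖circleMap 0 ρ θ‖ = ρ := by rw [norm_circleMap_zero, abs_of_pos hρ0]
    generalize circleMap 0 ρ θ = t at hne hn
    rw [← ENNReal.ofReal_mul (by positivity)]
    congr 1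
    have h2 : ‖u - (t ^ m)⁻¹ * F t‖ = ‖u * t ^ m - F t‖ / ‖t‖ ^ m := by
      rw [← norm_pow, ← norm_div]
      congr 1
      field_simp
    rw [h2, hn, div_pow, div_pow, ← pow_mul, ← pow_mul]
    field_simp
    try ring
  calc ENNReal.ofReal ((1 + ρ ^ 2 / w) ^ 2)⁻¹ * ENNReal.ofReal (2 * π * (w ^ m * ‖u - lc m F‖ ^ 2))
      = ENNReal.ofReal (w ^ m * ((1 + ρ ^ 2 / w) ^ 2)⁻¹) *
          ENNReal.ofReal (2 * π * ‖u - lc m F‖ ^ 2) := by
        rw [← ENNReal.ofReal_mul (by positivity), ← ENNReal.ofReal_mul (by positivity)]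
        congr 1
        ring
    _ ≤ ENNReal.ofReal (w ^ m * ((1 + ρ ^ 2 / w) ^ 2)⁻¹) * ∫⁻ θ in Ioo (-π) π,
          ENNReal.ofReal (‖u - ((circleMap 0 ρ θ) ^ m)⁻¹ * F (circleMap 0 ρ θ)‖ ^ 2) := by
        refine mul_le_mul_right ?_ _
        rw [lintegral_Ioo_eq (g := fun t : ℂ => ‖u - (t ^ m)⁻¹ * F t‖ ^ 2) hg
          (fun _ => by positivity) hρ0]
        exact ENNReal.ofReal_le_ofReal (norm_sub_lc_sq_le hF hρ0 u)
    _ = _ := by
        rw [← lintegral_const_mul' _ _ ENNReal.ofReal_ne_top]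
        exact lintegral_congr fun θ => (h1 θ).symm

/-- the weighted integral of `B |ξ| ^ (2 m)` -/
theorem lintegral_eq_mul {m : ℕ} {w B : ℝ} (hw : 0 < w) (hB : 0 ≤ B) :
    ∫⁻ ξ : ℂ, ENNReal.ofReal (B * ‖ξ‖ ^ (2 * m) * (w / ‖ξ‖ ^ 2) ^ m * ((1 + ‖ξ‖ ^ 2 / w) ^ 2)⁻¹) =
      ENNReal.ofReal (π * w ^ (m + 1) * B) := by
  have hmeas : Measurable fun ξ : ℂ => ENNReal.ofReal (B * ‖ξ‖ ^ (2 * m) * (w / ‖ξ‖ ^ 2) ^ m *
      ((1 + ‖ξ‖ ^ 2 / w) ^ 2)⁻¹) := by
    refine ENNReal.measurable_ofReal.comp ?_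
    fun_prop
  rw [lintegral_polar hmeas]
  have h0 : ENNReal.ofReal (π * w ^ (m + 1) * B) =
      ∫⁻ ρ in Ioi (0 : ℝ), ENNReal.ofReal ρ * (ENNReal.ofReal ((1 + ρ ^ 2 / w) ^ 2)⁻¹ *
        ENNReal.ofReal (2 * π * (w ^ m * B))) := by
    rw [lintegral_weight hw]
    congr 1
    ring
  rw [h0]
  refine setLIntegral_congr_fun measurableSet_Ioi fun ρ hρ => ?_
  have hρ0 : (0 : ℝ) < ρ := hρ
  congr 1
  have h1 : ∀ θ : ℝ, ENNReal.ofReal (B * ‖circleMap 0 ρ θ‖ ^ (2 * m) *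
      (w / ‖circleMap 0 ρ θ‖ ^ 2) ^ m * ((1 + ‖circleMap 0 ρ θ‖ ^ 2 / w) ^ 2)⁻¹) =
      ENNReal.ofReal (w ^ m * B * ((1 + ρ ^ 2 / w) ^ 2)⁻¹) := by
    intro θ
    have hn : ‖circleMap 0 ρ θ‖ = ρ := by rw [norm_circleMap_zero, abs_of_pos hρ0]
    congr 1
    have h2 : ρ ^ (2 * m) * (w / ρ ^ 2) ^ m = w ^ m := by
      rw [pow_mul, ← mul_pow, mul_div_cancel₀ _ (by positivity : ρ ^ 2 ≠ 0)]
    rw [hn, mul_assoc B, h2]
    ring
  simp only [h1]
  rw [setLIntegral_const, Real.volume_Ioo, ← ENNReal.ofReal_mul (by positivity),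
    ← ENNReal.ofReal_mul (by positivity)]
  congr 1
  ring

end Pool.Agent.KRFKo
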