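import Pool.Agent.Work.MP_a2bf38_gt.Ko.Defs

/-!
# Fubini's theorem for the canonical bundle
-/

open scoped ContDiff Topology
open Set MeasureTheory Filter Pool.Agent.ToricKRF Pool.Agent.ToricKRF.G Pool.Agent.KRFS
  Pool.Agent.KRFF Pool.Agent.KRFQ

namespace Pool.Agent.KRFKo

variable {n : ℕ}

theorem mp_comm {α β γ δ : Type*} [MeasureSpace α] [MeasureSpace β] [MeasureSpace γ]
    [MeasureSpace δ] [SFinite (volume : Measure α)] [SFinite (volume : Measure β)]
    [SFinite (volume : Measure γ)] [SFinite (volume : Measure δ)] :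
    MeasurePreserving (fun p : (α × β) × (γ × δ) => ((p.1.1, p.2.1), (p.1.2, p.2.2))) volume
      volume := by
  have h1 : MeasurePreserving (MeasurableEquiv.prodAssoc : (α × β) × (γ × δ) ≃ᵐ _) volume volume :=
    volume_preserving_prodAssoc
  have h2 : MeasurePreserving (Prod.map id (MeasurableEquiv.prodAssoc : (β × γ) × δ ≃ᵐ _).symm :
      α × (β × (γ × δ)) → α × ((β × γ) × δ)) volume volume :=
    (MeasurePreserving.id volume).prod
      (MeasurePreserving.symm _ (volume_preserving_prodAssoc (α₁ := β) (β₁ := γ) (γ₁ := δ)))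
  have h3 : MeasurePreserving (Prod.map id (Prod.map Prod.swap id) :
      α × ((β × γ) × δ) → α × ((γ × β) × δ)) volume volume :=
    (MeasurePreserving.id volume).prod
      (Measure.measurePreserving_swap.prod (MeasurePreserving.id volume))
  have h4 : MeasurePreserving (Prod.map id (MeasurableEquiv.prodAssoc : (γ × β) × δ ≃ᵐ _) :
      α × ((γ × β) × δ) → α × (γ × (β × δ))) volume volume :=
    (MeasurePreserving.id volume).prod volume_preserving_prodAssoc
  have h5 : MeasurePreserving (MeasurableEquiv.prodAssoc : (α × γ) × (β × δ) ≃ᵐ _).symm volume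
      volume := MeasurePreserving.symm _ volume_preserving_prodAssoc
  exact h5.comp (h4.comp (h3.comp (h2.comp h1)))

/-- the splitting of the coordinates preserves the volume -/
theorem mp_hd_tl : MeasurePreserving (fun y : Cn (n + 1) => (hd y, tl y)) volume volume := by
  have h1 := volume_preserving_piFinSuccAbove (fun _ : Fin (n + 1) => ℝ) 0
  have h2 := (h1.prod h1)
  have h3 := mp_comm (α := ℝ) (β := Fin n → ℝ) (γ := ℝ) (δ := Fin n → ℝ)
  have h4 : MeasurePreserving (Complex.measurableEquivRealProd.symm) volume volume :=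
    MeasurePreserving.symm _ Complex.volume_preserving_equiv_real_prod
  have h5 := (h4.prod (MeasurePreserving.id (volume : Measure (Cn n)))).comp (h3.comp h2)
  have e : (fun y : Cn (n + 1) => (hd y, tl y)) =
      (Prod.map Complex.measurableEquivRealProd.symm id) ∘
        (fun p : (ℝ × (Fin n → ℝ)) × (ℝ × (Fin n → ℝ)) => ((p.1.1, p.2.1), (p.1.2, p.2.2))) ∘
          Prod.map (MeasurableEquiv.piFinSuccAbove (fun _ : Fin (n + 1) => ℝ) 0)
            (MeasurableEquiv.piFinSuccAbove (fun _ : Fin (n + 1) => ℝ) 0) := by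
    funext y
    simp only [Function.comp_apply, Prod.map_apply, id_eq]
    rfl
  rw [e]
  exact h5

theorem measurableEmbedding_hd_tl :
    MeasurableEmbedding (fun y : Cn (n + 1) => (hd y, tl y)) := by
  refine Measurable.measurableEmbedding mp_hd_tl.measurable fun y y' h => ?_
  rw [Prod.mk.injEq] at h
  rw [← jn_hd_tl y, ← jn_hd_tl y', h.1, h.2]

/-- B3c: Fubini -/
theorem lintegral_jn {A : Set (Cn n)} (hA : MeasurableSet A) {F : Cn (n + 1) → ENNReal}
    (hF : AEMeasurable F (volume.restrict {y | tl y ∈ A})) :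
    ∫⁻ y in {y | tl y ∈ A}, F y = ∫⁻ x in A, ∫⁻ ξ : ℂ, F (jn ξ x) := by
  set T : Cn (n + 1) → ℂ × Cn n := fun y => (hd y, tl y) with hT
  set G : ℂ × Cn n → ENNReal := fun p => F (jn p.1 p.2) with hG
  have hs : MeasurableSet ((univ : Set ℂ) ×ˢ A) := MeasurableSet.univ.prod hA
  have hpre : T ⁻¹' ((univ : Set ℂ) ×ˢ A) = {y | tl y ∈ A} := by
    ext y
    simp [hT]
  have hm : MeasurePreserving T (volume.restrict {y | tl y ∈ A})
      (volume.restrict ((univ : Set ℂ) ×ˢ A)) := by
    rw [← hpre]
    exact mp_hd_tl.restrict_preimage hs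
  have hFG : F = G ∘ T := by
    funext y
    simp [hG, hT]
  have hGm : AEMeasurable G (volume.restrict ((univ : Set ℂ) ×ˢ A)) := by
    rw [← hm.aemeasurable_comp_iff measurableEmbedding_hd_tl, ← hFG]
    exact hF
  have h1 : ∫⁻ y in {y | tl y ∈ A}, F y = ∫⁻ p in (univ : Set ℂ) ×ˢ A, G p := by
    rw [← hm.lintegral_comp_emb measurableEmbedding_hd_tl]
    exact lintegral_congr fun y => congrFun hFG y
  have h2 : (volume : Measure (ℂ × Cn n)).restrict ((univ : Set ℂ) ×ˢ A) =
      (volume : Measure ℂ).prod ((volume : Measure (Cn n)).restrict A) := by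
    rw [Measure.volume_eq_prod, ← Measure.prod_restrict, Measure.restrict_univ]
  rw [h1, h2] 
  rw [h2] at hGm
  exact lintegral_prod_symm _ hGm

end Pool.Agent.KRFKo
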