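import Pool.Agent.Work.MP_a2bf38_gt.H.BoundCalc

/-!
# The Levi form of `φ ∘ f` for a function `φ` of one real variable
-/

open scoped ContDiff Topology
open Set Filter Pool.Agent.ToricKRF Pool.Agent.ToricKRF.G Pool.Agent.KRFS

namespace Pool.Agent.KRFKo

section

variable {n : ℕ} {φ φ₁ φ₂ : ℝ → ℝ} {f : Cn n → ℝ} {S : Set (Cn n)}

theorem D_fcomp {r : ℝ} {z : Cn n} (hφ : HasDerivAt φ r (f z)) (hf : DifferentiableAt ℝ f z)
    (u : Cn n) : D u (fun x => φ (f x)) z = r * D u f z := by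
  have h1 := (hφ.comp_hasFDerivAt z hf.hasFDerivAt).fderiv
  unfold D
  change fderiv ℝ (φ ∘ f) z u = _
  rw [h1]
  simp

/-- `i ∂ ∂bar φ(f) = φ'(f) i ∂ ∂bar f + φ''(f) i ∂ f ∧ ∂bar f` -/
theorem levz_fcomp (hφ : ∀ x ∈ S, HasDerivAt φ (φ₁ (f x)) (f x))
    (hφ₁ : ∀ x ∈ S, HasDerivAt φ₁ (φ₂ (f x)) (f x)) (hS : IsOpen S) (hf : ContDiffOn ℝ ∞ f S)
    {z : Cn n} (hz : z ∈ S) (u : Cn n) :
    levz (fun x => φ (f x)) u z = φ₁ (f z) * levz f u z +
      φ₂ (f z) * ((D u f z ^ 2 + D (J u) f z ^ 2) / 4) := by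
  have hd : ∀ x ∈ S, DifferentiableAt ℝ f x := fun x hx =>
    (hf.differentiableOn (by simp)).differentiableAt (hS.mem_nhds hx)
  have hDd : ∀ v : Cn n, DifferentiableAt ℝ (D v f) z := by
    intro v
    have h1 : ContDiffOn ℝ ∞ (fderiv ℝ f) S :=
      ((contDiffOn_infty_iff_fderiv_of_isOpen hS).1 hf).2
    have h2 : DifferentiableAt ℝ (fderiv ℝ f) z :=
      (h1.differentiableOn (by simp)).differentiableAt (hS.mem_nhds hz)
    exact h2.clm_apply (differentiableAt_const v)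
  have key : ∀ v : Cn n, D v (D v (fun x => φ (f x))) z =
      φ₁ (f z) * D v (D v f) z + φ₂ (f z) * D v f z ^ 2 := by
    intro v
    have h1 : D v (fun x => φ (f x)) =ᶠ[𝓝 z] fun x => φ₁ (f x) * D v f x := by
      filter_upwards [hS.mem_nhds hz] with x hx
      exact D_fcomp (hφ x hx) (hd x hx) v
    have h2 : HasFDerivAt (fun x => φ₁ (f x)) (φ₂ (f z) • fderiv ℝ f z) z :=
      (hφ₁ z hz).comp_hasFDerivAt z (hd z hz).hasFDerivAt
    have h3 := (h2.fun_mul (hDd v).hasFDerivAt).fderiv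
    have h4 : D v (D v (fun x => φ (f x))) z = fderiv ℝ (fun x => φ₁ (f x) * D v f x) z v := by
      rw [← h1.fderiv_eq]
      rfl
    rw [h4, h3]
    simp only [add_apply, smul_apply, smul_eq_mul]
    unfold D
    ring
  unfold levz
  rw [key, key]
  ring

end

end Pool.Agent.KRFKo
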