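import Pool.Agent.Work.MP_a2bf38_gt.Ko.Bun
import Pool.Agent.Work.MP_a2bf38_gt.Ko.Lev

/-!
# The metric and the weight on the canonical bundle
-/

open scoped ContDiff Topology
open Set Filter Pool.Agent.ToricKRF Pool.Agent.ToricKRF.G Pool.Agent.KRFS Pool.Agent.KRFF
  Pool.Agent.KRFQ

namespace Pool.Agent.KRFKo

section

variable {M P : Type} [TopologicalSpace M] [TopologicalSpace P] {n : ℕ} {κ : Type}
  {e : κ → OpenPartialHomeomorph M (Cn n)} {π : P → M}
  {E : κ → OpenPartialHomeomorph P (Cn (n + 1))}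

theorem isOpen_tlhd {U : Set (Cn n)} (hU : IsOpen U) :
    IsOpen {y : Cn (n + 1) | tl y ∈ U ∧ hd y ≠ 0} :=
  (hU.preimage contDiff_tl.continuous).inter (isOpen_ne.preimage contDiff_hd.continuous)

theorem contDiffOn_tlf {f : Cn n → ℝ} {U : Set (Cn n)} (hf : ContDiffOn ℝ ∞ f U) :
    ContDiffOn ℝ ∞ (fun y => f (tl y)) {y : Cn (n + 1) | tl y ∈ U ∧ hd y ≠ 0} :=
  hf.comp contDiff_tl.contDiffOn fun _ hy => hy.1

theorem contDiffOn_nr {w : κ → Cn n → ℝ} {c : κ} {U : Set (Cn n)}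
    (hw : ContDiffOn ℝ ∞ (w c) U) (hw0 : ∀ x ∈ U, 0 < w c x) :
    ContDiffOn ℝ ∞ (nr w c) {y : Cn (n + 1) | tl y ∈ U ∧ hd y ≠ 0} := by
  have h1 : ContDiffOn ℝ ∞ (fun y : Cn (n + 1) => Real.log (‖hd y‖ ^ 2))
      {y | tl y ∈ U ∧ hd y ≠ 0} := by
    refine ContDiffOn.log ((contDiff_norm_sq ℝ).comp contDiff_hd).contDiffOn fun y hy => ?_
    have : 0 < ‖hd y‖ := norm_pos_iff.2 hy.2
    positivity
  exact h1.sub (contDiffOn_tlf (hw.log fun x hx => (hw0 x hx).ne'))

/-- the charts of the bundle without the zero section -/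
theorem IsKBun.mem_dom_rs (hb : IsKBun e π E) (he : IsAtlas e) {V : Set M} (hV : IsOpen V)
    (hVp : IsOpen (Vp E π V)) {c c' : κ} {y : Cn (n + 1)} (hy : y ∈ dom (rs E hVp) c c') :
    tl y ∈ dom (rs e hV) c c' ∧ hd y ≠ 0 := by
  obtain ⟨h1, h2⟩ := (hb.mem_target he hV hVp c y).1 hy.1
  have h3 := (hb.mem_dom c c' y).1 (dom_rs hVp c c' hy)
  refine ⟨⟨h1, ?_⟩, h2⟩
  rw [rs_source]
  exact ⟨h3.2, ((mem_rs_target hV c).1 h1).2⟩

theorem IsKBun.tl_tr (hb : IsKBun e π E) {c c' : κ} {y : Cn (n + 1)}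
    (hy : tl y ∈ dom e c c') : tl (tr E c c' y) = tr e c c' (tl y) := by
  rw [hb.tr_eq c c' y hy, tl_jn]

/-- the derivative of the base coordinates of the change of charts -/
theorem IsKBun.tl_fderiv (hb : IsKBun e π E) (he : IsAtlas e) {c c' : κ} {y : Cn (n + 1)}
    (hy : tl y ∈ dom e c c') (v : Cn (n + 1)) :
    tl (fderiv ℝ (tr E c c') y v) = fderiv ℝ (tr e c c') (tl y) (tl v) := by
  have hy' : y ∈ dom E c c' := (hb.mem_dom c c' y).2 hy
  have h1 : HasFDerivAt (tr E c c') (fderiv ℝ (tr E c c') y) y :=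
    (HolOn.differentiableAt (KRFQ.isOpen_dom c c') (hb.holo he c c') hy').hasFDerivAt
  have h2 : HasFDerivAt (tr e c c') (fderiv ℝ (tr e c c') (tl y)) (tl y) :=
    (HolOn.differentiableAt (KRFQ.isOpen_dom c c') (he.holo c c') hy).hasFDerivAt
  have h3 := ((tlL (n := n)).hasFDerivAt.comp y h1).fderiv
  have h4 : fderiv ℝ (tr e c c' ∘ ⇑(tlL (n := n))) y =
      (fderiv ℝ (tr e c c') (tl y)).comp tlL :=
    (HasFDerivAt.comp (g := tr e c c') (f := ⇑(tlL (n := n))) y h2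
      (tlL (n := n)).hasFDerivAt).fderiv
  have h5 : (⇑(tlL (n := n)) ∘ tr E c c') =ᶠ[𝓝 y] (tr e c c' ∘ ⇑(tlL (n := n))) := by
    filter_upwards [(KRFQ.isOpen_dom c c').mem_nhds hy'] with x hx
    exact hb.tl_tr ((hb.mem_dom c c' x).1 hx)
  rw [h5.fderiv_eq, h4] at h3
  exact (DFunLike.congr_fun h3 v).symm

theorem L2D.w_smooth_rs {V : Set M} {w g : κ → Cn n → ℝ} (h : L2D e V w g) (c : κ) :
    ContDiffOn ℝ ∞ (kf w c) (e c).target :=
  ((h.w_smooth c).log fun z hz => (h.w_pos c z hz).ne').neg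

/-- the metric on the bundle -/
theorem levz_bun {w g : κ → Cn n → ℝ} {U : Set (Cn n)} {c : κ} (hU : IsOpen U)
    (hw : ContDiffOn ℝ ∞ (w c) U) (hw0 : ∀ x ∈ U, 0 < w c x) (hg : ContDiffOn ℝ ∞ (g c) U)
    {y : Cn (n + 1)} (hy : tl y ∈ U) (h0 : hd y ≠ 0) (v : Cn (n + 1)) :
    levz (fun y => g c (tl y) + Uf (nr w c y)) v y = levz (g c) (tl v) (tl y) +
      (deriv Uf (nr w c y) * levz (kf w c) (tl v) (tl y) + 1 / (1 + nr w c y ^ 2) *
        (((D v (nr w c) y) ^ 2 + (D (J v) (nr w c) y) ^ 2) / 4)) := by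
  have hn := (isOpen_tlhd hU).mem_nhds (show y ∈ {y | tl y ∈ U ∧ hd y ≠ 0} from ⟨hy, h0⟩)
  rw [Bd.levz_add, levz_tl hU hg hy, levz_scomp Uf_facts.1 (isOpen_tlhd hU) (contDiffOn_nr hw hw0)
    ⟨hy, h0⟩, levz_nr hU hw hw0 hy h0, Uf_facts.2.2]
  · exact ((contDiffOn_tlf hg).contDiffAt hn).of_le two_le_infty
  · exact ((Uf_facts.1.comp_contDiffOn (contDiffOn_nr hw hw0)).contDiffAt hn).of_le two_le_infty

theorem D_log_hd {y : Cn (n + 1)} (h0 : hd y ≠ 0) (v : Cn (n + 1)) :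
    D v (fun y : Cn (n + 1) => Real.log (‖hd y‖ ^ 2)) y =
      2 * ((starRingEnd ℂ) (hd y) * hd v).re / ‖hd y‖ ^ 2 := by
  have h1 : HasFDerivAt (fun y : Cn (n + 1) => hd y) (hdL (n := n)) y := (hdL (n := n)).hasFDerivAt
  have h2 := (h1.norm_sq.log (by positivity)).fderiv
  unfold D
  rw [h2]
  simp only [smul_apply, ContinuousLinearMap.comp_apply, innerSL_apply_apply, hdL_apply,
    smul_eq_mul, nsmul_eq_mul, Complex.inner]
  push_cast
  rw [mul_comm (hd v)]
  ring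

/-- the derivative of the norm along the fibres -/
theorem D_nr_pos {w : κ → Cn n → ℝ} {c : κ} {y v : Cn (n + 1)}
    (hw : DifferentiableAt ℝ (kf w c) (tl y)) (h0 : hd y ≠ 0) (hv : tl v = 0) (hv0 : v ≠ 0) :
    0 < ((D v (nr w c) y) ^ 2 + (D (J v) (nr w c) y) ^ 2) / 4 := by
  have h1 : ∀ u : Cn (n + 1), tl u = 0 → D u (nr w c) y =
      2 * ((starRingEnd ℂ) (hd y) * hd u).re / ‖hd y‖ ^ 2 := by
    intro u hu
    rw [← D_log_hd h0]
    have h2 : HasFDerivAt (fun y : Cn (n + 1) => kf w c (tl y))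
        ((fderiv ℝ (kf w c) (tl y)).comp tlL) y :=
      HasFDerivAt.comp (g := kf w c) (f := ⇑(tlL (n := n))) y hw.hasFDerivAt
        (tlL (n := n)).hasFDerivAt
    have h3 : DifferentiableAt ℝ (fun y : Cn (n + 1) => Real.log (‖hd y‖ ^ 2)) y := by
      have h4 : HasFDerivAt (fun y : Cn (n + 1) => hd y) (hdL (n := n)) y :=
        (hdL (n := n)).hasFDerivAt
      exact (h4.norm_sq.log (by positivity)).differentiableAt
    have h5 := (h3.hasFDerivAt.add h2).fderiv
    have h6 : nr w c = (fun y : Cn (n + 1) => Real.log (‖hd y‖ ^ 2)) + fun y => kf w c (tl y) := by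
      funext y
      simp only [nr, kf, Pi.add_apply]
      ring
    unfold D
    rw [h6, h5, add_apply, ContinuousLinearMap.comp_apply, tlL_apply, hu, map_zero, add_zero]
  have h2 : tl (J v) = 0 := by
    rw [tl_J, hv]
    simp [J]
  have h3 : hd v ≠ 0 := by
    intro h4
    apply hv0
    rw [← jn_hd_tl v, h4, hv]
    refine Prod.ext ?_ ?_ <;> funext i <;> refine Fin.cases ?_ (fun j => ?_) i <;> rfl
  rw [h1 v hv, h1 _ h2, hd_J]
  have h5 : (2 * ((starRingEnd ℂ) (hd y) * hd v).re / ‖hd y‖ ^ 2) ^ 2 +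
      (2 * ((starRingEnd ℂ) (hd y) * (Complex.I * hd v)).re / ‖hd y‖ ^ 2) ^ 2 =
      4 * (‖hd v‖ ^ 2 / ‖hd y‖ ^ 2) := by
    have h6 : 0 < ‖hd y‖ ^ 2 := by positivity
    have h7 : ((starRingEnd ℂ) (hd y) * (Complex.I * hd v)).re =
        -((starRingEnd ℂ) (hd y) * hd v).im := by
      simp only [Complex.mul_re, Complex.mul_im, Complex.I_re, Complex.I_im, Complex.conj_re,
        Complex.conj_im]
      ring
    have h8 : ((starRingEnd ℂ) (hd y) * hd v).re ^ 2 + ((starRingEnd ℂ) (hd y) * hd v).im ^ 2 =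
        ‖hd y‖ ^ 2 * ‖hd v‖ ^ 2 := by
      rw [← mul_pow, ← Complex.norm_conj (hd y), ← norm_mul, Complex.sq_norm, Complex.normSq_apply]
      ring
    rw [h7]
    field_simp
    linear_combination 4 * h8
  rw [h5]
  have h6 : 0 < ‖hd v‖ := norm_pos_iff.2 h3
  have h7 : 0 < ‖hd y‖ := norm_pos_iff.2 h0
  positivity

/-- B2b -/
theorem l2d_bun (hb : IsKBun e π E) (he : IsAtlas e) {V : Set M} (hV : IsOpen V)
    (hVp : IsOpen (Vp E π V)) {w g : κ → Cn n → ℝ} (h0 : L2D (rs e hV) V w (kf w))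
    (h : L2D (rs e hV) V w g) :
    L2D (rs E hVp) (Vp E π V) (fun _ _ => 1) (fun c y => g c (tl y) + Uf (nr w c y)) where
  sub c v hv := by
    rw [rs_source] at hv
    exact hv.2
  cover v hv := by
    obtain ⟨c, hc, -⟩ := hv.2
    exact ⟨c, by rw [rs_source]; exact ⟨hc, hv⟩⟩
  holo c c' := ⟨(hb.holo he c c').1.mono (dom_rs hVp c c'),
    fun z hz u => (hb.holo he c c').2 z (dom_rs hVp c c' hz) u⟩
  w_smooth c := contDiffOn_const
  w_pos c z hz := one_pos
  w_compat c c' z hz := by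
    rw [mul_one]
    exact (hb.det_one he c c' (dom_rs hVp c c' hz)).symm
  w_lev c c' z hz u := by
    simp only [Bd.levz_const]
  g_smooth c := by
    have h1 : (rs E hVp c).target = {y | tl y ∈ (rs e hV c).target ∧ hd y ≠ 0} := by
      ext y
      exact hb.mem_target he hV hVp c y
    rw [h1]
    exact (contDiffOn_tlf (h.g_smooth c)).add
      (Uf_facts.1.comp_contDiffOn (contDiffOn_nr (h.w_smooth c) (h.w_pos c)))
  g_pos c y hy v hv := by
    obtain ⟨h1, h2⟩ := (hb.mem_target he hV hVp c y).1 hy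
    rw [levz_bun (rs e hV c).open_target (h.w_smooth c) (h.w_pos c) (h.g_smooth c) h1 h2]
    have h3 := Uf_facts.2.1 (nr w c y)
    have h4 : 0 ≤ 1 / (1 + nr w c y ^ 2) *
        (((D v (nr w c) y) ^ 2 + (D (J v) (nr w c) y) ^ 2) / 4) := by positivity
    by_cases h5 : tl v = 0
    · rw [h5, levz_zero_vec, levz_zero_vec, mul_zero, zero_add, zero_add]
      have hd1 : DifferentiableAt ℝ (kf w c) (tl y) :=
        ((h0.g_smooth c).differentiableOn (by simp)).differentiableAt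
          ((rs e hV c).open_target.mem_nhds h1)
      have h6 := D_nr_pos hd1 h2 h5 hv
      positivity
    · have h6 := h.g_pos c _ h1 _ h5
      have h7 := h0.g_pos c _ h1 _ h5
      positivity
  g_compat c c' y hy v := by
    obtain ⟨h1, h2⟩ := hb.mem_dom_rs he hV hVp hy
    have h1' : tl y ∈ dom e c c' := dom_rs hV c c' h1
    have hyt := (hb.mem_target he hV hVp c y).1 hy.1
    have hyt' := (hb.mem_target he hV hVp c' _).1 (tr_mem_target hy)
    have hyd : y ∈ dom (rs E hVp) c c' := hy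
    have hn := (isOpen_tlhd (rs e hV c).open_target).mem_nhds
      (show y ∈ {y | tl y ∈ (rs e hV c).target ∧ hd y ≠ 0} from hyt)
    have hn' := (isOpen_tlhd (rs e hV c').open_target).mem_nhds
      (show tr (rs E hVp) c c' y ∈ {y | tl y ∈ (rs e hV c').target ∧ hd y ≠ 0} from hyt')
    have hs : ∀ c, ContDiffOn ℝ ∞ (fun y => Uf (nr w c y))
        {y | tl y ∈ (rs e hV c).target ∧ hd y ≠ 0} := fun c =>
      Uf_facts.1.comp_contDiffOn (contDiffOn_nr (h.w_smooth c) (h.w_pos c))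
    rw [Bd.levz_add (((contDiffOn_tlf (h.g_smooth c)).contDiffAt hn).of_le two_le_infty)
      (((hs c).contDiffAt hn).of_le two_le_infty),
      Bd.levz_add (((contDiffOn_tlf (h.g_smooth c')).contDiffAt hn').of_le two_le_infty)
      (((hs c').contDiffAt hn').of_le two_le_infty),
      levz_tl (rs e hV c).open_target (h.g_smooth c) hyt.1,
      levz_tl (rs e hV c').open_target (h.g_smooth c') hyt'.1]
    congr 1
    · rw [h.g_compat c c' _ h1]
      change _ = levz (g c') (tl (fderiv ℝ (tr E c c') y v)) (tl (tr E c c' y))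
      rw [hb.tl_fderiv he h1', hb.tl_tr h1']
      rfl
    · have h3 : (fun y => Uf (nr w c y)) =ᶠ[𝓝 y]
          fun y => (fun y => Uf (nr w c' y)) (tr (rs E hVp) c c' y) := by
        filter_upwards [(KRFQ.isOpen_dom c c').mem_nhds hyd] with x hx
        obtain ⟨h4, h5⟩ := hb.mem_dom_rs he hV hVp hx
        change _ = Uf (nr w c' (tr E c c' x))
        rw [hb.nr_tr he hV h h4 h5]
      rw [Bd.levz_congr h3]
      refine levz_comp (isOpen_tlhd (rs e hV c').open_target) (hs c') (KRFQ.isOpen_dom c c')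
        (S := dom (rs E hVp) c c') ?_ hyd hyt' v
      exact ⟨(hb.holo he c c').1.mono (dom_rs hVp c c'),
        fun z hz u => (hb.holo he c c').2 z (dom_rs hVp c c' hz) u⟩

theorem contDiff_sp : ContDiff ℝ ∞ fun r : ℝ => Real.log (1 + Real.exp r) :=
  ContDiff.log (contDiff_const.add Real.contDiff_exp) fun r => by positivity

theorem hasDerivAt_sp (r : ℝ) :
    HasDerivAt (fun r => Real.log (1 + Real.exp r)) (Real.exp r / (1 + Real.exp r)) r := by
  have h0 : 1 + Real.exp r ≠ 0 := by positivity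
  exact ((Real.hasDerivAt_exp r).const_add 1).log h0

theorem hasDerivAt_sp₁ (r : ℝ) : HasDerivAt (fun r => Real.exp r / (1 + Real.exp r))
    (Real.exp r / (1 + Real.exp r) ^ 2) r := by
  have h0 : 1 + Real.exp r ≠ 0 := by positivity
  refine ((Real.hasDerivAt_exp r).fun_div ((Real.hasDerivAt_exp r).const_add 1) h0).congr_deriv ?_
  ring

/-- B2d: the weight -/
theorem wtP_facts (hb : IsKBun e π E) (he : IsAtlas e) {V : Set M} (hV : IsOpen V)
    (hVp : IsOpen (Vp E π V)) {w : κ → Cn n → ℝ} (h0 : L2D (rs e hV) V w (kf w)) {m : ℕ}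
    {W : M → ℝ} (hW : ∀ c, ContDiffOn ℝ ∞ (pb (rs e hV) c W) (rs e hV c).target)
    (hWl : ∀ c, ∀ z ∈ (rs e hV c).target, ∀ v,
      -((m : ℝ) - 1) * levz (kf w c) v z ≤ levz (pb (rs e hV) c W) v z) :
    (∃ ρ : P → ℝ, ∀ c, ∀ y ∈ (rs E hVp c).target,
      pb (rs E hVp) c ρ y = wtP (rs e hV) w m W c y) ∧
    ∀ c, ContDiffOn ℝ ∞ (wtP (rs e hV) w m W c) (rs E hVp c).target ∧
      ∀ y ∈ (rs E hVp c).target, ∀ v,
        levz (kf w c) (tl v) (tl y) ≤ levz (wtP (rs e hV) w m W c) v y := by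
  refine ⟨⟨fun v => (glob (rs E hVp) (fun c y => (wtP (rs e hV) w m W c y : ℂ)) v).re,
    fun c y hy => ?_⟩, fun c => ?_⟩
  · have h1 : ∀ c c', ∀ y ∈ dom (rs E hVp) c c', (wtP (rs e hV) w m W c' (tr (rs E hVp) c c' y) : ℂ) =
        (wtP (rs e hV) w m W c y : ℂ) := by
      intro c c' y hy
      obtain ⟨h2, h3⟩ := hb.mem_dom_rs he hV hVp hy
      have h2' : tl y ∈ dom e c c' := dom_rs hV c c' h2
      congr 1
      change wtP (rs e hV) w m W c' (tr E c c' y) = _
      unfold wtP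
      rw [hb.nr_tr he hV h0 h2 h3, hb.tl_tr h2']
      congr 2
      exact symm_tr h2
    have h2 := pb_glob (F := fun c y => (wtP (rs e hV) w m W c y : ℂ)) h1 hy
    have h3 : pb (rs E hVp) c (fun v => (glob (rs E hVp)
        (fun c y => (wtP (rs e hV) w m W c y : ℂ)) v).re) y =
        (pb (rs E hVp) c (glob (rs E hVp) (fun c y => (wtP (rs e hV) w m W c y : ℂ))) y).re := rfl
    rw [h3, h2, Complex.ofReal_re]
  · have ht : (rs E hVp c).target = {y | tl y ∈ (rs e hV c).target ∧ hd y ≠ 0} := by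
      ext y
      exact hb.mem_target he hV hVp c y
    rw [ht]
    have hr := contDiffOn_nr (w := w) (h0.w_smooth c) (h0.w_pos c)
    have hs := contDiff_sp.comp_contDiffOn hr
    have h1 : ContDiffOn ℝ ∞ (fun y => (m : ℝ) * nr w c y)
      {y | tl y ∈ (rs e hV c).target ∧ hd y ≠ 0} := contDiffOn_const.mul hr
    have h2 : ContDiffOn ℝ ∞ (fun y => 2 * Real.log (1 + Real.exp (nr w c y)))
      {y | tl y ∈ (rs e hV c).target ∧ hd y ≠ 0} := contDiffOn_const.mul hs
    have h3 : ContDiffOn ℝ ∞ (fun y => pb (rs e hV) c W (tl y))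
      {y | tl y ∈ (rs e hV c).target ∧ hd y ≠ 0} := contDiffOn_tlf (hW c)
    have heq : wtP (rs e hV) w m W c = fun y => (m : ℝ) * nr w c y +
        2 * Real.log (1 + Real.exp (nr w c y)) + pb (rs e hV) c W (tl y) := rfl
    refine ⟨(h1.add h2).add h3, fun y hy v => ?_⟩
    have hn := (isOpen_tlhd (rs e hV c).open_target).mem_nhds hy
    have k0 := (hr.contDiffAt hn).of_le two_le_infty
    have k1 := (h1.contDiffAt hn).of_le two_le_infty
    have k2 := (h2.contDiffAt hn).of_le two_le_infty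
    have k3 := (h3.contDiffAt hn).of_le two_le_infty
    have k4 : ContDiffAt ℝ 2 (fun y => Real.log (1 + Real.exp (nr w c y))) y :=
      (hs.contDiffAt hn).of_le two_le_infty
    have h5 : levz (fun y => Real.log (1 + Real.exp (nr w c y))) v y =
        Real.exp (nr w c y) / (1 + Real.exp (nr w c y)) * levz (nr w c) v y +
        Real.exp (nr w c y) / (1 + Real.exp (nr w c y)) ^ 2 *
          ((D v (nr w c) y ^ 2 + D (J v) (nr w c) y ^ 2) / 4) :=
      levz_fcomp (φ := fun r => Real.log (1 + Real.exp r))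
        (φ₁ := fun r => Real.exp r / (1 + Real.exp r))
        (φ₂ := fun r => Real.exp r / (1 + Real.exp r) ^ 2) (fun x _ => hasDerivAt_sp _)
        (fun x _ => hasDerivAt_sp₁ _) (isOpen_tlhd (rs e hV c).open_target) hr hy v
    rw [heq, Bd.levz_add (k1.add k2) k3, Bd.levz_add k1 k2, Bd.levz_const_mul _ k0,
      Bd.levz_const_mul _ k4, h5, levz_nr (rs e hV c).open_target (h0.w_smooth c) (h0.w_pos c)
        hy.1 hy.2, levz_tl (rs e hV c).open_target (hW c) hy.1]
    have h6 := hWl c _ hy.1 (tl v)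
    have h7 : 0 ≤ levz (kf w c) (tl v) (tl y) := by
      by_cases h8 : tl v = 0
      · rw [h8, levz_zero_vec]
      · exact (h0.g_pos c _ hy.1 _ h8).le
    have h8 : 0 ≤ Real.exp (nr w c y) / (1 + Real.exp (nr w c y)) *
        levz (kf w c) (tl v) (tl y) := by positivity
    have h9 : 0 ≤ Real.exp (nr w c y) / (1 + Real.exp (nr w c y)) ^ 2 *
        ((D v (nr w c) y ^ 2 + D (J v) (nr w c) y ^ 2) / 4) := by positivity
    linarith

end

end Pool.Agent.KRFKo
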