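import Pool.Agent.Work.MP_a2bf38_gt.Ko.Lev
import Pool.Agent.Work.MP_a2bf38_gt.Ko.Bun

/-!
# An exhaustion function of the canonical bundle without the zero section
-/

open scoped ContDiff Topology
open Set MeasureTheory Filter Pool.Agent.ToricKRF Pool.Agent.ToricKRF.G Pool.Agent.KRFS
  Pool.Agent.KRFF Pool.Agent.KRFQ

namespace Pool.Agent.KRFKo

section Aux

variable {n : ℕ} {κ : Type} {w : κ → Cn n → ℝ} {c : κ} {U : Set (Cn n)}

theorem px_isOpen (hU : IsOpen U) : IsOpen {y : Cn (n + 1) | tl y ∈ U ∧ hd y ≠ 0} :=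
  (isOpen_tl hU).inter (isOpen_ne.preimage contDiff_hd.continuous)

theorem px_contDiffOn_nr (hw : ContDiffOn ℝ ∞ (w c) U) (hw0 : ∀ x ∈ U, 0 < w c x) :
    ContDiffOn ℝ ∞ (nr w c) {y | tl y ∈ U ∧ hd y ≠ 0} := by
  have h1 : ContDiffOn ℝ ∞ (fun y : Cn (n + 1) => Real.log (‖hd y‖ ^ 2))
      {y | tl y ∈ U ∧ hd y ≠ 0} :=
    (contDiff_hd.norm_sq ℝ).contDiffOn.log fun y hy => by
      have := norm_pos_iff.2 hy.2
      positivity
  have h2 : ContDiffOn ℝ ∞ (fun y : Cn (n + 1) => Real.log (w c (tl y)))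
      {y | tl y ∈ U ∧ hd y ≠ 0} :=
    (hw.log fun x hx => (hw0 x hx).ne').comp contDiff_tl.contDiffOn fun y hy => hy.1
  exact h1.sub h2

theorem px_log_smooth : ContDiff ℝ ∞ fun r : ℝ => Real.log (1 + r ^ 2) :=
  (contDiff_const.add (contDiff_id.pow 2)).log fun r => by positivity

theorem px_log_deriv (r : ℝ) :
    HasDerivAt (fun r : ℝ => Real.log (1 + r ^ 2)) (2 * r / (1 + r ^ 2)) r := by
  have h0 : (1 : ℝ) + r ^ 2 ≠ 0 := by positivity
  have h2 : HasDerivAt (fun r : ℝ => 1 + r ^ 2) (2 * r) r := by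
    simpa using ((hasDerivAt_pow 2 r).const_add (1 : ℝ))
  exact h2.log h0

/-- the algebra of the gradient estimate -/
theorem px_alg (a b r : ℝ) :
    ((a + 2 * r / (1 + r ^ 2) * b) / 3) ^ 2 ≤ a ^ 2 + 1 / (1 + r ^ 2) * b ^ 2 := by
  have h0 : (0 : ℝ) < 1 + r ^ 2 := by positivity
  have h1 : (2 * r / (1 + r ^ 2)) ^ 2 ≤ 4 * (1 / (1 + r ^ 2)) := by
    rw [div_pow, div_le_iff₀ (by positivity)]
    have : 4 * (1 / (1 + r ^ 2)) * (1 + r ^ 2) ^ 2 = 4 * (1 + r ^ 2) := by
      field_simp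
    rw [this]
    nlinarith
  have h2 : (2 * r / (1 + r ^ 2) * b) ^ 2 ≤ 4 * (1 / (1 + r ^ 2)) * b ^ 2 := by
    rw [mul_pow]
    exact mul_le_mul_of_nonneg_right h1 (sq_nonneg b)
  have h3 : 0 ≤ 1 / (1 + r ^ 2) * b ^ 2 := by positivity
  nlinarith [sq_nonneg (a - 2 * r / (1 + r ^ 2) * b), sq_nonneg a]

/-- compact sets of points `(ξ, x)` -/
theorem px_compact {A : Set (Cn n)} (hA : IsCompact A) (a b : ℝ) :
    IsCompact {y : Cn (n + 1) | tl y ∈ A ∧ a ≤ ‖hd y‖ ∧ ‖hd y‖ ≤ b} := by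
  have h1 : IsCompact {ξ : ℂ | a ≤ ‖ξ‖ ∧ ‖ξ‖ ≤ b} := by
    have h2 : {ξ : ℂ | a ≤ ‖ξ‖ ∧ ‖ξ‖ ≤ b} = Metric.closedBall 0 b ∩ {ξ : ℂ | a ≤ ‖ξ‖} := by
      ext ξ
      simp only [mem_ofPred_eq, mem_inter_iff, mem_closedBall_zero_iff]
      exact and_comm
    rw [h2]
    exact (isCompact_closedBall 0 b).inter_right (isClosed_le continuous_const continuous_norm)
  have h3 : {y : Cn (n + 1) | tl y ∈ A ∧ a ≤ ‖hd y‖ ∧ ‖hd y‖ ≤ b} =
      (fun p : ℂ × Cn n => jn p.1 p.2) '' ({ξ : ℂ | a ≤ ‖ξ‖ ∧ ‖ξ‖ ≤ b} ×ˢ A) := by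
    ext y
    constructor
    · rintro ⟨hy, h4⟩
      exact ⟨(hd y, tl y), ⟨h4, hy⟩, jn_hd_tl y⟩
    · rintro ⟨⟨ξ, x⟩, ⟨h4, h5⟩, rfl⟩
      exact ⟨by simpa using h5, by simpa using h4⟩
  rw [h3]
  exact (h1.prod hA).image contDiff_jn.continuous

end Aux

section Grad

variable {n : ℕ} {κ : Type} {w : κ → Cn n → ℝ} {c : κ} {U : Set (Cn n)}

theorem px_D_tl {f : Cn n → ℝ} {y : Cn (n + 1)} (hf : DifferentiableAt ℝ f (tl y))
    (u : Cn (n + 1)) : D u (fun y => f (tl y)) y = D (tl u) f (tl y) := by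
  have h1 : HasFDerivAt (tl : Cn (n + 1) → Cn n) (tlL (n := n)) y := (tlL (n := n)).hasFDerivAt
  have h2 := (hf.hasFDerivAt.comp y h1).fderiv
  unfold D
  change fderiv ℝ (f ∘ tl) y u = _
  rw [h2]
  rfl

/-- the gradient of the exhaustion function -/
theorem px_grad (hU : IsOpen U) {f g : Cn n → ℝ} (hf : ContDiffOn ℝ ∞ f U)
    (hg : ContDiffOn ℝ ∞ g U) (hw : ContDiffOn ℝ ∞ (w c) U) (hw0 : ∀ x ∈ U, 0 < w c x)
    (hk : ∀ x ∈ U, ∀ u, 0 ≤ levz (kf w c) u x)
    (hgr : ∀ x ∈ U, ∀ u, ((D u f x) ^ 2 + (D (J u) f x) ^ 2) / 4 ≤ levz g u x)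
    {y : Cn (n + 1)} (hy : tl y ∈ U) (h0 : hd y ≠ 0) (u : Cn (n + 1)) :
    ((D u (fun y => (f (tl y) + Real.log (1 + nr w c y ^ 2)) / 3) y) ^ 2 +
      (D (J u) (fun y => (f (tl y) + Real.log (1 + nr w c y ^ 2)) / 3) y) ^ 2) / 4 ≤
      levz (fun y => g (tl y) + Uf (nr w c y)) u y := by
  have hS := px_isOpen hU
  have hyS : y ∈ {y : Cn (n + 1) | tl y ∈ U ∧ hd y ≠ 0} := ⟨hy, h0⟩
  have hnr := px_contDiffOn_nr (n := n) hw hw0
  have hnrd : DifferentiableAt ℝ (nr w c) y :=
    (hnr.differentiableOn (by simp)).differentiableAt (hS.mem_nhds hyS)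
  have hfd : DifferentiableAt ℝ f (tl y) :=
    (hf.differentiableOn (by simp)).differentiableAt (hU.mem_nhds hy)
  have hfd' : DifferentiableAt ℝ (fun y => f (tl y)) y :=
    hfd.comp y (contDiff_tl.differentiable (by simp) y)
  have hld : DifferentiableAt ℝ (fun y => Real.log (1 + nr w c y ^ 2)) y :=
    (px_log_smooth.differentiable (by simp) _).comp y hnrd
  have hD : ∀ v, D v (fun y => (f (tl y) + Real.log (1 + nr w c y ^ 2)) / 3) y =
      (D (tl v) f (tl y) + 2 * nr w c y / (1 + nr w c y ^ 2) * D v (nr w c) y) / 3 := by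
    intro v
    have h1 : (fun y => (f (tl y) + Real.log (1 + nr w c y ^ 2)) / 3) =
        fun y => ((fun y => f (tl y)) y + (fun y => Real.log (1 + nr w c y ^ 2)) y) * (3 : ℝ)⁻¹ := by
      funext y
      rw [div_eq_mul_inv]
    rw [h1]
    have h2 := (((hfd'.hasFDerivAt.fun_add hld.hasFDerivAt).mul_const (3 : ℝ)⁻¹)).fderiv
    have h3 := px_D_tl hfd v
    have h4 := D_fcomp (px_log_deriv (nr w c y)) hnrd v
    unfold D at h3 h4 ⊢
    rw [h2]
    simp only [smul_apply, add_apply, smul_eq_mul]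
    rw [h3, h4]
    ring
  have h2 : ContDiffAt ℝ 2 (fun y => g (tl y)) y :=
    ((hg.contDiffAt (hU.mem_nhds hy)).of_le (by norm_cast)).comp y
      (contDiff_tl.contDiffAt.of_le (by norm_cast))
  have h3 : ContDiffAt ℝ 2 (fun y => Uf (nr w c y)) y :=
    (Uf_facts.1.contDiffAt.of_le (by norm_cast)).comp y
      ((hnr.contDiffAt (hS.mem_nhds hyS)).of_le (by norm_cast))
  rw [Bd.levz_add h2 h3, levz_tl hU hg hy, levz_scomp Uf_facts.1 hS hnr hyS,
    levz_nr hU hw hw0 hy h0, Uf_facts.2.2, hD, hD, tl_J]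
  have h4 := hgr (tl y) hy (tl u)
  have h5 := mul_nonneg (Uf_facts.2.1 (nr w c y)).le (hk (tl y) hy (tl u))
  have h6 := px_alg (D (tl u) f (tl y)) (D u (nr w c) y) (nr w c y)
  have h7 := px_alg (D (J (tl u)) f (tl y)) (D (J u) (nr w c) y) (nr w c y)
  nlinarith

end Grad

section Bun

variable {M P : Type} [TopologicalSpace M] [TopologicalSpace P] {n : ℕ} {κ : Type}
  {e : κ → OpenPartialHomeomorph M (Cn n)} {π : P → M}
  {E : κ → OpenPartialHomeomorph P (Cn (n + 1))}

open Classical in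
/-- the exhaustion function `(ψ ∘ π + log (1 + r^2)) / 3` -/
noncomputable def px (E : κ → OpenPartialHomeomorph P (Cn (n + 1))) (π : P → M)
    (w : κ → Cn n → ℝ) (ψ : M → ℝ) (v : P) : ℝ :=
  if h : ∃ c, v ∈ (E c).source ∧ hd (E c v) ≠ 0 then
    (ψ (π v) + Real.log (1 + nr w h.choose (E h.choose v) ^ 2)) / 3 else 0

theorem px_eq (hb : IsKBun e π E) (he : IsAtlas e) {V : Set M} (hV : IsOpen V)
    (hVp : IsOpen (Vp E π V)) {w g : κ → Cn n → ℝ} (h : L2D (rs e hV) V w g) (ψ : M → ℝ)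
    {c : κ} {v : P} (hv : v ∈ (rs E hVp c).source) :
    px E π w ψ v = (ψ (π v) + Real.log (1 + nr w c (E c v) ^ 2)) / 3 := by
  have hv1 : v ∈ (E c).source ∧ v ∈ Vp E π V := by
    rw [rs_source] at hv
    exact hv
  have hex : ∃ c, v ∈ (E c).source ∧ hd (E c v) ≠ 0 := hv1.2.2
  rw [px, dif_pos hex]
  have h1 := hex.choose_spec
  set c' := hex.choose
  have hy : E c v ∈ (rs E hVp c).target := (rs E hVp c).map_source hv
  have h2 := (hb.mem_target he hV hVp c (E c v)).1 hy
  have h3 : (E c).symm (E c v) = v := (E c).left_inv hv1.1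
  have h4 : (e c).symm (tl (E c v)) = π v := by
    rw [← hb.pi_symm (rs_target_sub hV c h2.1), h3]
  have h5 : tl (E c v) ∈ dom (rs e hV) c c' := by
    refine ⟨h2.1, ?_⟩
    rw [rs_symm, h4, rs_source]
    refine ⟨?_, hv1.2.1⟩
    have := h1.1
    rw [hb.source] at this
    exact this
  have h6 := hb.nr_tr he hV h h5 h2.2
  have h7 : tr E c c' (E c v) = E c' v := by
    unfold tr
    rw [h3]
  rw [h7] at h6
  rw [h6]

theorem px_pb (hb : IsKBun e π E) (he : IsAtlas e) {V : Set M} (hV : IsOpen V)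
    (hVp : IsOpen (Vp E π V)) {w g : κ → Cn n → ℝ} (h : L2D (rs e hV) V w g) (ψ : M → ℝ)
    {c : κ} {y : Cn (n + 1)} (hy : y ∈ (rs E hVp c).target) :
    pb (rs E hVp) c (px E π w ψ) y =
      (pb (rs e hV) c ψ (tl y) + Real.log (1 + nr w c y ^ 2)) / 3 := by
  have h1 := (hb.mem_target he hV hVp c y).1 hy
  have h2 : (E c).symm y ∈ (rs E hVp c).source := (rs E hVp c).map_target hy
  have h3 : E c ((E c).symm y) = y := (E c).right_inv (rs_target_sub hVp c hy)
  unfold pb
  rw [rs_symm, rs_symm, px_eq hb he hV hVp h ψ h2, hb.pi_symm (rs_target_sub hV c h1.1), h3]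

theorem px_continuousOn {V : Set M} (hV : IsOpen V) {w g : κ → Cn n → ℝ}
    (h : L2D (rs e hV) V w g) {ψ : M → ℝ} (hψ : IsExh (rs e hV) V g ψ) : ContinuousOn ψ V := by
  intro p hp
  obtain ⟨c, hc⟩ := h.cover p hp
  have h1 : ContinuousAt (pb (rs e hV) c ψ) ((rs e hV c) p) :=
    (hψ.smooth c).continuousOn.continuousAt
      ((rs e hV c).open_target.mem_nhds ((rs e hV c).map_source hc))
  have h2 : ContinuousAt (rs e hV c) p := (rs e hV c).continuousAt hc
  have h3 := h1.comp h2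
  refine (h3.congr ?_).continuousWithinAt
  filter_upwards [(rs e hV c).open_source.mem_nhds hc] with q hq
  simp only [Function.comp, pb]
  rw [(rs e hV c).left_inv hq]

/-- B2c: `ψ' = (ψ ∘ π + log (1 + r^2)) / 3` -/
theorem exh_bun [T2Space P] (hb : IsKBun e π E) (he : IsAtlas e) {V : Set M} (hV : IsOpen V)
    (hVp : IsOpen (Vp E π V)) {w g : κ → Cn n → ℝ} (h0 : L2D (rs e hV) V w (kf w))
    (h : L2D (rs e hV) V w g) {ψ : M → ℝ} (hψ : IsExh (rs e hV) V g ψ) :
    ∃ ψ' : P → ℝ, IsExh (rs E hVp) (Vp E π V) (fun c y => g c (tl y) + Uf (nr w c y)) ψ' := by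
  have hS : ∀ c, (rs E hVp c).target = {y | tl y ∈ (rs e hV c).target ∧ hd y ≠ 0} := by
    intro c
    ext y
    exact hb.mem_target he hV hVp c y
  have hnr : ∀ c, ContDiffOn ℝ ∞ (nr w c) {y | tl y ∈ (rs e hV c).target ∧ hd y ≠ 0} := fun c =>
    px_contDiffOn_nr (h.w_smooth c) (h.w_pos c)
  have hG : ∀ c, ContDiffOn ℝ ∞
      (fun y => (pb (rs e hV) c ψ (tl y) + Real.log (1 + nr w c y ^ 2)) / 3)
      {y | tl y ∈ (rs e hV c).target ∧ hd y ≠ 0} := by
    intro c
    have h1 : ContDiffOn ℝ ∞ (fun y => pb (rs e hV) c ψ (tl y))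
        {y | tl y ∈ (rs e hV c).target ∧ hd y ≠ 0} :=
      (hψ.smooth c).comp contDiff_tl.contDiffOn fun y hy => hy.1
    have h2 : ContDiffOn ℝ ∞ (fun y => Real.log (1 + nr w c y ^ 2))
        {y | tl y ∈ (rs e hV c).target ∧ hd y ≠ 0} :=
      px_log_smooth.comp_contDiffOn (hnr c)
    exact (h1.add h2).div_const 3
  refine ⟨px E π w ψ, fun c => ?_, fun R => ?_, fun c z hz u => ?_⟩
  · have h1 := hG c
    rw [← hS c] at h1
    exact h1.congr fun y hy => px_pb hb he hV hVp h ψ hy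
  · have hcψ := px_continuousOn hV h hψ
    obtain ⟨C₀, hC₀⟩ : ∃ C₀ : ℝ, ∀ p ∈ V, C₀ ≤ ψ p := by
      obtain ⟨b, hb'⟩ := (hψ.cpt 0).bddBelow_image (hcψ.mono fun p hp => hp.1)
      refine ⟨min b 0, fun p hp => ?_⟩
      by_cases hp0 : ψ p ≤ 0
      · exact (min_le_left _ _).trans (hb' ⟨p, ⟨hp, hp0⟩, rfl⟩)
      · exact (min_le_right _ _).trans (not_le.1 hp0).le
    have hK := hψ.cpt (3 * R)
    have key : ∃ T : Set P, IsCompact T ∧ T ⊆ {v | v ∈ Vp E π V ∧ px E π w ψ v ≤ R} ∧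
        ∀ v, v ∈ Vp E π V → px E π w ψ v ≤ R → π v ∈ {p | p ∈ V ∧ ψ p ≤ 3 * R} → v ∈ T := by
      refine hK.induction_on (p := fun s => ∃ T : Set P, IsCompact T ∧
        T ⊆ {v | v ∈ Vp E π V ∧ px E π w ψ v ≤ R} ∧
        ∀ v, v ∈ Vp E π V → px E π w ψ v ≤ R → π v ∈ s → v ∈ T) ?_ ?_ ?_ ?_
      · exact ⟨∅, isCompact_empty, empty_subset _, fun v _ _ hv => hv.elim⟩
      · rintro s t hst ⟨T, h1, h2, h3⟩
        exact ⟨T, h1, h2, fun v hv hv' hs => h3 v hv hv' (hst hs)⟩
      · rintro s t ⟨T, h1, h2, h3⟩ ⟨T', h1', h2', h3'⟩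
        refine ⟨T ∪ T', h1.union h1', union_subset h2 h2', fun v hv hv' hs => ?_⟩
        rcases hs with hs | hs
        · exact Or.inl (h3 v hv hv' hs)
        · exact Or.inr (h3' v hv hv' hs)
      · rintro p ⟨hpV, hpR⟩
        obtain ⟨c, hc⟩ := h.cover p hpV
        have hx := (rs e hV c).map_source hc
        obtain ⟨r, hr, hA⟩ := Metric.nhds_basis_closedBall.mem_iff.1
          ((rs e hV c).open_target.mem_nhds hx)
        set A := Metric.closedBall ((rs e hV c) p) r with hAdef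
        have hAc : IsCompact A := isCompact_closedBall _ _
        have hAne : A.Nonempty := ⟨_, Metric.mem_closedBall_self hr.le⟩
        have hwc : ContinuousOn (w c) A := (h.w_smooth c).continuousOn.mono hA
        obtain ⟨x1, hx1, hmin⟩ := hAc.exists_isMinOn hAne hwc
        obtain ⟨x2, hx2, hmax⟩ := hAc.exists_isMaxOn hAne hwc
        have hw1 : 0 < w c x1 := h.w_pos c x1 (hA hx1)
        set ρ := Real.exp (3 * R - C₀) + 1 with hρ
        set a := √(w c x1 * Real.exp (-ρ)) with ha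
        set b := w c x2 * Real.exp ρ + 1 with hb'
        have ha0 : 0 < a := Real.sqrt_pos.2 (mul_pos hw1 (Real.exp_pos _))
        set T0 := {y : Cn (n + 1) | tl y ∈ A ∧ a ≤ ‖hd y‖ ∧ ‖hd y‖ ≤ b} with hT0
        have hT0c : IsCompact T0 := px_compact hAc a b
        have hT0s : T0 ⊆ {y | tl y ∈ (rs e hV c).target ∧ hd y ≠ 0} := by
          rintro y ⟨h1, h2, -⟩
          exact ⟨hA h1, norm_pos_iff.1 (ha0.trans_le h2)⟩
        set G := fun y => (pb (rs e hV) c ψ (tl y) + Real.log (1 + nr w c y ^ 2)) / 3 with hGd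
        have hGc : ContinuousOn G T0 := (hG c).continuousOn.mono hT0s
        have hSc : IsCompact (T0 ∩ G ⁻¹' Iic R) :=
          hT0c.of_isClosed_subset (hGc.preimage_isClosed_of_isClosed hT0c.isClosed isClosed_Iic)
            inter_subset_left
        have hmem : ∀ y ∈ T0, y ∈ (rs E hVp c).target := fun y hy => by
          rw [hS c]
          exact hT0s hy
        refine ⟨(rs e hV c).source ∩ (rs e hV c) ⁻¹' A, mem_nhdsWithin_of_mem_nhds ?_,
          (rs E hVp c).symm '' (T0 ∩ G ⁻¹' Iic R), ?_, ?_, ?_⟩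
        · exact inter_mem ((rs e hV c).open_source.mem_nhds hc)
            ((rs e hV c).continuousAt hc (Metric.closedBall_mem_nhds _ hr))
        · exact hSc.image_of_continuousOn ((rs E hVp c).continuousOn_symm.mono
            fun y hy => hmem y hy.1)
        · rintro v ⟨y, ⟨hy, hyR⟩, rfl⟩
          have h1 := (rs E hVp c).map_target (hmem y hy)
          rw [rs_source] at h1
          refine ⟨h1.2, ?_⟩
          have h2 := px_pb hb he hV hVp h ψ (hmem y hy)
          unfold pb at h2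
          rw [h2]
          exact hyR
        · rintro v hv hvR ⟨hv1, hv2⟩
          have h1 : v ∈ (rs E hVp c).source := by
            rw [rs_source]
            refine ⟨?_, hv⟩
            rw [hb.source]
            rw [rs_source] at hv1
            exact hv1.1
          have h2 : (rs E hVp c).symm ((rs E hVp c) v) = v := (rs E hVp c).left_inv h1
          have h3 := (rs E hVp c).map_source h1
          have h4 := (hb.mem_target he hV hVp c _).1 h3
          have h5 : v ∈ (E c).source := by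
            rw [rs_source] at h1
            exact h1.1
          have h6 : tl ((rs E hVp c) v) = (rs e hV c) (π v) := hb.tl_eq c v h5
          have h7 := px_pb hb he hV hVp h ψ h3
          have h8 : pb (rs E hVp) c (px E π w ψ) ((rs E hVp c) v) = px E π w ψ v := by
            unfold pb
            rw [h2]
          have h9 : pb (rs e hV) c ψ (tl ((rs E hVp c) v)) = ψ (π v) := by
            unfold pb
            rw [h6, (rs e hV c).left_inv hv1]
          refine ⟨(rs E hVp c) v, ⟨⟨?_, ?_⟩, ?_⟩, h2⟩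
          · rw [h6]
            exact hv2
          · set y := (rs E hVp c) v
            rw [h8, h9] at h7
            have hlog : Real.log (1 + nr w c y ^ 2) ≤ 3 * R - C₀ := by
              have := hC₀ (π v) hv.1
              rw [h7] at hvR
              linarith
            have hpos : (0 : ℝ) < 1 + nr w c y ^ 2 := by positivity
            have hle : 1 + nr w c y ^ 2 ≤ Real.exp (3 * R - C₀) :=
              (Real.log_le_iff_le_exp hpos).1 hlog
            have habs : |nr w c y| ≤ ρ := by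
              rw [abs_le]
              constructor <;> nlinarith [sq_nonneg (nr w c y + 1), sq_nonneg (nr w c y - 1)]
            rw [abs_le] at habs
            have hwy : 0 < w c (tl y) := h.w_pos c _ h4.1
            have hny : 0 < ‖hd y‖ ^ 2 := by
              have := norm_pos_iff.2 h4.2
              positivity
            have heq : ‖hd y‖ ^ 2 = w c (tl y) * Real.exp (nr w c y) := by
              unfold nr
              rw [Real.exp_sub, Real.exp_log hny, Real.exp_log hwy]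
              field_simp
            have hyA : tl y ∈ A := by
              rw [h6]
              exact hv2
            have hm1 : w c x1 ≤ w c (tl y) := hmin hyA
            have hm2 : w c (tl y) ≤ w c x2 := hmax hyA
            constructor
            · rw [ha]
              refine Real.sqrt_le_iff.2 ⟨norm_nonneg _, ?_⟩
              rw [heq]
              exact mul_le_mul hm1 (Real.exp_le_exp.2 habs.1) (Real.exp_pos _).le hwy.le
            · have h10 : ‖hd y‖ ^ 2 ≤ w c x2 * Real.exp ρ := by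
                rw [heq]
                exact mul_le_mul hm2 (Real.exp_le_exp.2 habs.2) (Real.exp_pos _).le
                  (hwy.le.trans hm2)
              rw [hb']
              nlinarith [sq_nonneg (‖hd y‖ - 1), norm_nonneg (hd y)]
          · change G _ ≤ R
            rw [h8] at h7
            rw [hGd]
            change (pb (rs e hV) c ψ (tl ((rs E hVp c) v)) +
              Real.log (1 + nr w c ((rs E hVp c) v) ^ 2)) / 3 ≤ R
            rw [← h7]
            exact hvR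
    obtain ⟨T, h1, h2, h3⟩ := key
    have h4 : {v | v ∈ Vp E π V ∧ px E π w ψ v ≤ R} = T := by
      refine Subset.antisymm (fun v hv => ?_) h2
      refine h3 v hv.1 hv.2 ⟨hv.1.1, ?_⟩
      obtain ⟨c, hc⟩ := hv.1.2
      have h5 : v ∈ (rs E hVp c).source := by
        rw [rs_source]
        exact ⟨hc.1, hv.1⟩
      have h6 := px_eq hb he hV hVp h ψ h5
      have h7 : 0 ≤ Real.log (1 + nr w c (E c v) ^ 2) :=
        Real.log_nonneg (by nlinarith [sq_nonneg (nr w c (E c v))])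
      have h8 := hv.2
      rw [h6] at h8
      linarith
    rw [h4]
    exact h1
  · have hz' := (hb.mem_target he hV hVp c z).1 hz
    have h1 : pb (rs E hVp) c (px E π w ψ) =ᶠ[𝓝 z]
        fun y => (pb (rs e hV) c ψ (tl y) + Real.log (1 + nr w c y ^ 2)) / 3 := by
      filter_upwards [(rs E hVp c).open_target.mem_nhds hz] with y hy
      exact px_pb hb he hV hVp h ψ hy
    have h2 : ∀ v, D v (pb (rs E hVp) c (px E π w ψ)) z =
        D v (fun y => (pb (rs e hV) c ψ (tl y) + Real.log (1 + nr w c y ^ 2)) / 3) z := by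
      intro v
      unfold D
      rw [h1.fderiv_eq]
    rw [h2, h2]
    refine px_grad (rs e hV c).open_target (hψ.smooth c) (h.g_smooth c) (h.w_smooth c)
      (h.w_pos c) (fun x hx u => ?_) (hψ.grad c) hz'.1 hz'.2 u
    by_cases hu : u = 0
    · rw [hu, levz_zero_vec]
    · exact (h0.g_pos c x hx u hu).le

end Bun

end Pool.Agent.KRFKo
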