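import Pool.Agent.Work.MP_a2bf38_gt.Ko.HolA
import Pool.Agent.Work.MP_a2bf38_gt.Ko.PData
import Pool.Agent.Work.MP_a2bf38_gt.Ko.PExh

/-!
# Theorem G on the total space of the canonical bundle
-/

open scoped ContDiff Topology
open Set MeasureTheory Filter Pool.Agent.ToricKRF Pool.Agent.ToricKRF.G Pool.Agent.KRFS
  Pool.Agent.KRFF Pool.Agent.KRFQ

namespace Pool.Agent.KRFKo

section

variable {M P : Type} [TopologicalSpace M] [TopologicalSpace P] {n : ℕ} {κ : Type}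
  {e : κ → OpenPartialHomeomorph M (Cn n)} {π : P → M}
  {E : κ → OpenPartialHomeomorph P (Cn (n + 1))}

/-- B2e: Theorem G on the bundle -/
theorem exists_hol [T2Space P] [MeasurableSpace P] [BorelSpace P] [Nonempty κ]
    (hb : IsKBun e π E) (he : IsAtlas e) {V : Set M} (hV : IsOpen V)
    (hVp : IsOpen (Vp E π V)) {w g : κ → Cn n → ℝ} (h0 : L2D (rs e hV) V w (kf w))
    (h : L2D (rs e hV) V w g) {ψ : M → ℝ} (hψ : IsExh (rs e hV) V g ψ) {m : ℕ}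
    {W : M → ℝ} (hW : ∀ c, ContDiffOn ℝ ∞ (pb (rs e hV) c W) (rs e hV c).target)
    (hWl : ∀ c, ∀ z ∈ (rs e hV c).target, ∀ v,
      -((m : ℝ) - 1) * levz (kf w c) v z ≤ levz (pb (rs e hV) c W) v z) :
    ∃ μ : Measure P, IsDens (rs E hVp) (fun c y => Real.exp (-wtP (rs e hV) w m W c y)) μ ∧
      μ (Vp E π V)ᶜ = 0 ∧
      ∀ (χ : P → ℂ) (B : P → ℝ), Sm (rs E hVp) χ → MemLp χ 2 μ → (∀ v, 0 ≤ B v) →
        Integrable B μ →
        (∀ c, ∀ y ∈ (rs E hVp c).target, ∀ v,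
          ‖∑ j, dzb j (pb (rs E hVp) c χ) y * (starRingEnd ℂ) (cc v j)‖ ^ 2 ≤
            B ((rs E hVp c).symm y) * levz (kf w c) (tl v) (tl y)) →
        ∃ b : P → ℂ, (∀ c, ContDiffOn ℝ ∞ (pb (rs E hVp) c b) (rs E hVp c).target ∧
          ∀ k, ∀ y ∈ (rs E hVp c).target, dzb k (pb (rs E hVp) c b) y = 0) ∧
          MemLp b 2 μ ∧ ∫ v, ‖χ v - b v‖ ^ 2 ∂μ ≤ ∫ v, B v ∂μ := by
  obtain ⟨⟨ρ, hρ⟩, hwt⟩ := wtP_facts hb he hV hVp h0 hW hWl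
  obtain ⟨ψ', hψ'⟩ := exh_bun hb he hV hVp h0 h hψ
  exact exists_hol_of hb hV hVp h0 (l2d_bun hb he hV hVp h0 h) hψ' hρ hwt

end

end Pool.Agent.KRFKo
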