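import Pool.Agent.Work.MP_a2bf38_gt.Ko.Lev

/-!
# Theorem G on the total space of the canonical bundle
-/

open scoped ContDiff Topology
open Set MeasureTheory Filter Pool.Agent.ToricKRF Pool.Agent.ToricKRF.G Pool.Agent.KRFS
  Pool.Agent.KRFF Pool.Agent.KRFQ

namespace Pool.Agent.KRFKo

section

variable {M : Type} [TopologicalSpace M] {n : ℕ} {κ : Type}
  {e : κ → OpenPartialHomeomorph M (Cn n)} {V : Set M} {w g : κ → Cn n → ℝ}

/-- Countably many charts cover `V` if there is an exhaustion. -/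
theorem exists_seq_charts [Nonempty κ] (hcov : ∀ p ∈ V, ∃ c, p ∈ (e c).source) {ψ : M → ℝ}
    (hψ : IsExh e V g ψ) : ∃ s : ℕ → κ, V ⊆ ⋃ i, (e (s i)).source := by
  have h1 : ∀ k : ℕ, ∃ t : Finset κ, {p | p ∈ V ∧ ψ p ≤ (k : ℝ)} ⊆ ⋃ c ∈ t, (e c).source :=
    fun k => (hψ.cpt k).elim_finite_subcover (fun c => (e c).source) (fun c => (e c).open_source)
      fun p hp => by
        obtain ⟨c, hc⟩ := hcov p hp.1
        exact mem_iUnion.2 ⟨c, hc⟩
  choose t ht using h1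
  have hc : (⋃ k, (t k : Set κ)).Countable := countable_iUnion fun k => (t k).countable_toSet
  obtain ⟨c₀⟩ := ‹Nonempty κ›
  obtain ⟨s, hs⟩ := (hc.insert c₀).exists_eq_range (insert_nonempty _ _)
  refine ⟨s, fun p hp => ?_⟩
  obtain ⟨k, hk⟩ := exists_nat_ge (ψ p)
  obtain ⟨c, hct, hpc⟩ := mem_iUnion₂.1 (ht k ⟨hp, hk⟩)
  have h2 : c ∈ range s := by
    rw [← hs]
    exact mem_insert_of_mem _ (mem_iUnion.2 ⟨k, hct⟩)
  obtain ⟨i, rfl⟩ := h2
  exact mem_iUnion.2 ⟨i, hpc⟩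

/-- The densities of a measure matter only on the targets of the charts. -/
theorem isDens_congr [MeasurableSpace M] {w' : κ → Cn n → ℝ} {μ : Measure M} (h : IsDens e w μ)
    (hw : ∀ c, ∀ z ∈ (e c).target, w' c z = w c z) : IsDens e w' μ where
  eq c := by
    rw [h.eq c]
    congr 1
    refine withDensity_congr_ae ?_
    filter_upwards [ae_restrict_mem (e c).open_target.measurableSet] with z hz
    rw [hw c z hz]

end

section

variable {M P : Type} [TopologicalSpace M] [TopologicalSpace P] {n : ℕ} {κ : Type}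
  {e : κ → OpenPartialHomeomorph M (Cn n)} {π : P → M}
  {E : κ → OpenPartialHomeomorph P (Cn (n + 1))}

theorem tl_mem_of_mem (hb : IsKBun e π E) {V : Set M} (hV : IsOpen V) (hVp : IsOpen (Vp E π V))
    {c : κ} {y : Cn (n + 1)} (hy : y ∈ (rs E hVp c).target) : tl y ∈ (rs e hV c).target := by
  obtain ⟨h1, h2⟩ := (mem_rs_target hVp c).1 hy
  have h3 : tl y ∈ (e c).target := by
    rw [hb.target c] at h1
    exact h1
  refine (mem_rs_target hV c).2 ⟨h3, ?_⟩
  have h4 : (E c).symm y ∈ (E c).source := (E c).map_target h1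
  have h5 := hb.tl_eq c _ h4
  rw [(E c).right_inv h1] at h5
  have h6 : π ((E c).symm y) ∈ (e c).source := by
    rw [hb.source c] at h4
    exact h4
  rw [h5, (e c).left_inv h6]
  exact h2.1

end

section

variable {M P : Type} [TopologicalSpace M] [TopologicalSpace P] {n : ℕ} {κ : Type}
  {e : κ → OpenPartialHomeomorph M (Cn n)} {π : P → M}
  {E : κ → OpenPartialHomeomorph P (Cn (n + 1))}

/-- B2e, from the metric data `l2d_bun`, `exh_bun` and `wtP_facts` -/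
theorem exists_hol_of [T2Space P] [MeasurableSpace P] [BorelSpace P] [Nonempty κ]
    (hb : IsKBun e π E) {V : Set M} (hV : IsOpen V)
    (hVp : IsOpen (Vp E π V)) {w : κ → Cn n → ℝ} (h0 : L2D (rs e hV) V w (kf w))
    {G : κ → Cn (n + 1) → ℝ} (hL : L2D (rs E hVp) (Vp E π V) (fun _ _ => 1) G) {ψ' : P → ℝ}
    (hψ' : IsExh (rs E hVp) (Vp E π V) G ψ') {m : ℕ} {W : M → ℝ} {ρ : P → ℝ}
    (hρ : ∀ c, ∀ y ∈ (rs E hVp c).target,
      pb (rs E hVp) c ρ y = wtP (rs e hV) w m W c y)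
    (hwt : ∀ c, ContDiffOn ℝ ∞ (wtP (rs e hV) w m W c) (rs E hVp c).target ∧
      ∀ y ∈ (rs E hVp c).target, ∀ v,
        levz (kf w c) (tl v) (tl y) ≤ levz (wtP (rs e hV) w m W c) v y) :
    ∃ μ : Measure P, IsDens (rs E hVp) (fun c y => Real.exp (-wtP (rs e hV) w m W c y)) μ ∧
      μ (Vp E π V)ᶜ = 0 ∧
      ∀ (χ : P → ℂ) (B : P → ℝ), Sm (rs E hVp) χ → MemLp χ 2 μ → (∀ v, 0 ≤ B v) →
        Integrable B μ →
        (∀ c, ∀ y ∈ (rs E hVp c).target, ∀ v,
          ‖∑ j, dzb j (pb (rs E hVp) c χ) y * (starRingEnd ℂ) (cc v j)‖ ^ 2 ≤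
            B ((rs E hVp c).symm y) * levz (kf w c) (tl v) (tl y)) →
        ∃ b : P → ℂ, (∀ c, ContDiffOn ℝ ∞ (pb (rs E hVp) c b) (rs E hVp c).target ∧
          ∀ k, ∀ y ∈ (rs E hVp c).target, dzb k (pb (rs E hVp) c b) y = 0) ∧
          MemLp b 2 μ ∧ ∫ v, ‖χ v - b v‖ ^ 2 ∂μ ≤ ∫ v, B v ∂μ := by
  have hρs : ∀ c, ContDiffOn ℝ ∞ (pb (rs E hVp) c ρ) (rs E hVp c).target := fun c =>
    (hwt c).1.congr fun y hy => hρ c y hy
  have hL' := hL.mul_exp hρs
  obtain ⟨s, hs⟩ := exists_seq_charts hL'.cover hψ'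
  obtain ⟨μ, hμV, hμ⟩ := hL'.exists_measure s hs
  have hD : IsDens (rs E hVp) (fun c z => 1 * Real.exp (-pb (rs E hVp) c ρ z)) μ := ⟨hμ⟩
  refine ⟨μ, isDens_congr hD fun c z hz => ?_, hμV, ?_⟩
  · rw [one_mul, hρ c z hz]
  intro χ B hχ hχ2 hB0 hBi hB
  have hkf : ∀ c, ContDiffOn ℝ ∞ (kf w c) (rs e hV c).target := h0.g_smooth
  have hlev : ∀ c, ∀ z ∈ (rs E hVp c).target, ∀ u,
      levz (fun y => kf w c (tl y)) u z = levz (kf w c) (tl u) (tl z) := fun c z hz u =>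
    levz_tl (rs e hV c).open_target (hkf c) (tl_mem_of_mem hb hV hVp hz) u
  obtain ⟨b, hb1, hb2, hle⟩ := hD.hormander hL' hψ' s hs hμV (k := fun c y => kf w c (tl y))
    (c₀ := 1) one_pos (fun c z hz u => by
      rw [hlev c z hz u]
      by_cases hu : tl u = 0
      · rw [hu, levz_zero_vec]
      · exact (h0.g_pos c _ (tl_mem_of_mem hb hV hVp hz) _ hu).le)
    (fun c z hz u => by
      have h1 : (fun x => -Real.log (1 * Real.exp (-pb (rs E hVp) c ρ x))) =ᶠ[𝓝 z]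
          wtP (rs e hV) w m W c := by
        filter_upwards [(rs E hVp c).open_target.mem_nhds hz] with x hx
        rw [one_mul, Real.log_exp, neg_neg, hρ c x hx]
      rw [one_mul, hlev c z hz u, Bd.levz_congr h1 u]
      exact (hwt c).2 z hz u)
    hχ hχ2 hB0 hBi (fun c z hz u => by
      rw [hlev c z hz u]
      exact hB c z hz u)
  refine ⟨b, hb1, hb2, ?_⟩
  rwa [inv_one, one_mul] at hle

end

end Pool.Agent.KRFKo
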