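import Pool.Agent.Work.MP_a2bf38_gt.Ko.Defs
import Pool.Agent.Work.MP_a2bf38_gt.Z.OmegaCompat
import Pool.Agent.Work.MP_a2bf38_gt.Z.NatP
import Pool.Agent.Work.MP_a2bf38_gt.Z.NatZ

/-!
# The metric data near a fibre

`V` is the preimage of a small neighbourhood of `z₀`, with the density `w = Ω exp (-K ∘ f / T)`:
the form of `-log w` is the Kähler form `ω(0) / T` on `V`.
-/

open scoped ContDiff Topology
open Set MeasureTheory Filter Pool.Agent.ToricKRF Pool.Agent.ToricKRF.G Pool.Agent.KRFS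
  Pool.Agent.KRFF Pool.Agent.KRFQ Pool.Agent.KRFZ

namespace Pool.Agent.KRFKo

section Nat

variable {M Z : Type} [MetricSpace M] [CompactSpace M] [MetricSpace Z] {n N : ℕ} {κ P : Type}
  {e : κ → OpenPartialHomeomorph M (Cn n)} {U : P → Set Z} {q : P → Z → Cn N}
  {O : P → Set (Cn N)} {K : P → Cn N → ℝ} {f : M → Z} {T : ℝ} {ψ : κ → ℝ × Cn n → ℝ}
  {Ω : κ → Cn n → ℝ}

/-- the flow in the charts `e`, with `Θ = ψ(0) + T log Ω` -/
noncomputable def flowKo (hT : 0 < T) (he : IsAtlas e) (hZ : IsKahlerSpace U q O K)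
    (hf : IsHolConn e U q f) (hψ : IsKRF e T ψ) (hlim : IsSemiampleLimit e U q f T ψ Ω K) :
    Flow n M κ T where
  e := e
  ψ := ψ
  Ω := Ω
  Θ := fun c z => ψ c (0, z) + T * Real.log (Ω c z)
  atlas := he
  krf := hψ
  vol := hlim.volume
  smooth := NP.theta_smooth hT hψ hlim.volume
  psh := by
    intro c z hz u
    rw [← NP.theta_eq hT hψ hlim.volume c hz u]
    exact NP.limit_nonneg hZ hf hlim c hz u
  theta := fun c z hz u => NP.theta_eq hT hψ hlim.volume c hz u

theorem nsq_smul_Ko {m : ℕ} (a : ℝ) (y : Cn m) : nsq (a • y) = a ^ 2 * nsq y := by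
  simp only [nsq, dotProduct, Prod.smul_fst, Prod.smul_snd, Pi.smul_apply, smul_eq_mul]
  rw [mul_add, Finset.mul_sum, Finset.mul_sum]
  congr 1 <;> refine Finset.sum_congr rfl fun i _ => ?_ <;> ring

/-- B8a: the data near a fibre -/
theorem exists_data (hT : 0 < T) (he : IsAtlas e) (hZ : IsKahlerSpace U q O K)
    (hf : IsHolConn e U q f) (hψ : IsKRF e T ψ) (hlim : IsSemiampleLimit e U q f T ψ Ω K)
    (z₀ : Z) :
    ∃ (V K' : Set M) (hV : IsOpen V) (w g : κ → Cn n → ℝ) (ψ' : M → ℝ) (S : Set Z),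
      IsOpen S ∧ z₀ ∈ S ∧ f ⁻¹' S ⊆ K' ∧ IsCompact K' ∧ K' ⊆ V ∧
      L2D (rs e hV) V w (kf w) ∧ L2D (rs e hV) V w g ∧ IsExh (rs e hV) V g ψ' := by
  have hZc : CompactSpace Z := ⟨by
    rw [← image_univ_of_surjective hf.surj]
    exact isCompact_univ.image hf.cont⟩
  obtain ⟨D⟩ := NZ.exists_data hZ z₀
  set y : Z → Cn N := NZ.sc q D.j D.r z₀ with hy
  have hV : IsOpen (f ⁻¹' D.S) := D.isOpen.preimage hf.cont
  have hcy : ContinuousOn y D.S := by
    have h1 : ContinuousOn (fun z => q D.j z - q D.j z₀) D.S := D.cont.sub continuousOn_const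
    exact h1.const_smul (D.r⁻¹)
  set V : Set M := f ⁻¹' D.S with hVd
  set ρ : M → ℝ := fun p => T⁻¹ * K D.j (q D.j (f p)) with hρ
  set w : κ → Cn n → ℝ := fun c z => Ω c z * Real.exp (-pb (rs e hV) c ρ z) with hw
  -- the target of a chart of `V` is in the domain of `f`
  have hdom : ∀ c, ∀ z ∈ (rs e hV c).target, z ∈ fdom e U f c D.j := fun c z hz => by
    obtain ⟨h1, h2⟩ := (mem_rs_target hV c).1 hz
    exact ⟨h1, D.sub h2⟩
  have hop : ∀ c, IsOpen (fdom e U f c D.j) := fun c =>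
    NP.isOpen_fdom hf.cont (hZ.isOpen D.j) c
  have hKs : ∀ c, ContDiffOn ℝ ∞ (fun z => K D.j (fmap e q f c D.j z)) (fdom e U f c D.j) :=
    fun c => (hZ.smooth D.j).comp (hf.holo c D.j).1 fun z hz => hZ.mem _ _ hz.2
  have hρs : ∀ c, ContDiffOn ℝ ∞ (pb (rs e hV) c ρ) (rs e hV c).target := fun c =>
    contDiffOn_const.mul ((hKs c).mono (hdom c))
  have h1 : L2D (rs e hV) V w (fun c z => ψ c (0, z)) := by
    have h2 := (l2d_flow (flowKo hT he hZ hf hψ hlim) hT).restr hV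
    rw [univ_inter] at h2
    exact h2.mul_exp (ρ := ρ) hρs
  -- the form of `-log w`
  have hlev : ∀ c, ∀ z ∈ (rs e hV c).target, ∀ u,
      levz (kf w c) u z = T⁻¹ * lev (ψ c) u (0, z) := by
    intro c z hz u
    have hzt := rs_target_sub hV c hz
    have hΩp : 0 < Ω c z := hlim.volume.pos c z hzt
    have e1 : kf w c =ᶠ[𝓝 z] fun x => (-1) * Real.log (Ω c x) + pb (rs e hV) c ρ x := by
      filter_upwards [(e c).open_target.mem_nhds hzt] with x hx
      simp only [kf, hw]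
      rw [Real.log_mul (hlim.volume.pos c x hx).ne' (Real.exp_pos _).ne', Real.log_exp]
      ring
    have hΩs : ContDiffAt ℝ 2 (fun x => Real.log (Ω c x)) z :=
      (((hlim.volume.smooth c).contDiffAt ((e c).open_target.mem_nhds hzt)).log
        hΩp.ne').of_le two_le_infty
    have hKs2 : ContDiffAt ℝ 2 (fun x => K D.j (fmap e q f c D.j x)) z :=
      ((hKs c).contDiffAt ((hop c).mem_nhds (hdom c z hz))).of_le two_le_infty
    have e2 : pb (rs e hV) c ρ = fun x => T⁻¹ * K D.j (fmap e q f c D.j x) := rfl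
    rw [Bd.levz_congr e1, e2, Bd.levz_add (contDiffAt_const.mul hΩs) (contDiffAt_const.mul hKs2),
      Bd.levz_const_mul (-1) hΩs, Bd.levz_const_mul T⁻¹ hKs2,
      ← hlim.eq c D.j z (hdom c z hz) u]
    field_simp
    ring
  have h0 : L2D (rs e hV) V w (kf w) :=
    { sub := h1.sub
      cover := h1.cover
      holo := h1.holo
      w_smooth := h1.w_smooth
      w_pos := h1.w_pos
      w_compat := h1.w_compat
      w_lev := h1.w_lev
      g_smooth := fun c => ((h1.w_smooth c).log fun z hz => (h1.w_pos c z hz).ne').neg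
      g_pos := fun c z hz u hu => by
        rw [hlev c z hz u]
        exact mul_pos (inv_pos.2 hT)
          (Bd.lev_psi_pos (flowKo hT he hZ hf hψ hlim) ⟨le_rfl, hT⟩ (rs_target_sub hV c hz) hu)
      g_compat := h1.w_lev }
  -- the exhaustion function
  have hcpt : ∀ R < 100, IsCompact {p | p ∈ V ∧ nsq (y (f p)) ≤ R} := by
    intro R hR
    have h2 : IsClosed (f ⁻¹' {z | z ∈ D.S ∧ nsq (y z) ≤ R}) :=
      (D.compact R hR).isClosed.preimage hf.cont
    exact h2.isCompact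
  have hhol : ∀ c, HolOn (pb (rs e hV) c fun p => (10 : ℝ)⁻¹ • y (f p)) (rs e hV c).target := by
    intro c
    have h2 : HolOn (fmap e q f c D.j) (rs e hV c).target :=
      NF.holOn_mono (hf.holo c D.j) (hdom c)
    have h3 := NT.hol_add_smul (rs e hV c).open_target h2 ((10 : ℝ)⁻¹ * D.r⁻¹)
      (-(((10 : ℝ)⁻¹ * D.r⁻¹) • q D.j z₀))
    refine NF.holOn_congr (rs e hV c).open_target h3 fun x hx => ?_
    simp only [pb, hy, NZ.sc, fmap, smul_sub, smul_smul, rs_symm]
    abel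
  obtain ⟨h2, h3⟩ := h0.exh (F := fun p => (10 : ℝ)⁻¹ • y (f p)) hhol
    (fun p hp => by
      rw [nsq_smul_Ko]
      have := D.lt (f p) hp
      rw [← hy] at this
      linarith)
    (fun R hR => by
      have h4 : {p | p ∈ V ∧ nsq ((10 : ℝ)⁻¹ • y (f p)) ≤ R} =
          {p | p ∈ V ∧ nsq (y (f p)) ≤ 100 * R} := by
        ext p
        simp only [mem_ofPred_eq, nsq_smul_Ko]
        refine and_congr_right fun _ => ?_
        constructor <;> intro h <;> linarith
      rw [h4]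
      exact hcpt _ (by linarith))
  refine ⟨V, {p | p ∈ V ∧ nsq (y (f p)) ≤ 1}, hV, w, _, _, {z | z ∈ D.S ∧ nsq (y z) < 1},
    ?_, ?_, ?_, hcpt 1 (by norm_num), fun p hp => hp.1, h0, h2, h3⟩
  · exact (Pool.Agent.KRFX.NC.contDiff_nsq.continuous.comp_continuousOn hcy).isOpen_inter_preimage
      D.isOpen isOpen_Iio
  · refine ⟨D.mem, ?_⟩
    rw [hy, NZ.sc, sub_self, smul_zero]
    simp [nsq]
  · intro p hp
    exact ⟨hp.1, hp.2.le⟩

end Nat

end Pool.Agent.KRFKo
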