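import Pool.Agent.Work.MP_a2bf38_gt.Ko.Defs

/-!
# The map to the projective space given by sections (helper52)
-/

open scoped ContDiff Topology LinearAlgebra.Projectivization
open Set MeasureTheory Filter Pool.Agent.ToricKRF Pool.Agent.ToricKRF.G Pool.Agent.KRFS
  Pool.Agent.KRFF Pool.Agent.KRFQ Pool.Agent.KRFZ

namespace Pool.Agent.KRFKo

namespace NE

/-- the point of `Cn L` with the coordinates `v` -/
def ofC {L : ℕ} (v : Fin L → ℂ) : Cn L := (fun i => (v i).re, fun i => (v i).im)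

theorem cc_ofC {L : ℕ} (v : Fin L → ℂ) : cc (ofC v) = v := by
  funext i
  apply Complex.ext <;> rfl

theorem hasFDerivAt_ofC {n L : ℕ} {s : Fin L → Cn n → ℂ} {x : Cn n}
    (hs : ∀ i, DifferentiableAt ℝ (s i) x) :
    ∃ F' : Cn n →L[ℝ] Cn L, HasFDerivAt (fun z => ofC fun i => s i z) F' x ∧
      ∀ v, F' v = ofC fun i => fderiv ℝ (s i) x v := by
  have h1 : HasFDerivAt (fun z => fun i => (s i z).re)
      (ContinuousLinearMap.pi fun i => Complex.reCLM.comp (fderiv ℝ (s i) x)) x :=
    hasFDerivAt_pi.2 fun i => Complex.reCLM.hasFDerivAt.comp x (hs i).hasFDerivAt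
  have h2 : HasFDerivAt (fun z => fun i => (s i z).im)
      (ContinuousLinearMap.pi fun i => Complex.imCLM.comp (fderiv ℝ (s i) x)) x :=
    hasFDerivAt_pi.2 fun i => Complex.imCLM.hasFDerivAt.comp x (hs i).hasFDerivAt
  exact ⟨_, h1.prodMk h2, fun v => rfl⟩

theorem holOn_ofC {n L : ℕ} {s : Fin L → Cn n → ℂ} {W : Set (Cn n)} (hW : IsOpen W)
    (hs : ∀ i, NF.HolC (s i) W) : HolOn (fun z => ofC fun i => s i z) W := by
  refine ⟨?_, fun z hz u => ?_⟩
  · have h1 : ContDiffOn ℝ ∞ (fun z => fun i => (s i z).re) W :=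
      contDiffOn_pi.2 fun i => Complex.reCLM.contDiff.comp_contDiffOn (hs i).1
    have h2 : ContDiffOn ℝ ∞ (fun z => fun i => (s i z).im) W :=
      contDiffOn_pi.2 fun i => Complex.imCLM.contDiff.comp_contDiffOn (hs i).1
    exact h1.prodMk h2
  · obtain ⟨F', hF', hv⟩ := hasFDerivAt_ofC (s := s) (x := z)
      fun i => NF.diffAt hW (hs i).1 hz
    rw [hF'.fderiv, hv, hv]
    refine Prod.ext ?_ ?_ <;> funext i
    · change (fderiv ℝ (s i) z (J u)).re = -(fderiv ℝ (s i) z u).im
      rw [(hs i).2 z hz u]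
      simp
    · change (fderiv ℝ (s i) z (J u)).im = (fderiv ℝ (s i) z u).re
      rw [(hs i).2 z hz u]
      simp

end NE

open NE

section

variable {M Z : Type} [MetricSpace M] [CompactSpace M] [MetricSpace Z] {n N : ℕ} {κ P : Type}
  {e : κ → OpenPartialHomeomorph M (Cn n)} {U : P → Set Z} {q : P → Z → Cn N} {f : M → Z}

omit [CompactSpace M] in
/-- B8b: the map to the projective space -/
theorem isEmbOver_of (he : IsAtlas e) {V K' : Set M} (hV : IsOpen V) (hK : K' ⊆ V) {S : Set Z}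
    (hS : f ⁻¹' S ⊆ K') (hSo : IsOpen (f ⁻¹' S)) {m L : ℕ}
    {s : Fin (L + 1) → κ → Cn n → ℂ} (hs : IsEmbK (rs e hV) K' m s) :
    ∃ ι : M → ℙ ℂ (Fin (L + 1) → ℂ), IsEmbOver e U q f S ι := by
  classical
  -- the value of the sections in a chart
  set val : κ → M → Fin (L + 1) → ℂ := fun c p i => s i c (e c p) with hval
  have h1ne : (fun _ : Fin (L + 1) => (1 : ℂ)) ≠ 0 := fun h => one_ne_zero (congrFun h 0)
  set ι : M → ℙ ℂ (Fin (L + 1) → ℂ) := fun p =>
    if h : ∃ c, p ∈ (e c).source ∧ val c p ≠ 0 then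
      Projectivization.mk ℂ (val h.choose p) h.choose_spec.2
    else Projectivization.mk ℂ _ h1ne with hι
  have hrs : ∀ {c : κ} {z : Cn n}, z ∈ (e c).target → (e c).symm z ∈ K' →
      z ∈ (rs e hV c).target := fun {c z} hz hzK =>
    (mem_rs_target hV c).2 ⟨hz, hK hzK⟩
  have hne : ∀ {c : κ} {p : M}, p ∈ (e c).source → p ∈ K' → val c p ≠ 0 := by
    intro c p hp hpK h0
    have h1 : (e c).symm (e c p) = p := (e c).left_inv hp
    obtain ⟨i, hi⟩ := hs.ne c (e c p) (hrs ((e c).map_source hp) (by rwa [h1]))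
      (by change (e c).symm (e c p) ∈ K'; rwa [h1])
    exact hi (congrFun h0 i)
  -- the value in two charts
  have hιp : ∀ {c : κ} {p : M} (hp : p ∈ (e c).source) (hpK : p ∈ K'),
      ι p = Projectivization.mk ℂ (val c p) (hne hp hpK) := by
    intro c p hp hpK
    have h : ∃ c, p ∈ (e c).source ∧ val c p ≠ 0 := ⟨c, hp, hne hp hpK⟩
    have h1 : ι p = Projectivization.mk ℂ (val h.choose p) h.choose_spec.2 := by
      rw [hι]
      simp only [dif_pos h]
    rw [h1, Projectivization.mk_eq_mk_iff']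
    set c' := h.choose with hc'
    have hp' : p ∈ (e c').source := h.choose_spec.1
    have h2 : (e c).symm (e c p) = p := (e c).left_inv hp
    have hdom : e c p ∈ dom (rs e hV) c c' := by
      refine ⟨hrs ((e c).map_source hp) (by rwa [h2]), ?_⟩
      change (e c).symm (e c p) ∈ (rs e hV c').source
      rw [rs_source, h2]
      exact ⟨hp', hK hpK⟩
    refine ⟨(Jm (tr (rs e hV) c c') (e c p)).det ^ m, ?_⟩
    funext i
    have h3 := (hs.sect i).compat c c' (e c p) hdom
    have h4 : tr (rs e hV) c c' (e c p) = e c' p := by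
      change e c' ((e c).symm (e c p)) = e c' p
      rw [h2]
    rw [h4] at h3
    exact h3.symm
  refine ⟨ι, ⟨fun c x hx hxS => ?_, fun p p' hp hpp' hιpp' => ?_⟩⟩
  · -- the lifts
    set W : Set (Cn n) := (e c).target ∩ (e c).symm ⁻¹' (f ⁻¹' S) with hW
    have hWo : IsOpen W := (e c).isOpen_inter_preimage_symm hSo
    have hWr : W ⊆ (rs e hV c).target := fun z hz => hrs hz.1 (hS hz.2)
    have hhol : ∀ i, NF.HolC (s i c) W := fun i =>
      ⟨((hs.sect i).holo c).1.mono hWr, fun z hz u => ((hs.sect i).holo c).2 z (hWr hz) u⟩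
    refine ⟨fun z => ofC fun i => s i c z, W, ⟨hx, hxS⟩, ⟨hWo, fun z hz => hz.1,
      holOn_ofC hWo hhol, fun z hz => ?_⟩, fun j hj v hv hab => ?_⟩
    · have hzs : (e c).symm z ∈ (e c).source := (e c).map_target hz.1
      have h1 := hιp hzs (hS hz.2)
      have h2 : val c ((e c).symm z) = cc (ofC fun i => s i c z) := by
        rw [cc_ofC]
        funext i
        simp only [hval]
        rw [(e c).right_inv hz.1]
      refine ⟨h2 ▸ hne hzs (hS hz.2), ?_⟩
      rw [h1]
      congr 1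
    · obtain ⟨a, b, hab⟩ := hab
      obtain ⟨F', hF', hv'⟩ := hasFDerivAt_ofC (s := fun i => s i c) (x := x)
        fun i => NF.diffAt hWo (hhol i).1 ⟨hx, hxS⟩
      rw [hF'.fderiv, hv'] at hab
      refine hs.imm c x (hWr ⟨hx, hxS⟩) (hS hxS) v ⟨⟨a, b⟩, fun i => ?_⟩
      have h1 := congrArg (fun y => cc y i) hab
      simp only [cc_ofC] at h1
      rw [h1]
      apply Complex.ext <;> simp [cc, ofC, J] <;> ring
  · -- injectivity
    have hpK : p ∈ K' := hS hp
    have hpK' : p' ∈ K' := hS (by rw [mem_preimage, ← hpp']; exact hp)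
    obtain ⟨c, hc⟩ := he.cover p
    obtain ⟨c', hc'⟩ := he.cover p'
    rw [hιp hc hpK, hιp hc' hpK', Projectivization.mk_eq_mk_iff'] at hιpp'
    obtain ⟨a, ha⟩ := hιpp'
    have h1 : (e c).symm (e c p) = p := (e c).left_inv hc
    have h2 : (e c').symm (e c' p') = p' := (e c').left_inv hc'
    have h3 := hs.inj c (e c p) (hrs ((e c).map_source hc) (by rwa [h1]))
      (by change (e c).symm (e c p) ∈ K'; rwa [h1]) c' (e c' p')
      (hrs ((e c').map_source hc') (by rwa [h2]))
      (by change (e c').symm (e c' p') ∈ K'; rwa [h2])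
      ⟨a, fun i => (congrFun ha i).symm⟩
    change (e c).symm (e c p) = (e c').symm (e c' p') at h3
    rwa [h1, h2] at h3

end

end Pool.Agent.KRFKo
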