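import Pool.Agent.Work.MP_a2bf38_gt.Ko.Section
import Pool.Agent.Work.MP_a2bf38_gt.Ko.Embed
import Pool.Agent.Work.MP_a2bf38_gt.Ko.NatData
import Pool.Agent.Work.MP_a2bf38_gt.Ko.NatEmb

/-!
# KRF VIII, part B: the fibres of a semiample limit are embedded in a projective space, locally
over the base

Let `f : M → Z` be the map of the semiample limit: `M` compact, the Kähler-Ricci flow on
`[0, T)` with potentials `ψ`, and `T` times the canonical class plus the initial Kähler class is
the pull back of a Kähler class `K` of `Z` (`IsSemiampleLimit`).  Near every point `z₀` of `Z`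
the initial Kähler form is, up to `i ∂∂bar` of functions, `T` times the curvature of the canonical
bundle (the form `K` has local potentials on `Z`), so the powers of the canonical bundle or its
dual have sections on `f ⁻¹ (S)` which embed it in a projective space over `S` (Kodaira; here by
Theorem G on the total space of the bundle).
-/

open scoped ContDiff Topology LinearAlgebra.Projectivization
open Set MeasureTheory Filter Pool.Agent.ToricKRF Pool.Agent.ToricKRF.G Pool.Agent.KRFS
  Pool.Agent.KRFF Pool.Agent.KRFQ Pool.Agent.KRFZ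

namespace Pool.Agent.KRFKo

variable {M Z : Type} [MetricSpace M] [CompactSpace M] [MetricSpace Z] {n N : ℕ} {κ P : Type}
  {e : κ → OpenPartialHomeomorph M (Cn n)} {U : P → Set Z} {q : P → Z → Cn N}
  {O : P → Set (Cn N)} {K : P → Cn N → ℝ} {f : M → Z} {T : ℝ} {ψ : κ → ℝ × Cn n → ℝ}
  {Ω : κ → Cn n → ℝ}

/-- **Relative Kodaira embedding.**  Locally over `Z` the space `M` is embedded in a projective
space: every point of `Z` has a neighbourhood `S` and a map `ι : M → ℙ^L` which is given by
holomorphic homogeneous coordinates near every point of `f ⁻¹ (S)` and, with `f`, is an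
embedding of `f ⁻¹ (S)`. -/
theorem exists_embOver (hT : 0 < T) (he : IsAtlas e) (hZ : IsKahlerSpace U q O K)
    (hf : IsHolConn e U q f) (hψ : IsKRF e T ψ) (hlim : IsSemiampleLimit e U q f T ψ Ω K)
    (z₀ : Z) :
    ∃ (S : Set Z) (L : ℕ) (ι : M → ℙ ℂ (Fin (L + 1) → ℂ)), IsOpen S ∧ z₀ ∈ S ∧
      IsEmbOver e U q f S ι := by
  obtain ⟨V, K', hV, w, g, ψ', S, hS, hz₀, hSK, hK', hKV, h0, h, hψ'⟩ :=
    exists_data hT he hZ hf hψ hlim z₀
  obtain ⟨m, L, s, hs⟩ := exists_embed h0 (hasSec he hV h0 h hψ') hK' hKV
  obtain ⟨ι, hι⟩ := isEmbOver_of (U := U) (q := q) he hV hKV hSK (hS.preimage hf.cont) hs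
  exact ⟨S, L, ι, hS, hz₀, hι⟩

end Pool.Agent.KRFKo
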