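import Pool.Agent.Work.MP_a2bf38_gt.Ko.Defs
import Pool.Agent.Work.MP_a2bf38_gt.Ko.Cauchy

/-!
# KRF VIII, B6a: mean values of holomorphic functions (helper53)
-/

open scoped ContDiff Topology ENNReal
open Set MeasureTheory Filter Pool.Agent.ToricKRF Pool.Agent.ToricKRF.G Pool.Agent.KRFS
  Pool.Agent.KRFF Pool.Agent.KRFQ

namespace Pool.Agent.KRFKo

theorem nsq_eR {n : ℕ} (k : Fin n) : nsq (eR k) = 1 := by
  simp [nsq, eR]

theorem nsq_eI {n : ℕ} (k : Fin n) : nsq (eI k) = 1 := by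
  simp [nsq, eI]

theorem isOpen_nball {n : ℕ} (z₀ : Cn n) (ε : ℝ) : IsOpen {z : Cn n | nsq (z - z₀) < ε} := by
  refine isOpen_lt ?_ continuous_const
  unfold nsq dotProduct
  fun_prop

/-- B6a: mean values of holomorphic functions: there is `C` with
`|h(z₀)|^2 + ε^2 |∂_k h(z₀)|^2 ≤ C ε^(-2n) ∫ |h|^2` -/
theorem holC_mean (n : ℕ) : ∃ C : ℝ, 0 < C ∧ ∀ (h : Cn n → ℂ) (z₀ : Cn n) (ε : ℝ), 0 < ε →
    NF.HolC h {z | nsq (z - z₀) < ε ^ 2} →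
    ENNReal.ofReal ((‖h z₀‖ ^ 2 + ∑ k, ε ^ 2 * ‖dz k h z₀‖ ^ 2) * ε ^ (2 * n)) ≤
      ENNReal.ofReal C * ∫⁻ z in {z | nsq (z - z₀) < ε ^ 2}, ENNReal.ofReal (‖h z‖ ^ 2) := by
  obtain ⟨C, hC, hjet⟩ := jet_le n
  refine ⟨C * (2 ^ (2 * n) + n * 2 ^ (2 * n + 2)), by positivity, ?_⟩
  intro h z₀ ε hε hh
  set Il := ∫⁻ z in {z | nsq (z - z₀) < ε ^ 2}, ENNReal.ofReal (‖h z‖ ^ 2) with hIl
  rcases eq_or_ne Il ⊤ with htop | htop
  · rw [htop, ENNReal.mul_top]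
    · exact le_top
    · exact (ENNReal.ofReal_pos.2 (by positivity)).ne'
  set I := Il.toReal with hI
  have hI0 : 0 ≤ I := ENNReal.toReal_nonneg
  have hIe : Il = ENNReal.ofReal I := (ENNReal.ofReal_toReal htop).symm
  have hsub : {w | nsq (w - z₀) ≤ (ε / 2) ^ 2} ⊆ {z | nsq (z - z₀) < ε ^ 2} := by
    intro w hw
    have hw' : nsq (w - z₀) ≤ (ε / 2) ^ 2 := hw
    change nsq (w - z₀) < ε ^ 2
    nlinarith [sq_pos_of_pos hε]
  obtain ⟨h0, h1⟩ := hjet (isOpen_nball z₀ (ε ^ 2)) hh (z := z₀) (r := ε / 2) (by positivity) hsub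
    hI0 ((lintegral_mono_set hsub).trans hIe.le)
  have hk : ∀ k : Fin n, ‖dz k h z₀‖ ^ 2 ≤ C * I / (ε / 2) ^ (2 * n + 2) := by
    intro k
    have hR := h1 (eR k)
    have hJ := h1 (eI k)
    rw [nsq_eR, mul_one] at hR
    rw [nsq_eI, mul_one] at hJ
    have h2 : ‖dz k h z₀‖ ≤ (‖fderiv ℝ h z₀ (eR k)‖ + ‖fderiv ℝ h z₀ (eI k)‖) / 2 := by
      unfold dz
      rw [norm_div, Complex.norm_ofNat]
      refine div_le_div_of_nonneg_right ((norm_sub_le _ _).trans ?_) (by norm_num)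
      rw [norm_mul, Complex.norm_I, one_mul]
    have h3 := pow_le_pow_left₀ (norm_nonneg _) h2 2
    nlinarith [sq_nonneg (‖fderiv ℝ h z₀ (eR k)‖ - ‖fderiv ℝ h z₀ (eI k)‖)]
  rw [hIe, ← ENNReal.ofReal_mul (by positivity)]
  refine ENNReal.ofReal_le_ofReal ?_
  have hs : ∑ k : Fin n, ε ^ 2 * ‖dz k h z₀‖ ^ 2 ≤ n * (ε ^ 2 * (C * I / (ε / 2) ^ (2 * n + 2))) := by
    refine (Finset.sum_le_sum fun k _ => mul_le_mul_of_nonneg_left (hk k) (by positivity)).trans ?_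
    simp
  calc (‖h z₀‖ ^ 2 + ∑ k, ε ^ 2 * ‖dz k h z₀‖ ^ 2) * ε ^ (2 * n)
      ≤ (C * I / (ε / 2) ^ (2 * n) + n * (ε ^ 2 * (C * I / (ε / 2) ^ (2 * n + 2)))) *
          ε ^ (2 * n) := by gcongr
    _ = C * (2 ^ (2 * n) + n * 2 ^ (2 * n + 2)) * I := by
        rw [div_pow, div_pow]
        have : ε ^ (2 * n + 2) = ε ^ (2 * n) * ε ^ 2 := pow_add _ _ _
        rw [this]
        field_simp

end Pool.Agent.KRFKo
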