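import Pool.Agent.Work.MP_a2bf38_gt.Ko.Bun

/-!
# Compact sets of the canonical bundle without the zero section
-/

open scoped ContDiff Topology
open Set Filter Pool.Agent.ToricKRF Pool.Agent.ToricKRF.G Pool.Agent.KRFS Pool.Agent.KRFF
  Pool.Agent.KRFQ

namespace Pool.Agent.KRFKo

section

variable {M P : Type} [TopologicalSpace M] [TopologicalSpace P] {n : ℕ} {κ : Type}
  {e : κ → OpenPartialHomeomorph M (Cn n)} {π : P → M}
  {E : κ → OpenPartialHomeomorph P (Cn (n + 1))}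

/-- the norm as a function on the bundle -/
theorem IsKBun.exists_nr (hb : IsKBun e π E) (he : IsAtlas e) {V : Set M} (hV : IsOpen V)
    (hVp : IsOpen (Vp E π V)) {w g : κ → Cn n → ℝ} (h : L2D (rs e hV) V w g) :
    ∃ r : P → ℝ, ∀ c, ∀ y ∈ (rs E hVp c).target, pb (rs E hVp) c r y = nr w c y := by
  refine ⟨fun v => (glob (rs E hVp) (fun c y => (nr w c y : ℂ)) v).re, fun c y hy => ?_⟩
  have h1 : ∀ c c', ∀ y ∈ dom (rs E hVp) c c',
      (nr w c' (tr (rs E hVp) c c' y) : ℂ) = (nr w c y : ℂ) := by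
    intro c c' y hy
    obtain ⟨h1, h2⟩ := (hb.mem_target he hV hVp c y).1 hy.1
    have h3 := (hb.mem_dom c c' y).1 (dom_rs hVp c c' hy)
    have h4 : tl y ∈ dom (rs e hV) c c' := by
      refine ⟨h1, ?_⟩
      rw [rs_source]
      exact ⟨h3.2, ((mem_rs_target hV c).1 h1).2⟩
    congr 1
    exact hb.nr_tr he hV h h4 h2
  have h2 := pb_glob (F := fun c y => (nr w c y : ℂ)) h1 hy
  have h3 : pb (rs E hVp) c (fun v => (glob (rs E hVp) (fun c y => (nr w c y : ℂ)) v).re) y =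
      (pb (rs E hVp) c (glob (rs E hVp) (fun c y => (nr w c y : ℂ))) y).re := rfl
  rw [h3, h2, Complex.ofReal_re]

theorem abs_nr_le {w : κ → Cn n → ℝ} {c : κ} {y : Cn (n + 1)} (hw : 0 < w c (tl y))
    (h0 : hd y ≠ 0) (R : ℝ) : |nr w c y| ≤ R ↔
      Real.exp (-R) * w c (tl y) ≤ ‖hd y‖ ^ 2 ∧ ‖hd y‖ ^ 2 ≤ Real.exp R * w c (tl y) := by
  have h1 : 0 < ‖hd y‖ ^ 2 := by
    have : 0 < ‖hd y‖ := norm_pos_iff.2 h0
    positivity
  have h2 : ‖hd y‖ ^ 2 = Real.exp (nr w c y) * w c (tl y) := by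
    rw [nr, Real.exp_sub, Real.exp_log h1, Real.exp_log hw]
    field_simp
  rw [h2, mul_le_mul_iff_left₀ hw, mul_le_mul_iff_left₀ hw, Real.exp_le_exp, Real.exp_le_exp,
    abs_le]

/-- the points of a chart with bounded norm over a compact set -/
theorem isCompact_chart {w : κ → Cn n → ℝ} {c : κ} {B : Set (Cn n)} (hB : IsCompact B)
    (hw : ContinuousOn (w c) B) (hw0 : ∀ x ∈ B, 0 < w c x) (R : ℝ) :
    IsCompact {y : Cn (n + 1) | tl y ∈ B ∧ hd y ≠ 0 ∧ |nr w c y| ≤ R} := by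
  obtain ⟨C, hC⟩ := hB.exists_bound_of_continuousOn hw
  set A : Set (ℂ × Cn n) := Metric.closedBall 0 (1 + Real.exp R * C) ×ˢ B with hA
  have hAc : IsCompact A := (isCompact_closedBall _ _).prod hB
  have hwA : ContinuousOn (fun q : ℂ × Cn n => w c q.2) A :=
    hw.comp continuousOn_snd fun q hq => hq.2
  have hnA : ContinuousOn (fun q : ℂ × Cn n => ‖q.1‖ ^ 2) A := by fun_prop
  have h1 : IsClosed {q ∈ A | Real.exp (-R) * w c q.2 ≤ ‖q.1‖ ^ 2} :=
    hAc.isClosed.isClosed_le (continuousOn_const.mul hwA) hnA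
  have h2 : IsClosed {q ∈ A | ‖q.1‖ ^ 2 ≤ Real.exp R * w c q.2} :=
    hAc.isClosed.isClosed_le hnA (continuousOn_const.mul hwA)
  have h3 : IsCompact (A ∩ ({q ∈ A | Real.exp (-R) * w c q.2 ≤ ‖q.1‖ ^ 2} ∩
      {q ∈ A | ‖q.1‖ ^ 2 ≤ Real.exp R * w c q.2})) := hAc.inter_right (h1.inter h2)
  have h4 := h3.image (contDiff_jn (n := n)).continuous
  refine Eq.mp (congrArg IsCompact ?_) h4
  ext y
  constructor
  · rintro ⟨⟨ξ, x⟩, ⟨hq, hq1, hq2⟩, rfl⟩
    have hx : x ∈ B := hq.2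
    have h5 : 0 < w c x := hw0 x hx
    have h6 : 0 < ‖ξ‖ ^ 2 := lt_of_lt_of_le (by positivity) hq1.2
    have h7 : hd (jn ξ x) ≠ 0 := by
      rw [hd_jn]
      rintro rfl
      simp at h6
    refine ⟨hx, h7, (abs_nr_le (y := jn ξ x) h5 h7 R).2 ⟨hq1.2, hq2.2⟩⟩
  · rintro ⟨h5, h6, h7⟩
    have h8 := (abs_nr_le (hw0 _ h5) h6 R).1 h7
    have h9 : (hd y, tl y) ∈ A := by
      refine ⟨?_, h5⟩
      rw [mem_closedBall_zero_iff]
      have h10 : w c (tl y) ≤ C := (le_abs_self _).trans (hC _ h5)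
      have h11 : ‖hd y‖ ^ 2 ≤ Real.exp R * C := h8.2.trans (by gcongr)
      by_contra h12
      push Not at h12
      have h13 : 0 ≤ Real.exp R * C := by
        have := (hw0 _ h5).le.trans h10
        positivity
      change 1 + Real.exp R * C < ‖hd y‖ at h12
      nlinarith [norm_nonneg (hd y)]
    exact ⟨(hd y, tl y), ⟨h9, ⟨h9, h8.1⟩, ⟨h9, h8.2⟩⟩, jn_hd_tl y⟩

/-- the points with bounded norm over a compact set -/
theorem IsKBun.isCompact_nr [T2Space M] (hb : IsKBun e π E) (he : IsAtlas e) {V : Set M}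
    (hV : IsOpen V) (hVp : IsOpen (Vp E π V)) {w g : κ → Cn n → ℝ}
    (h : L2D (rs e hV) V w g) {r : P → ℝ}
    (hr : ∀ c, ∀ y ∈ (rs E hVp c).target, pb (rs E hVp) c r y = nr w c y) {K : Set M}
    (hK : IsCompact K) (hKV : K ⊆ V) (R : ℝ) :
    IsCompact {v | v ∈ Vp E π V ∧ π v ∈ K ∧ |r v| ≤ R} := by
  rcases K.eq_empty_or_nonempty with rfl | ⟨p₀, hp₀⟩
  · simp
  have hne : Nonempty κ := ⟨(h.cover p₀ (hKV hp₀)).choose⟩
  have h1 : ∀ p ∈ K, ∃ (c : κ) (B : Set (Cn n)), IsCompact B ∧ B ⊆ (rs e hV c).target ∧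
      (rs e hV c).symm '' B ∈ 𝓝 p := by
    intro p hp
    obtain ⟨c, hc⟩ := h.cover p (hKV hp)
    obtain ⟨B, hBc, hB1, hB2⟩ := exists_compact_subset (rs e hV c).open_target
      ((rs e hV c).map_source hc)
    refine ⟨c, B, hBc, hB2, ?_⟩
    have h2 : (rs e hV c).symm '' B ∈ 𝓝 ((rs e hV c).symm (rs e hV c p)) :=
      (rs e hV c).symm.image_mem_nhds ((rs e hV c).map_source hc) (mem_interior_iff_mem_nhds.1 hB1)
    rwa [(rs e hV c).left_inv hc] at h2
  choose! c B hBc hBt hBn using h1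
  obtain ⟨t, ht1, ht2⟩ := hK.elim_nhds_subcover (fun p => (rs e hV (c p)).symm '' B p) hBn
  have h2 : ∀ p ∈ t, IsCompact ((E (c p)).symm '' {y : Cn (n + 1) | tl y ∈ B p ∧ hd y ≠ 0 ∧
      |nr w (c p) y| ≤ R}) := by
    intro p hp
    have hpK := ht1 p hp
    refine (isCompact_chart (hBc p hpK) ((h.w_smooth (c p)).continuousOn.mono (hBt p hpK))
      (fun x hx => h.w_pos _ x (hBt p hpK hx)) R).image_of_continuousOn
      ((E (c p)).continuousOn_symm.mono fun y hy => ?_)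
    rw [hb.target]
    exact rs_target_sub hV _ (hBt p hpK hy.1)
  have h3 : IsCompact (⋃ p ∈ t, (E (c p)).symm '' {y : Cn (n + 1) | tl y ∈ B p ∧ hd y ≠ 0 ∧
      |nr w (c p) y| ≤ R}) := t.finite_toSet.isCompact_biUnion h2
  have h4 := h3.inter_right (hK.isClosed.preimage hb.cont)
  refine Eq.mp (congrArg IsCompact ?_) h4
  ext v
  simp only [mem_inter_iff, mem_iUnion, mem_image, mem_preimage, exists_prop]
  constructor
  · rintro ⟨⟨p, hp, y, ⟨hy1, hy2, hy3⟩, rfl⟩, hv⟩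
    have hy : y ∈ (rs E hVp (c p)).target :=
      (hb.mem_target he hV hVp (c p) y).2 ⟨hBt p (ht1 p hp) hy1, hy2⟩
    refine ⟨((mem_rs_target hVp _).1 hy).2, hv, ?_⟩
    have h5 := hr (c p) y hy
    have h6 : r ((E (c p)).symm y) = nr w (c p) y := h5
    rw [h6]
    exact hy3
  · rintro ⟨hv1, hv2, hv3⟩
    refine ⟨?_, hv2⟩
    obtain ⟨p, hp, x, hx, hxv⟩ := by
      simpa only [mem_iUnion, mem_image, exists_prop] using ht2 hv2
    have hxt := hBt p (ht1 p hp) hx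
    have h5 : π v ∈ (e (c p)).source := by
      have h6 := (rs e hV (c p)).map_target hxt
      rw [hxv, rs_source] at h6
      exact h6.1
    have h6 : v ∈ (E (c p)).source := by
      rw [hb.source]
      exact h5
    have h7 : tl (E (c p) v) = x := by
      rw [hb.tl_eq _ v h6, ← hxv]
      exact (e (c p)).right_inv (rs_target_sub hV _ hxt)
    have h8 : v ∈ (rs E hVp (c p)).source := by
      rw [rs_source]
      exact ⟨h6, hv1⟩
    have h9 : E (c p) v ∈ (rs E hVp (c p)).target := (rs E hVp (c p)).map_source h8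
    have h10 := hr (c p) _ h9
    have h11 : r v = nr w (c p) (E (c p) v) := by
      rw [← h10]
      change r v = r ((E (c p)).symm (E (c p) v))
      rw [(E (c p)).left_inv h6]
    refine ⟨p, hp, E (c p) v, ⟨by rw [h7]; exact hx, ((hb.mem_target he hV hVp _ _).1 h9).2, ?_⟩,
      (E (c p)).left_inv h6⟩
    rw [← h11]
    exact hv3

end

end Pool.Agent.KRFKo
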