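import Pool.Agent.Work.MP_a2bf38_gt.Ko.PoleLoc
import Pool.Agent.Work.MP_a2bf38_gt.X.GlueA

/-!
# The logarithmic pole with a cut-off as a function on the manifold
-/

open scoped ContDiff Topology
open Set Filter Pool.Agent.ToricKRF Pool.Agent.ToricKRF.G Pool.Agent.KRFS Pool.Agent.KRFQ

namespace Pool.Agent.KRFKo

section

variable {M : Type} [TopologicalSpace M] {n : ℕ} {κ : Type}
  {e : κ → OpenPartialHomeomorph M (Cn n)} {V : Set M} {w g : κ → Cn n → ℝ}

/-- The chart `c` contains the ball of radius `√b` around `p`, on which the metric is at least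
`1 / C` times the Euclidean metric. -/
def GoodChart (e : κ → OpenPartialHomeomorph M (Cn n)) (g : κ → Cn n → ℝ) (b C : ℝ) (p : M)
    (c : κ) : Prop :=
  p ∈ (e c).source ∧ ∀ z, nsq (z - e c p) ≤ b → z ∈ (e c).target ∧
    ∀ u, nsq u ≤ C * levz (g c) u z

theorem nsq_sub_le {x y z : Cn n} {R : ℝ} (hxy : nsq (x - y) ≤ R) (hyz : nsq (y - z) ≤ R) :
    nsq (x - z) ≤ 4 * R := by
  have h1 : x - z = (x - y) + (y - z) := by abel
  have h2 : nsq (x - z) + nsq ((x - y) - (y - z)) = 2 * nsq (x - y) + 2 * nsq (y - z) := by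
    rw [h1]
    simp only [nsq, Prod.fst_add, Prod.snd_add, Prod.fst_sub, Prod.snd_sub, add_dotProduct,
      dotProduct_add, sub_dotProduct, dotProduct_sub]
    ring
  have h3 := Pool.Agent.KRFX.NC.nsq_nonneg ((x - y) - (y - z))
  linarith

theorem L2D.goodChart_local (h : L2D e V w g) {p₀ : M} (hp₀ : p₀ ∈ V) :
    ∃ b C : ℝ, 0 < b ∧ b ≤ 1 ∧ 0 ≤ C ∧ ∀ᶠ p in 𝓝 p₀, ∃ c, GoodChart e g b C p c := by
  obtain ⟨c, hc⟩ := h.cover p₀ hp₀
  have hz₀ : e c p₀ ∈ (e c).target := (e c).map_source hc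
  have hsm : ContDiffOn ℝ ∞ (fun x : Cn n => nsq x) (e c).target :=
    Pool.Agent.KRFX.NC.contDiff_nsq.contDiffOn
  obtain ⟨C, hC, hev⟩ := Bd.levz_le_local (e c).open_target hsm (h.g_smooth c) hz₀
    (fun x hx u hu => h.g_pos c x hx u hu)
  have hev2 : ∀ᶠ x in 𝓝 (e c p₀), x ∈ (e c).target ∧ ∀ u, nsq u ≤ C * levz (g c) u x := by
    filter_upwards [hev, (e c).open_target.mem_nhds hz₀] with x hx hx'
    refine ⟨hx', fun u => ?_⟩
    have := hx u
    rwa [show (fun x : Cn n => nsq x) = nsq from rfl, Pool.Agent.KRFF.Gap.levz_nsq'] at this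
  obtain ⟨ρ, hρ, hball⟩ := Metric.eventually_nhds_iff.1 hev2
  -- radius
  set R : ℝ := min (ρ / 4) (1 / 2) with hR
  have hR0 : 0 < R := lt_min (by positivity) (by norm_num)
  have hR1 : R ≤ ρ / 4 := min_le_left _ _
  have hR2 : R ≤ 1 / 2 := min_le_right _ _
  refine ⟨R ^ 2, C, by positivity, by nlinarith, hC, ?_⟩
  have hcont : ContinuousAt (fun p => nsq (e c p - e c p₀)) p₀ :=
    Pool.Agent.KRFX.NC.contDiff_nsq.continuous.continuousAt.comp
      (((e c).continuousAt hc).sub continuousAt_const)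
  have h0 : nsq (e c p₀ - e c p₀) < R ^ 2 := by
    rw [sub_self, Pool.Agent.KRFX.NC.nsq_eq_zero.2 rfl]
    positivity
  filter_upwards [hcont.eventually (isOpen_Iio.mem_nhds h0), (e c).open_source.mem_nhds hc] with
    p hp hps
  refine ⟨c, hps, fun z hz => ?_⟩
  have hp' : nsq (e c p - e c p₀) ≤ R ^ 2 := le_of_lt hp
  have h1 := nsq_sub_le hz hp'
  have h2 := (Pool.Agent.KRFX.GA.norm_sq_le (z - e c p₀)).trans h1
  have h3 : ‖z - e c p₀‖ ≤ 2 * R := by
    refine le_of_sq_le_sq ?_ (by positivity)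
    nlinarith
  refine hball ?_
  rw [dist_eq_norm]
  linarith

theorem GoodChart.mono {b b' C C' : ℝ} {p : M} {c : κ} (h : GoodChart e g b C p c) (hb : b' ≤ b)
    (hC : C ≤ C') (hC0 : 0 < C ∨ 0 ≤ C) : GoodChart e g b' C' p c := by
  refine ⟨h.1, fun z hz => ⟨(h.2 z (hz.trans hb)).1, fun u => ?_⟩⟩
  have h1 := (h.2 z (hz.trans hb)).2 u
  have h2 := Pool.Agent.KRFX.NC.nsq_nonneg u
  have hC' : 0 ≤ C := by
    rcases hC0 with h | h
    · exact h.le
    · exact h
  by_cases hl : 0 ≤ levz (g c) u z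
  · exact h1.trans (mul_le_mul_of_nonneg_right hC hl)
  · push Not at hl
    have h3 : C * levz (g c) u z ≤ 0 := mul_nonpos_of_nonneg_of_nonpos hC' hl.le
    have h4 : nsq u = 0 := le_antisymm (h1.trans h3) h2
    have h5 : u = 0 := Pool.Agent.KRFX.NC.nsq_eq_zero.1 h4
    rw [h5, levz_zero_vec] at hl
    exact absurd hl (lt_irrefl _)

theorem L2D.goodChart (h : L2D e V w g) {K : Set M} (hK : IsCompact K) (hKV : K ⊆ V) :
    ∃ b C : ℝ, 0 < b ∧ b ≤ 1 ∧ 0 ≤ C ∧ ∀ p ∈ K, ∃ c, GoodChart e g b C p c := by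
  refine hK.induction_on (p := fun S => ∃ b C : ℝ, 0 < b ∧ b ≤ 1 ∧ 0 ≤ C ∧
    ∀ p ∈ S, ∃ c, GoodChart e g b C p c) ?_ ?_ ?_ ?_
  · exact ⟨1, 0, by norm_num, le_rfl, le_rfl, fun p hp => hp.elim⟩
  · rintro S S' hS ⟨b, C, h1, h2, h3, h4⟩
    exact ⟨b, C, h1, h2, h3, fun p hp => h4 p (hS hp)⟩
  · rintro S S' ⟨b, C, h1, h2, h3, h4⟩ ⟨b', C', h1', h2', h3', h4'⟩
    refine ⟨min b b', max C C', lt_min h1 h1', (min_le_left _ _).trans h2,
      h3.trans (le_max_left _ _), ?_⟩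
    rintro p (hp | hp)
    · obtain ⟨c, hc⟩ := h4 p hp
      exact ⟨c, hc.mono (min_le_left _ _) (le_max_left _ _) (Or.inr h3)⟩
    · obtain ⟨c, hc⟩ := h4' p hp
      exact ⟨c, hc.mono (min_le_right _ _) (le_max_right _ _) (Or.inr h3')⟩
  · intro p hp
    obtain ⟨b, C, h1, h2, h3, h4⟩ := L2D.goodChart_local h (hKV hp)
    exact ⟨_, mem_nhdsWithin_of_mem_nhds h4, b, C, h1, h2, h3, fun q hq => hq⟩

/-- the pole at `p` -/
noncomputable def poleM (e : κ → OpenPartialHomeomorph M (Cn n)) (b : ℝ) (c : κ) (p : M) (ε : ℝ)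
    (q : M) : ℝ := by
  classical
  exact if q ∈ (e c).source then poleL (b / 2) b (e c p) ε (e c q) else 0

theorem poleM_of_mem {b : ℝ} {c : κ} {p : M} {ε : ℝ} {q : M} (hq : q ∈ (e c).source) :
    poleM e b c p ε q = poleL (b / 2) b (e c p) ε (e c q) := by
  simp only [poleM, hq, if_true]

theorem poleM_of_notMem {b : ℝ} {c : κ} {p : M} {ε : ℝ} {q : M} (hq : q ∉ (e c).source) :
    poleM e b c p ε q = 0 := by
  simp only [poleM, hq, if_false]

theorem poleM_symm {b : ℝ} {c : κ} {p : M} {ε : ℝ} {z : Cn n} (hz : z ∈ (e c).target) :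
    poleM e b c p ε ((e c).symm z) = poleL (b / 2) b (e c p) ε z := by
  rw [poleM_of_mem ((e c).map_target hz), (e c).right_inv hz]

theorem poleM_nonpos {b : ℝ} (hb : 0 < b) (hb1 : b ≤ 1) (c : κ) (p : M) {ε : ℝ} (hε : 0 < ε)
    (q : M) : poleM e b c p ε q ≤ 0 := by
  by_cases hq : q ∈ (e c).source
  · rw [poleM_of_mem hq]
    exact cutlog_nonpos (by linarith) hb1 (arg_pos _ _ hε)
  · rw [poleM_of_notMem hq]

/-- the compact set which carries the pole -/
theorem isCompact_ballK {b C : ℝ} {p : M} {c : κ} (h : GoodChart e g b C p c) :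
    IsCompact ((e c).symm '' {z | nsq (z - e c p) ≤ b}) := by
  refine IsCompact.image_of_continuousOn ?_ ((e c).symm.continuousOn.mono fun z hz =>
    (h.2 z hz).1)
  refine Metric.isCompact_of_isClosed_isBounded ?_ ?_
  · exact isClosed_le (Pool.Agent.KRFX.NC.contDiff_nsq.continuous.comp
      (continuous_id.sub continuous_const)) continuous_const
  · refine Metric.isBounded_closedBall (x := e c p) (r := √b) |>.subset fun z hz => ?_
    rw [Metric.mem_closedBall, dist_eq_norm]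
    refine Real.le_sqrt_of_sq_le ?_
    exact (Pool.Agent.KRFX.GA.norm_sq_le (z - e c p)).trans hz

theorem ballK_sub {b C : ℝ} {p : M} {c : κ} (h : GoodChart e g b C p c) :
    (e c).symm '' {z | nsq (z - e c p) ≤ b} ⊆ (e c).source := by
  rintro q ⟨z, hz, rfl⟩
  exact (e c).map_target (h.2 z hz).1

theorem poleM_eq_zero {b : ℝ} (hb : 0 < b) {c : κ} {p : M} (ε : ℝ) {q : M}
    (hq : q ∉ (e c).symm '' {z | nsq (z - e c p) ≤ b}) : poleM e b c p ε q = 0 := by
  by_cases hs : q ∈ (e c).source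
  · rw [poleM_of_mem hs]
    refine cutlog_of_ge (by linarith) ?_
    by_contra hlt
    push Not at hlt
    refine hq ⟨e c q, ?_, (e c).left_inv hs⟩
    have := sq_nonneg ε
    change nsq (e c q - e c p) ≤ b
    linarith
  · exact poleM_of_notMem hs

theorem pb_poleM {b : ℝ} {c : κ} {p : M} {ε : ℝ} {z : Cn n} (hz : z ∈ (e c).target) :
    pb e c (poleM e b c p ε) z = poleL (b / 2) b (e c p) ε z := poleM_symm hz

theorem poleM_smooth [T2Space M] (h : L2D e V w g) {b C : ℝ} (hb : 0 < b) {p : M} {c : κ}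
    (hc : GoodChart e g b C p c) {ε : ℝ} (hε : 0 < ε) (c' : κ) :
    ContDiffOn ℝ ∞ (pb e c' (poleM e b c p ε)) (e c').target := by
  refine smooth_of_chart h.holo (isCompact_ballK hc) (ballK_sub hc) ?_
    (fun q hq => poleM_eq_zero hb ε hq) c'
  exact (contDiff_poleL (b / 2) b (e c p) hε).contDiffOn.congr fun z hz => pb_poleM hz

theorem levz_poleM [T2Space M] (h : L2D e V w g) {b C : ℝ} (hb : 0 < b) (hC : 0 ≤ C) {C₁ : ℝ}
    (hC₁ : 0 ≤ C₁)
    (hl : ∀ (z₀ : Cn n) (ε : ℝ), 0 < ε → ∀ u z, -(C₁ * nsq u) ≤ levz (poleL (b / 2) b z₀ ε) u z)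
    {p : M} {c : κ} (hc : GoodChart e g b C p c) {ε : ℝ} (hε : 0 < ε) (c' : κ) {z : Cn n}
    (hz : z ∈ (e c').target) (u : Cn n) :
    -(C₁ * C * levz (g c') u z) ≤ levz (pb e c' (poleM e b c p ε)) u z := by
  by_cases hq : (e c').symm z ∈ (e c).symm '' {z | nsq (z - e c p) ≤ b}
  · have hd : z ∈ dom e c' c := ⟨hz, ballK_sub hc hq⟩
    have hz' := tr_mem_target hd
    rw [levz_pb h.holo (fun c' => poleM_smooth h hb hc hε c') c' c hd u, h.g_compat c' c z hd u]
    have h1 : pb e c (poleM e b c p ε) =ᶠ[𝓝 (tr e c' c z)] poleL (b / 2) b (e c p) ε := by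
      filter_upwards [(e c).open_target.mem_nhds hz'] with x hx
      exact pb_poleM hx
    rw [Bd.levz_congr h1]
    refine le_trans ?_ (hl (e c p) ε hε _ _)
    have h2 : nsq (tr e c' c z - e c p) ≤ b := by
      obtain ⟨x, hx, hxz⟩ := hq
      have h3 : tr e c' c z = x := by
        change e c ((e c').symm z) = x
        rw [← hxz, (e c).right_inv (hc.2 x hx).1]
      rw [h3]
      exact hx
    have h4 := (hc.2 _ h2).2 (fderiv ℝ (tr e c' c) z u)
    have h5 := mul_le_mul_of_nonneg_left h4 hC₁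
    rw [← mul_assoc] at h5
    linarith
  · have h1 : ∀ᶠ x in 𝓝 z, (e c').symm x ∈ ((e c).symm '' {z | nsq (z - e c p) ≤ b})ᶜ :=
      ((e c').symm.continuousAt hz).eventually
        ((isCompact_ballK hc).isClosed.isOpen_compl.mem_nhds hq)
    have h2 : pb e c' (poleM e b c p ε) =ᶠ[𝓝 z] fun _ => 0 := by
      filter_upwards [h1] with x hx
      exact poleM_eq_zero hb ε hx
    rw [Bd.levz_congr h2, Bd.levz_const]
    have h3 : 0 ≤ levz (g c') u z := by
      by_cases hu : u = 0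
      · rw [hu, levz_zero_vec]
      · exact (h.g_pos c' z hz u hu).le
    have := mul_nonneg (mul_nonneg hC₁ hC) h3
    linarith

end

end Pool.Agent.KRFKo
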