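import Pool.Agent.Work.MP_a2bf38_gt.Z.PoleW
import Pool.Agent.Work.MP_a2bf38_gt.I.GapA
import Pool.Agent.Work.MP_a2bf38_gt.Q.Exh

/-!
# The logarithmic pole with a cut-off: local calculus
-/

open scoped ContDiff Topology
open Set Filter Pool.Agent.ToricKRF Pool.Agent.ToricKRF.G Pool.Agent.KRFS

namespace Pool.Agent.KRFKo

open Pool.Agent.KRFS.ABP (ip ip_self)

/-- `log s` for `s ≤ a` and `0` for `b ≤ s` -/
noncomputable def cutlog (a b s : ℝ) : ℝ := Real.smoothTransition ((b - s) / (b - a)) * Real.log s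

section cutlog

variable {a b : ℝ}

theorem cutlog_of_le (hab : a < b) {s : ℝ} (hs : s ≤ a) : cutlog a b s = Real.log s := by
  have h1 : 1 ≤ (b - s) / (b - a) := by
    rw [le_div_iff₀ (sub_pos.2 hab)]
    linarith
  rw [cutlog, Real.smoothTransition.one_of_one_le h1, one_mul]

theorem cutlog_of_ge (hab : a < b) {s : ℝ} (hs : b ≤ s) : cutlog a b s = 0 := by
  have h1 : (b - s) / (b - a) ≤ 0 := div_nonpos_of_nonpos_of_nonneg (by linarith)
    (sub_pos.2 hab).le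
  rw [cutlog, Real.smoothTransition.zero_of_nonpos h1, zero_mul]

theorem cutlog_nonpos (hab : a < b) (hb : b ≤ 1) {s : ℝ} (hs : 0 < s) : cutlog a b s ≤ 0 := by
  rcases le_or_gt b s with h | h
  · exact (cutlog_of_ge hab h).le
  · exact mul_nonpos_of_nonneg_of_nonpos (Real.smoothTransition.nonneg _)
      (Real.log_nonpos hs.le (h.le.trans hb))

theorem log_le_cutlog {s : ℝ} (hs : 0 < s) (hs1 : s ≤ 1) :
    Real.log s ≤ cutlog a b s := by
  have h1 := Real.smoothTransition.le_one ((b - s) / (b - a))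
  have h2 := Real.log_nonpos hs.le hs1
  have h3 := mul_nonneg_of_nonpos_of_nonpos h2 (sub_nonpos.2 h1)
  unfold cutlog
  nlinarith

theorem contDiffOn_cutlog (a b : ℝ) : ContDiffOn ℝ ∞ (cutlog a b) (Ioi 0) := by
  intro s hs
  refine ContDiffAt.contDiffWithinAt ?_
  unfold cutlog
  refine ContDiffAt.mul ?_ ?_
  · exact Real.smoothTransition.contDiff.contDiffAt.comp s
      ((contDiffAt_const.sub contDiffAt_id).div_const _)
  · exact Real.contDiffAt_log.2 (ne_of_gt hs)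

end cutlog

/-! ### The Levi form of a function of a function -/

section Comp

variable {n : ℕ}

theorem fderiv_fderiv_real {h : ℝ → ℝ} {y : ℝ} (hh : ContDiffAt ℝ 2 h y) (a b : ℝ) :
    fderiv ℝ (fderiv ℝ h) y a b = deriv (deriv h) y * a * b := by
  have h2 : DifferentiableAt ℝ (fderiv ℝ h) y :=
    (hh.fderiv_right (m := 1) (by norm_num)).differentiableAt (by norm_num)
  have h3 : deriv h = fun s => fderiv ℝ h s 1 := rfl
  have h4 : deriv (deriv h) y = fderiv ℝ (fderiv ℝ h) y 1 1 := by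
    rw [h3]
    change fderiv ℝ (fun s => fderiv ℝ h s 1) y 1 = _
    rw [fderiv_clm_apply h2 (differentiableAt_const (1 : ℝ))]
    simp
  have h5 : fderiv ℝ (fderiv ℝ h) y a b = a * (b * fderiv ℝ (fderiv ℝ h) y 1 1) := by
    have h6 : a = a • (1 : ℝ) := by simp
    have h7 : b = b • (1 : ℝ) := by simp
    conv_lhs => rw [h6, h7]
    rw [map_smul, map_smul, smul_apply]
    simp only [smul_eq_mul]
    ring
  rw [h5, h4]
  ring

theorem D_D_real {f : Cn n → ℝ} {h : ℝ → ℝ} {z : Cn n} (hf : ContDiffAt ℝ 2 f z)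
    (hh : ContDiffAt ℝ 2 h (f z)) (w : Cn n) :
    D w (D w fun x => h (f x)) z =
      deriv (deriv h) (f z) * (D w f z) ^ 2 + deriv h (f z) * D w (D w f) z := by
  rw [D_D_comp hh hf, fderiv_fderiv_real hh]
  have h1 : fderiv ℝ h (f z) (fderiv ℝ (fun q => fderiv ℝ f q w) z w) =
      deriv h (f z) * fderiv ℝ (fun q => fderiv ℝ f q w) z w := by
    have h2 := fderiv_eq_smul_deriv (f := h) (x := f z)
      (fderiv ℝ (fun q => fderiv ℝ f q w) z w)
    rw [h2, smul_eq_mul]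
    ring
  rw [h1]
  have h3 : D w f = fun q => fderiv ℝ f q w := rfl
  rw [h3]
  simp only [D]
  ring

theorem levz_real {f : Cn n → ℝ} {h : ℝ → ℝ} {z : Cn n} (hf : ContDiffAt ℝ 2 f z)
    (hh : ContDiffAt ℝ 2 h (f z)) (u : Cn n) :
    levz (fun x => h (f x)) u z = deriv h (f z) * levz f u z +
      deriv (deriv h) (f z) * (((D u f z) ^ 2 + (D (J u) f z) ^ 2) / 4) := by
  unfold levz
  rw [D_D_real hf hh, D_D_real hf hh]
  ring

end Comp

/-! ### The Levi form of `cutlog (|z - a|^2 + ε^2)` -/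

section Loc

variable {n : ℕ}

/-- the pole with a cut-off -/
noncomputable def poleL (a b : ℝ) (z₀ : Cn n) (ε : ℝ) (z : Cn n) : ℝ :=
  cutlog a b (nsq (z - z₀) + ε ^ 2)

theorem arg_pos (z₀ z : Cn n) {ε : ℝ} (hε : 0 < ε) : 0 < nsq (z - z₀) + ε ^ 2 := by
  have := Pool.Agent.KRFX.NC.nsq_nonneg (z - z₀)
  positivity

theorem contDiff_arg (z₀ : Cn n) (ε : ℝ) : ContDiff ℝ ∞ fun z : Cn n => nsq (z - z₀) + ε ^ 2 :=
  (Pool.Agent.KRFX.NC.contDiff_nsq.comp (contDiff_id.sub contDiff_const)).add contDiff_const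

theorem contDiff_poleL (a b : ℝ) (z₀ : Cn n) {ε : ℝ} (hε : 0 < ε) :
    ContDiff ℝ ∞ (poleL a b z₀ ε) := by
  rw [contDiff_iff_contDiffAt]
  intro z
  exact ((contDiffOn_cutlog a b).contDiffAt (isOpen_Ioi.mem_nhds (arg_pos z₀ z hε))).comp z
    (contDiff_arg z₀ ε).contDiffAt

theorem D_arg (z₀ : Cn n) (ε : ℝ) (u z : Cn n) :
    D u (fun z : Cn n => nsq (z - z₀) + ε ^ 2) z = 2 * ip (z - z₀) u := by
  have h1 : HasFDerivAt (nsq : Cn n → ℝ) (fderiv ℝ nsq (z - z₀)) (z - z₀) :=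
    (Pool.Agent.KRFX.NC.contDiff_nsq.differentiable (by simp) _).hasFDerivAt
  have h2 : HasFDerivAt (fun z : Cn n => z - z₀) (ContinuousLinearMap.id ℝ (Cn n)) z :=
    (hasFDerivAt_id z).sub_const z₀
  have h3 := ((h1.comp z h2).add_const (ε ^ 2)).fderiv
  have h4 := Pool.Agent.KRFX.NC.D_nsq (z - z₀) u
  unfold D at h4 ⊢
  rw [← h4]
  have h5 : (fun z : Cn n => nsq (z - z₀) + ε ^ 2) =
      fun z => (nsq ∘ fun z : Cn n => z - z₀) z + ε ^ 2 := rfl
  rw [h5, h3]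
  simp

/-- Cauchy-Schwarz -/
theorem ip_sq_le (z u : Cn n) : ip z u ^ 2 + ip z (J u) ^ 2 ≤ nsq u * nsq z := by
  have := Pool.Agent.KRFX.NC.fs_nonneg z u
  unfold Pool.Agent.KRFX.NC.fs at this
  linarith

theorem levz_arg (z₀ : Cn n) (ε : ℝ) (u z : Cn n) :
    levz (fun z : Cn n => nsq (z - z₀) + ε ^ 2) u z = nsq u := by
  have hs : ContDiff ℝ ∞ fun z : Cn n => nsq (z - z₀) :=
    Pool.Agent.KRFX.NC.contDiff_nsq.comp (contDiff_id.sub contDiff_const)
  rw [Bd.levz_add (hs.contDiffAt.of_le two_le_infty) contDiffAt_const, Bd.levz_const, add_zero,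
    Pool.Agent.KRFF.Gap.levz_nsq]

/-- **The lower bound of the Levi form of the pole.** -/
theorem exists_levz_poleL (n : ℕ) {a b : ℝ} (ha : 0 < a) (hab : a < b) : ∃ C : ℝ, 0 ≤ C ∧
    ∀ (z₀ : Cn n) (ε : ℝ), 0 < ε → ∀ u z, -(C * nsq u) ≤ levz (poleL a b z₀ ε) u z := by
  have hK : Icc a b ⊆ Ioi (0 : ℝ) := fun s hs => lt_of_lt_of_le ha hs.1
  have hc0 := contDiffOn_cutlog a b
  have hc1 : ContDiffOn ℝ ∞ (deriv (cutlog a b)) (Ioi 0) :=
    ((contDiffOn_infty_iff_deriv_of_isOpen isOpen_Ioi).1 hc0).2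
  have hc2 : ContDiffOn ℝ ∞ (deriv (deriv (cutlog a b))) (Ioi 0) :=
    ((contDiffOn_infty_iff_deriv_of_isOpen isOpen_Ioi).1 hc1).2
  obtain ⟨C₁, h₁⟩ := isCompact_Icc.exists_bound_of_continuousOn (hc1.continuousOn.mono hK)
  obtain ⟨C₂, h₂⟩ := isCompact_Icc.exists_bound_of_continuousOn (hc2.continuousOn.mono hK)
  have hC₁ : 0 ≤ C₁ := (norm_nonneg _).trans (h₁ a ⟨le_rfl, hab.le⟩)
  have hC₂ : 0 ≤ C₂ := (norm_nonneg _).trans (h₂ a ⟨le_rfl, hab.le⟩)
  refine ⟨C₁ + C₂ * b, add_nonneg hC₁ (mul_nonneg hC₂ (ha.trans hab).le), ?_⟩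
  intro z₀ ε hε u z
  have hu := Pool.Agent.KRFX.NC.nsq_nonneg u
  have hneg : -((C₁ + C₂ * b) * nsq u) ≤ 0 := by
    have : 0 ≤ (C₁ + C₂ * b) * nsq u :=
      mul_nonneg (add_nonneg hC₁ (mul_nonneg hC₂ (ha.trans hab).le)) hu
    linarith
  have hcont : Continuous fun z : Cn n => nsq (z - z₀) + ε ^ 2 := (contDiff_arg z₀ ε).continuous
  rcases lt_or_ge (nsq (z - z₀) + ε ^ 2) a with hs | hs
  · have h1 : poleL a b z₀ ε =ᶠ[𝓝 z] Pool.Agent.KRFZ.Pole.W0 z₀ ε := by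
      filter_upwards [(isOpen_lt hcont continuous_const).mem_nhds hs] with x hx
      exact cutlog_of_le hab (le_of_lt hx)
    rw [Bd.levz_congr h1]
    exact hneg.trans (Pool.Agent.KRFZ.Pole.W0_psh z₀ hε z u)
  rcases lt_or_ge b (nsq (z - z₀) + ε ^ 2) with hs' | hs'
  · have h1 : poleL a b z₀ ε =ᶠ[𝓝 z] fun _ => 0 := by
      filter_upwards [(isOpen_lt continuous_const hcont).mem_nhds hs'] with x hx
      exact cutlog_of_ge hab (le_of_lt hx)
    rw [Bd.levz_congr h1, Bd.levz_const]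
    exact hneg
  · have hmem : nsq (z - z₀) + ε ^ 2 ∈ Icc a b := ⟨hs, hs'⟩
    have h0 : poleL a b z₀ ε = fun x => cutlog a b (nsq (x - z₀) + ε ^ 2) := rfl
    rw [h0, levz_real ((contDiff_arg z₀ ε).contDiffAt.of_le two_le_infty)
      (((contDiffOn_cutlog a b).contDiffAt (isOpen_Ioi.mem_nhds (hK hmem))).of_le two_le_infty),
      levz_arg, D_arg, D_arg]
    have h3 := abs_le.1 (h₁ _ hmem)
    have h4 := abs_le.1 (h₂ _ hmem)
    have h5 := ip_sq_le (z - z₀) u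
    set p := deriv (cutlog a b) (nsq (z - z₀) + ε ^ 2)
    set q := deriv (deriv (cutlog a b)) (nsq (z - z₀) + ε ^ 2)
    have h6 : 0 ≤ ip (z - z₀) u ^ 2 + ip (z - z₀) (J u) ^ 2 := by positivity
    have h7 : ip (z - z₀) u ^ 2 + ip (z - z₀) (J u) ^ 2 ≤ nsq u * b := by
      refine h5.trans (mul_le_mul_of_nonneg_left ?_ hu)
      have := sq_nonneg ε
      linarith
    have h8 : -(C₁ * nsq u) ≤ p * nsq u := by nlinarith
    have h9 : -(C₂ * (ip (z - z₀) u ^ 2 + ip (z - z₀) (J u) ^ 2)) ≤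
        q * (ip (z - z₀) u ^ 2 + ip (z - z₀) (J u) ^ 2) := by nlinarith
    have h10 : C₂ * (ip (z - z₀) u ^ 2 + ip (z - z₀) (J u) ^ 2) ≤ C₂ * (nsq u * b) :=
      mul_le_mul_of_nonneg_left h7 hC₂
    have h11 : q * (((2 * ip (z - z₀) u) ^ 2 + (2 * ip (z - z₀) (J u)) ^ 2) / 4) =
        q * (ip (z - z₀) u ^ 2 + ip (z - z₀) (J u) ^ 2) := by ring
    rw [h11]
    nlinarith

end Loc

end Pool.Agent.KRFKo
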