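import Pool.Agent.Work.MP_a2bf38_gt.Ko.Bun
import Pool.Agent.Work.MP_a2bf38_gt.Ko.Fibre
import Pool.Agent.Work.MP_a2bf38_gt.Ko.Four

/-!
# The section of a holomorphic function on the canonical bundle
-/

open scoped ContDiff Topology ENNReal
open Set MeasureTheory Filter Pool.Agent.ToricKRF Pool.Agent.ToricKRF.G Pool.Agent.KRFS
  Pool.Agent.KRFF Pool.Agent.KRFQ

namespace Pool.Agent.KRFKo

section

variable {M P : Type} [TopologicalSpace M] [TopologicalSpace P] {n : ℕ} {κ : Type}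
  {e : κ → OpenPartialHomeomorph M (Cn n)} {π : P → M}
  {E : κ → OpenPartialHomeomorph P (Cn (n + 1))}

/-- the Laurent coefficients of a holomorphic function on the bundle -/
theorem holC_bun (hb : IsKBun e π E) (he : IsAtlas e) {V : Set M} (hV : IsOpen V)
    (hVp : IsOpen (Vp E π V)) {b : P → ℂ}
    (hb1 : ∀ c, ContDiffOn ℝ ∞ (pb (rs E hVp) c b) (rs E hVp c).target ∧
      ∀ k, ∀ y ∈ (rs E hVp c).target, dzb k (pb (rs E hVp) c b) y = 0) (m : ℕ) (c : κ) :
    NF.HolC (fun x => cm m fun ξ => b ((E c).symm (jn ξ x))) (rs e hV c).target ∧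
      ∀ x ∈ (rs e hV c).target, DifferentiableOn ℂ (fun ξ => b ((E c).symm (jn ξ x))) {0}ᶜ := by
  have hset : {y | tl y ∈ (rs e hV c).target ∧ hd y ≠ 0} = (rs E hVp c).target := by
    ext y
    exact (hb.mem_target he hV hVp c y).symm
  refine holC_cm (b := fun y => b ((E c).symm y)) (rs e hV c).open_target ?_ ?_ m
  · rw [hset]
    exact (hb1 c).1
  · intro k y hy h0
    exact (hb1 c).2 k y ((hb.mem_target he hV hVp c y).2 ⟨hy, h0⟩)

theorem isSect_cm (hb : IsKBun e π E) (he : IsAtlas e) {V : Set M} (hV : IsOpen V)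
    (hVp : IsOpen (Vp E π V)) {b : P → ℂ}
    (hb1 : ∀ c, ContDiffOn ℝ ∞ (pb (rs E hVp) c b) (rs E hVp c).target ∧
      ∀ k, ∀ y ∈ (rs E hVp c).target, dzb k (pb (rs E hVp) c b) y = 0) (m : ℕ) :
    IsSect (rs e hV) m fun c x => cm m fun ξ => b ((E c).symm (jn ξ x)) := by
  have key := holC_bun hb he hV hVp hb1 m
  refine ⟨fun c => (key c).1, fun c c' z hz => ?_⟩
  have hz' : z ∈ dom e c c' := dom_rs hV c c' hz
  set D := (Jm (tr (rs e hV) c c') z).det with hD
  have hD0 : D ≠ 0 := by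
    intro h
    have h1 := Jm_tr_mul he.holo hz'
    have h2 := congrArg Matrix.det h1
    rw [Matrix.det_mul, Matrix.det_one] at h2
    rw [hD, tr_rs] at h
    rw [h, mul_zero] at h2
    exact zero_ne_one h2
  have h1 : (fun ξ => b ((E c').symm (jn ξ (tr (rs e hV) c c' z)))) =
      fun ξ => (fun ζ => b ((E c).symm (jn ζ z))) (D * ξ) := by
    funext ξ
    have hy : jn (D * ξ) z ∈ dom E c c' := (hb.mem_dom c c' _).2 (by simpa using hz')
    have h2 := hb.tr_eq c c' (jn (D * ξ) z) (by simpa using hz')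
    rw [hd_jn, tl_jn, ← tr_rs hV, ← hD, mul_div_cancel_left₀ _ hD0] at h2
    change b ((E c').symm (jn ξ (tr (rs e hV) c c' z))) = b ((E c).symm (jn (D * ξ) z))
    rw [← h2, symm_tr hy]
  change cm m (fun ξ => b ((E c').symm (jn ξ (tr (rs e hV) c c' z)))) = _
  rw [h1]
  exact cm_mul ((key c).2 z hz.1) m hD0

end

end Pool.Agent.KRFKo
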