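import Pool.Agent.Work.MP_a2bf38_gt.Ko.SectCm
import Pool.Agent.Work.MP_a2bf38_gt.Ko.Bundle
import Pool.Agent.Work.MP_a2bf38_gt.Ko.PData
import Pool.Agent.Work.MP_a2bf38_gt.Ko.Hol
import Pool.Agent.Work.MP_a2bf38_gt.Ko.Fub

/-!
# The `∂bar`-equation for the sections of `-m K`
-/

open scoped ContDiff Topology ENNReal
open Set MeasureTheory Filter Pool.Agent.ToricKRF Pool.Agent.ToricKRF.G Pool.Agent.KRFS
  Pool.Agent.KRFF Pool.Agent.KRFQ

namespace Pool.Agent.KRFKo

namespace Sc

section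

variable {n : ℕ}

theorem continuous_hd : Continuous (hd : Cn (n + 1) → ℂ) := contDiff_hd.continuous

theorem continuous_tl : Continuous (tl : Cn (n + 1) → Cn n) := contDiff_tl.continuous

theorem volume_hd_zero : volume {y : Cn (n + 1) | hd y = 0} = 0 := by
  have h1 : {y : Cn (n + 1) | hd y = 0} = (LinearMap.ker (hdL (n := n)).toLinearMap :
      Submodule ℝ (Cn (n + 1))) := by
    ext y
    simp [hdL_apply]
  rw [h1]
  have : (volume : Measure (Cn (n + 1))).IsAddHaarMeasure :=
    Measure.prod.instIsAddHaarMeasure _ _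
  refine Measure.addHaar_submodule _ _ ?_
  intro h
  have h2 : jn 1 (0 : Cn n) ∈ LinearMap.ker (hdL (n := n)).toLinearMap := by
    rw [h]
    trivial
  have h3 : hd (jn 1 (0 : Cn n)) = 0 := h2
  rw [hd_jn] at h3
  exact one_ne_zero h3

theorem measurableSet_inter_preimage {X Y : Type*} [TopologicalSpace X] [MeasurableSpace X]
    [BorelSpace X] [TopologicalSpace Y] [MeasurableSpace Y] [BorelSpace Y] {S : Set X}
    (hS : IsOpen S) {f : X → Y} (hf : ContinuousOn f S) {A : Set Y} (hA : MeasurableSet A) :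
    MeasurableSet {x | x ∈ S ∧ f x ∈ A} := by
  have h1 : Continuous (S.domRestrict f) := continuousOn_iff_continuous_domRestrict.1 hf
  have h2 : MeasurableSet (((↑) : S → X) '' (S.domRestrict f ⁻¹' A)) :=
    hS.measurableSet.subtype_image (h1.measurable hA)
  have h3 : ((↑) : S → X) '' (S.domRestrict f ⁻¹' A) = {x | x ∈ S ∧ f x ∈ A} := by
    ext z
    simp only [mem_image, mem_preimage, Subtype.exists, mem_ofPred_eq]
    constructor
    · rintro ⟨x, hx, h, rfl⟩
      exact ⟨hx, h⟩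
    · rintro ⟨hz, h⟩
      exact ⟨z, hz, h, rfl⟩
  rwa [h3] at h2

end

section

variable {M P : Type} [TopologicalSpace M] [TopologicalSpace P] {n : ℕ} {κ : Type}
  {e : κ → OpenPartialHomeomorph M (Cn n)} {π : P → M}
  {E : κ → OpenPartialHomeomorph P (Cn (n + 1))}

theorem exp_wtP {V : Set M} (hV : IsOpen V) (w : κ → Cn n → ℝ) (m : ℕ) (W : M → ℝ) (c : κ)
    (ξ : ℂ) (x : Cn n) : Real.exp (-wtP (rs e hV) w m W c (jn ξ x)) =
      fw m (w c x) ξ * Real.exp (-pb (rs e hV) c W x) := by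
  rw [fw, ← Real.exp_add]
  congr 1
  simp only [wtP, nr, hd_jn, tl_jn, pb]
  ring

/-- integrals over a part of the bundle -/
theorem lintegral_bun [MeasurableSpace P] [BorelSpace P] (hb : IsKBun e π E) (he : IsAtlas e)
    {V : Set M} (hV : IsOpen V) (hVp : IsOpen (Vp E π V)) {w : κ → Cn n → ℝ} {m : ℕ}
    {W : M → ℝ} {μ : Measure P}
    (hμ : IsDens (rs E hVp) (fun c y => Real.exp (-wtP (rs e hV) w m W c y)) μ)
    {c : κ} (hw : ContinuousOn (wtP (rs e hV) w m W c) (rs E hVp c).target)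
    {A : Set (Cn n)} (hA : MeasurableSet A) (hAs : A ⊆ (rs e hV c).target) {f : P → ℝ≥0∞}
    (hf : ContinuousOn (fun y => f ((E c).symm y)) (rs E hVp c).target) :
    ∫⁻ v in {v | v ∈ (rs E hVp c).source ∧ tl (E c v) ∈ A}, f v ∂μ =
      ∫⁻ x in A, ∫⁻ ξ : ℂ, ENNReal.ofReal (fw m (w c x) ξ *
        Real.exp (-pb (rs e hV) c W x)) * f ((E c).symm (jn ξ x)) := by
  classical
  set S := (rs E hVp c).source with hS
  set X := {v | v ∈ S ∧ tl (E c v) ∈ A} with hX
  set T := (rs E hVp c).target with hT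
  have hTo : IsOpen T := (rs E hVp c).open_target
  have hTm := hTo.measurableSet
  have hcE : ContinuousOn (fun v => tl (E c v)) S :=
    continuous_tl.comp_continuousOn (rs E hVp c).continuousOn
  have hXm : MeasurableSet X :=
    measurableSet_inter_preimage (rs E hVp c).open_source hcE hA
  have hexp : ContinuousOn (fun y => Real.exp (-wtP (rs e hV) w m W c y)) T := hw.neg.rexp
  have hfS : ContinuousOn f S := by
    have h1 : ContinuousOn (fun v => f ((E c).symm (E c v))) S :=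
      hf.comp (rs E hVp c).continuousOn fun v hv => (rs E hVp c).map_source hv
    refine h1.congr fun v hv => ?_
    exact congrArg f ((rs E hVp c).left_inv hv).symm
  rw [lintegral_chart hμ hexp hXm (fun v hv => hv.1)
    ((hfS.aemeasurable (rs E hVp c).open_source.measurableSet).mono_measure
      (Measure.restrict_mono (fun v hv => hv.1) le_rfl))]
  -- the integrand
  set F : Cn (n + 1) → ℝ≥0∞ := fun y =>
    ENNReal.ofReal (Real.exp (-wtP (rs e hV) w m W c y)) * f ((E c).symm y) with hF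
  have hFT : AEMeasurable F (volume.restrict T) :=
    ((hexp.aemeasurable hTm).ennreal_ofReal).mul (hf.aemeasurable hTm)
  have hTA : T ∩ {y | tl y ∈ A} = {y | tl y ∈ A} \ {y | hd y = 0} := by
    ext y
    simp only [hT, mem_inter_iff, hb.mem_target he hV hVp c y, mem_ofPred_eq, Set.mem_sdiff]
    exact ⟨fun h => ⟨h.2, h.1.2⟩, fun h => ⟨⟨hAs h.1, h.2⟩, h.1⟩⟩
  have hAm : MeasurableSet {y : Cn (n + 1) | tl y ∈ A} := continuous_tl.measurable hA
  have hae : ({y : Cn (n + 1) | tl y ∈ A} \ {y | hd y = 0} : Set (Cn (n + 1))) =ᵐ[volume]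
      {y | tl y ∈ A} := sdiff_null_ae_eq_self volume_hd_zero
  have h1 : ∫⁻ z in T, ENNReal.ofReal (Real.exp (-wtP (rs e hV) w m W c z)) *
      X.indicator f ((rs E hVp c).symm z) = ∫⁻ y in {y | tl y ∈ A}, F y := by
    rw [← setLIntegral_congr hae, ← hTA, inter_comm, ← Measure.restrict_restrict hAm,
      ← lintegral_indicator hAm]
    refine setLIntegral_congr_fun hTm fun y hy => ?_
    have h2 : (rs E hVp c).symm y ∈ X ↔ tl y ∈ A := by
      have h3 : tl (E c ((rs E hVp c).symm y)) = tl y :=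
        congrArg tl ((rs E hVp c).right_inv hy)
      simp only [hX, mem_ofPred_eq, h3]
      exact ⟨fun h => h.2, fun h => ⟨(rs E hVp c).map_target hy, h⟩⟩
    by_cases hyA : tl y ∈ A
    · rw [indicator_of_mem (h2.2 hyA), indicator_of_mem (show y ∈ {y | tl y ∈ A} from hyA)]
      rfl
    · rw [indicator_of_notMem (fun h => hyA (h2.1 h)),
        indicator_of_notMem (show y ∉ {y | tl y ∈ A} from hyA), mul_zero]
  rw [h1, lintegral_jn hA]
  · refine setLIntegral_congr_fun hA fun x hx => ?_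
    refine lintegral_congr fun ξ => ?_
    simp only [hF]
    rw [exp_wtP]
  · have h4 : (volume.restrict {y : Cn (n + 1) | tl y ∈ A}) =
        (volume.restrict T).restrict {y | tl y ∈ A} := by
      rw [Measure.restrict_restrict hAm, inter_comm, hTA]
      exact (Measure.restrict_congr_set hae).symm
    rw [h4]
    exact hFT.mono_measure Measure.restrict_le_self

/-- the distance to a holomorphic function is at least the distance to its section -/
theorem le_lintegral [MeasurableSpace P] [BorelSpace P] (hb : IsKBun e π E) (he : IsAtlas e)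
    {V : Set M} (hV : IsOpen V) (hVp : IsOpen (Vp E π V)) {w : κ → Cn n → ℝ} {m : ℕ}
    {W : M → ℝ} {μ : Measure P}
    (hμ : IsDens (rs E hVp) (fun c y => Real.exp (-wtP (rs e hV) w m W c y)) μ)
    {c : κ} (hw : ContinuousOn (wtP (rs e hV) w m W c) (rs E hVp c).target)
    (hw0 : ∀ x ∈ (rs e hV c).target, 0 < w c x)
    {A : Set (Cn n)} (hA : MeasurableSet A) (hAs : A ⊆ (rs e hV c).target) {χ b : P → ℂ}
    (hχ : ContinuousOn (fun y => χ ((E c).symm y)) (rs E hVp c).target)
    (hb0 : ContinuousOn (fun y => b ((E c).symm y)) (rs E hVp c).target)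
    (hbd : ∀ x ∈ A, DifferentiableOn ℂ (fun ξ => b ((E c).symm (jn ξ x))) {0}ᶜ)
    {a : Cn n → ℂ} (ha : ∀ x ∈ A, ∀ ξ : ℂ, ξ ≠ 0 → χ ((E c).symm (jn ξ x)) = a x * ξ ^ m) :
    ENNReal.ofReal Real.pi * ∫⁻ x in A, ENNReal.ofReal
      (‖a x - cm m fun ξ => b ((E c).symm (jn ξ x))‖ ^ 2 * w c x ^ (m + 1) *
        Real.exp (-pb (rs e hV) c W x)) ≤ ∫⁻ v, ENNReal.ofReal (‖χ v - b v‖ ^ 2) ∂μ := by
  refine le_trans ?_ (setLIntegral_le_lintegral
    {v | v ∈ (rs E hVp c).source ∧ tl (E c v) ∈ A} _)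
  rw [lintegral_bun hb he hV hVp hμ hw hA hAs
    (ENNReal.continuous_ofReal.comp_continuousOn ((hχ.sub hb0).norm.pow 2)),
    ← lintegral_const_mul' _ _ ENNReal.ofReal_ne_top]
  refine setLIntegral_mono' hA fun x hx => ?_
  have h1 : ∫⁻ ξ : ℂ, ENNReal.ofReal (fw m (w c x) ξ * Real.exp (-pb (rs e hV) c W x)) *
      ENNReal.ofReal (‖χ ((E c).symm (jn ξ x)) - b ((E c).symm (jn ξ x))‖ ^ 2) =
      ENNReal.ofReal (Real.exp (-pb (rs e hV) c W x)) * ∫⁻ ξ : ℂ, ENNReal.ofReal
        (‖a x * ξ ^ m - b ((E c).symm (jn ξ x))‖ ^ 2 * fw m (w c x) ξ) := by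
    rw [← lintegral_const_mul' _ _ ENNReal.ofReal_ne_top]
    refine lintegral_congr_ae ?_
    have h2 : ∀ᵐ ξ : ℂ, ξ ≠ 0 := by
      exact (Countable.ae_notMem (countable_singleton (0 : ℂ)) volume).mono fun ξ h => h
    filter_upwards [h2] with ξ hξ
    rw [ha x hx ξ hξ, ← ENNReal.ofReal_mul (by unfold fw; positivity),
      ← ENNReal.ofReal_mul (by positivity)]
    congr 1
    ring
  rw [h1]
  refine le_trans ?_ (mul_le_mul_right (fibre_le (hbd x hx) m (a x) (hw0 x (hAs hx)))
    (ENNReal.ofReal (Real.exp (-pb (rs e hV) c W x))))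
  rw [← ENNReal.ofReal_mul Real.pi_pos.le, ← ENNReal.ofReal_mul (Real.exp_pos _).le]
  refine (ENNReal.ofReal_le_ofReal (le_of_eq ?_))
  ring

/-- the integral of a function `B(x) |ξ|^(2m)` -/
theorem lintegral_eq [MeasurableSpace P] [BorelSpace P] (hb : IsKBun e π E) (he : IsAtlas e)
    {V : Set M} (hV : IsOpen V) (hVp : IsOpen (Vp E π V)) {w : κ → Cn n → ℝ} {m : ℕ}
    {W : M → ℝ} {μ : Measure P}
    (hμ : IsDens (rs E hVp) (fun c y => Real.exp (-wtP (rs e hV) w m W c y)) μ)
    {c : κ} (hw : ContinuousOn (wtP (rs e hV) w m W c) (rs E hVp c).target)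
    (hw0 : ∀ x ∈ (rs e hV c).target, 0 < w c x) {B : Cn n → ℝ} (hB : Continuous B)
    (hB0 : ∀ x, 0 ≤ B x) :
    ∫⁻ v, ENNReal.ofReal ((rs E hVp c).source.indicator
        (fun v => B (tl (E c v)) * ‖hd (E c v)‖ ^ (2 * m)) v) ∂μ =
      ENNReal.ofReal Real.pi * ∫⁻ x in (rs e hV c).target, ENNReal.ofReal
        (B x * w c x ^ (m + 1) * Real.exp (-pb (rs e hV) c W x)) := by
  classical
  set S := (rs E hVp c).source with hS
  have hset : {v | v ∈ S ∧ tl (E c v) ∈ (rs e hV c).target} = S := by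
    ext v
    refine ⟨fun h => h.1, fun h => ⟨h, ?_⟩⟩
    have h1 := (rs E hVp c).map_source h
    exact ((hb.mem_target he hV hVp c _).1 h1).1
  have h1 : ∫⁻ v, ENNReal.ofReal (S.indicator
        (fun v => B (tl (E c v)) * ‖hd (E c v)‖ ^ (2 * m)) v) ∂μ =
      ∫⁻ v in S, ENNReal.ofReal (B (tl (E c v)) * ‖hd (E c v)‖ ^ (2 * m)) ∂μ := by
    rw [← lintegral_indicator (rs E hVp c).open_source.measurableSet]
    refine lintegral_congr fun v => ?_
    by_cases hv : v ∈ S
    · rw [indicator_of_mem hv, indicator_of_mem hv]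
    · rw [indicator_of_notMem hv, indicator_of_notMem hv, ENNReal.ofReal_zero]
  rw [h1, ← hset]
  have hcont : ContinuousOn (fun y => ENNReal.ofReal (B (tl (E c ((E c).symm y))) *
      ‖hd (E c ((E c).symm y))‖ ^ (2 * m))) (rs E hVp c).target := by
    have h2 : Continuous fun y : Cn (n + 1) => ENNReal.ofReal (B (tl y) * ‖hd y‖ ^ (2 * m)) :=
      ENNReal.continuous_ofReal.comp
        ((hB.comp continuous_tl).mul ((continuous_norm.comp continuous_hd).pow _))
    refine h2.continuousOn.congr fun y hy => ?_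
    have h3 : E c ((E c).symm y) = y := (rs E hVp c).right_inv hy
    simp only [h3]
  rw [lintegral_bun hb he hV hVp hμ hw (rs e hV c).open_target.measurableSet subset_rfl hcont,
    ← lintegral_const_mul' _ _ ENNReal.ofReal_ne_top]
  refine setLIntegral_congr_fun (rs e hV c).open_target.measurableSet fun x hx => ?_
  have h4 : ∀ ξ : ℂ, ξ ≠ 0 → E c ((E c).symm (jn ξ x)) = jn ξ x := fun ξ hξ =>
    (rs E hVp c).right_inv ((hb.mem_target he hV hVp c _).2 ⟨by simpa using hx, by simpa using hξ⟩)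
  have h5 : ∫⁻ ξ : ℂ, ENNReal.ofReal (fw m (w c x) ξ * Real.exp (-pb (rs e hV) c W x)) *
      ENNReal.ofReal (B (tl (E c ((E c).symm (jn ξ x)))) *
        ‖hd (E c ((E c).symm (jn ξ x)))‖ ^ (2 * m)) =
      ENNReal.ofReal (B x * Real.exp (-pb (rs e hV) c W x)) * ∫⁻ ξ : ℂ, ENNReal.ofReal
        (‖ξ‖ ^ (2 * m) * fw m (w c x) ξ) := by
    rw [← lintegral_const_mul' _ _ ENNReal.ofReal_ne_top]
    refine lintegral_congr_ae ?_
    filter_upwards [(Countable.ae_notMem (countable_singleton (0 : ℂ)) volume)] with ξ hξ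
    have := hB0 x
    rw [h4 ξ hξ, tl_jn, hd_jn, ← ENNReal.ofReal_mul (by unfold fw; positivity),
      ← ENNReal.ofReal_mul (by positivity)]
    congr 1
    ring
  rw [h5, fibre_eq m (hw0 x hx)]
  have := hB0 x
  rw [← ENNReal.ofReal_mul (by positivity), ← ENNReal.ofReal_mul Real.pi_pos.le]
  congr 1
  ring

/-- the function `G` of the coordinates in the chart `c` -/
noncomputable def xt {F : Type*} [Zero F] {V : Set M} (E : κ → OpenPartialHomeomorph P (Cn (n + 1)))
    (hVp : IsOpen (Vp E π V)) (c : κ) (G : Cn (n + 1) → F) : P → F :=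
  (rs E hVp c).source.indicator fun v => G (E c v)

theorem xt_ev [T2Space M] {F : Type*} [Zero F] (hb : IsKBun e π E) {V : Set M}
    (hV : IsOpen V) (hVp : IsOpen (Vp E π V)) {c : κ} {G : Cn (n + 1) → F} {K : Set (Cn n)}
    (hK : IsCompact K) (hKt : K ⊆ (rs e hV c).target) (hG : ∀ y, tl y ∉ K → G y = 0) {v : P}
    (hv : v ∈ Vp E π V) (hvS : v ∉ (rs E hVp c).source) :
    ∀ᶠ v' in 𝓝 v, xt E hVp c G v' = 0 := by
  have h1 : IsCompact ((e c).symm '' K) :=
    hK.image_of_continuousOn ((e c).continuousOn_symm.mono fun x hx =>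
      rs_target_sub hV c (hKt hx))
  have h2 : v ∉ π ⁻¹' ((e c).symm '' K) := by
    rintro ⟨x, hx, hxv⟩
    apply hvS
    rw [rs_source, hb.source]
    refine ⟨?_, hv⟩
    change π v ∈ (e c).source
    rw [← hxv]
    exact (e c).map_target (rs_target_sub hV c (hKt hx))
  have h3 : (π ⁻¹' ((e c).symm '' K))ᶜ ∈ 𝓝 v :=
    (h1.isClosed.preimage hb.cont).isOpen_compl.mem_nhds h2
  filter_upwards [h3] with v' hv'
  unfold xt
  by_cases hS : v' ∈ (rs E hVp c).source
  · rw [indicator_of_mem hS]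
    refine hG _ fun hm => hv' ?_
    have h4 : v' ∈ (E c).source := by
      rw [rs_source] at hS
      exact hS.1
    have h5 : π v' ∈ (e c).source := by
      have := h4
      rw [hb.source] at this
      exact this
    refine ⟨_, hm, ?_⟩
    rw [hb.tl_eq c v' h4, (e c).left_inv h5]
  · exact indicator_of_notMem hS _

omit [TopologicalSpace M] in
theorem xt_chart {F : Type*} [Zero F] {V : Set M} (hVp : IsOpen (Vp E π V)) {c c' : κ}
    {G : Cn (n + 1) → F} {y : Cn (n + 1)} (hy : y ∈ dom (rs E hVp) c' c) :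
    pb (rs E hVp) c' (xt E hVp c G) =ᶠ[𝓝 y] fun y' => G (tr E c' c y') := by
  filter_upwards [(KRFQ.isOpen_dom c' c).mem_nhds hy] with y' hy'
  change (rs E hVp c).source.indicator (fun v => G (E c v)) ((rs E hVp c').symm y') = _
  rw [indicator_of_mem hy'.2]
  rfl

theorem xt_smooth [T2Space M] {F : Type*} [NormedAddCommGroup F] [NormedSpace ℝ F]
    (hb : IsKBun e π E) (he : IsAtlas e) {V : Set M} (hV : IsOpen V) (hVp : IsOpen (Vp E π V))
    {c : κ} {G : Cn (n + 1) → F} (hGs : ContDiff ℝ ∞ G) {K : Set (Cn n)} (hK : IsCompact K)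
    (hKt : K ⊆ (rs e hV c).target) (hG : ∀ y, tl y ∉ K → G y = 0) (c' : κ) :
    ContDiffOn ℝ ∞ (pb (rs E hVp) c' (xt E hVp c G)) (rs E hVp c').target := by
  intro y hy
  refine ContDiffAt.contDiffWithinAt ?_
  by_cases hq : (rs E hVp c').symm y ∈ (rs E hVp c).source
  · have hdm : y ∈ dom (rs E hVp) c' c := ⟨hy, hq⟩
    have h1 : ContDiffAt ℝ ∞ (fun y' => G (tr E c' c y')) y :=
      hGs.contDiffAt.comp y ((hb.holo he c' c).1.contDiffAt
        ((KRFQ.isOpen_dom c' c).mem_nhds (dom_rs hVp c' c hdm)))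
    exact h1.congr_of_eventuallyEq (xt_chart hVp hdm)
  · have hv : (rs E hVp c').symm y ∈ Vp E π V := by
      have := (rs E hVp c').map_target hy
      rw [rs_source] at this
      exact this.2
    have h1 := ((rs E hVp c').symm.continuousAt hy).eventually
      (xt_ev hb hV hVp hK hKt hG hv hq)
    refine (contDiffAt_const (c := (0 : F))).congr_of_eventuallyEq ?_
    filter_upwards [h1] with x hx
    exact hx

theorem xt_cont [T2Space M] {F : Type*} [NormedAddCommGroup F]
    (hb : IsKBun e π E) {V : Set M} (hV : IsOpen V) (hVp : IsOpen (Vp E π V))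
    {c : κ} {G : Cn (n + 1) → F} (hGs : Continuous G) {K : Set (Cn n)} (hK : IsCompact K)
    (hKt : K ⊆ (rs e hV c).target) (hG : ∀ y, tl y ∉ K → G y = 0) :
    ContinuousOn (xt E hVp c G) (Vp E π V) := by
  intro v hv
  refine ContinuousAt.continuousWithinAt ?_
  by_cases hq : v ∈ (rs E hVp c).source
  · have h1 : ContinuousAt (fun v' => G (E c v')) v :=
      hGs.continuousAt.comp ((rs E hVp c).continuousAt hq)
    refine h1.congr ?_
    filter_upwards [(rs E hVp c).open_source.mem_nhds hq] with v' hv'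
    change _ = (rs E hVp c).source.indicator (fun v => G (E c v)) v'
    rw [indicator_of_mem hv']
  · have h1 := xt_ev hb hV hVp hK hKt hG hv hq
    exact (continuousAt_const (y := (0 : F))).congr (h1.mono fun _ h => h.symm)

/-- `∂bar` of `u(x) ξ^m` -/
theorem dbar_xt [T2Space M] (hb : IsKBun e π E) (he : IsAtlas e) {V : Set M} (hV : IsOpen V)
    (hVp : IsOpen (Vp E π V)) {w : κ → Cn n → ℝ} (h0 : L2D (rs e hV) V w (kf w)) {m : ℕ}
    {c : κ} {u : Cn n → ℂ} {B : Cn n → ℝ} (hu : ContDiff ℝ ∞ u) (huc : HasCompactSupport u)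
    (hus : tsupport u ⊆ (rs e hV c).target)
    (hdb : ∀ z ∈ (rs e hV c).target, ∀ v,
        ‖∑ j, dzb j u z * (starRingEnd ℂ) (cc v j)‖ ^ 2 ≤ B z * levz (kf w c) v z)
    (c' : κ) {y : Cn (n + 1)} (hy : y ∈ (rs E hVp c').target) (v : Cn (n + 1)) :
    ‖∑ j, dzb j (pb (rs E hVp) c' (xt E hVp c fun y => u (tl y) * hd y ^ m)) y *
        (starRingEnd ℂ) (cc v j)‖ ^ 2 ≤
      xt E hVp c (fun y => B (tl y) * ‖hd y‖ ^ (2 * m)) ((rs E hVp c').symm y) *
        levz (kf w c') (tl v) (tl y) := by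
  have hyt := (hb.mem_target he hV hVp c' y).1 hy
  have hlev : 0 ≤ levz (kf w c') (tl v) (tl y) := by
    by_cases h : tl v = 0
    · rw [h, levz_zero_vec]
    · exact (h0.g_pos c' _ hyt.1 _ h).le
  rw [← dbar_apply]
  by_cases hq : (rs E hVp c').symm y ∈ (rs E hVp c).source
  · have hd' : y ∈ dom (rs E hVp) c' c := ⟨hy, hq⟩
    have hdE : y ∈ dom E c' c := dom_rs hVp c' c hd'
    have hde : tl y ∈ dom (rs e hV) c' c := by
      refine ⟨hyt.1, ?_⟩
      have h1 := (hb.mem_target he hV hVp c _).1 (tr_mem_target hd')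
      have h2 : (rs E hVp c').symm y ∈ (E c).source := hdE.2
      rw [hb.source] at h2
      have h3 : π ((E c').symm y) = (e c').symm (tl y) :=
        hb.pi_symm (rs_target_sub hV c' hyt.1)
      rw [rs_source]
      refine ⟨?_, ?_⟩
      · change (e c').symm (tl y) ∈ (e c).source
        rw [← h3]
        exact h2
      · exact ((mem_rs_target hV c').1 hyt.1).2
    have hho := hb.holo he c' c
    have hopE : IsOpen (dom E c' c) := KRFQ.isOpen_dom c' c
    have hope : IsOpen (dom e c' c) := KRFQ.isOpen_dom c' c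
    -- the transition on the base
    have htl : ∀ᶠ y' in 𝓝 y, tl (tr E c' c y') = tr e c' c (tl y') := by
      filter_upwards [hopE.mem_nhds hdE] with y' hy'
      rw [hb.tr_eq c' c y' ((hb.mem_dom c' c y').1 hy'), tl_jn]
    have hdtr : DifferentiableAt ℝ (tr E c' c) y :=
      KRFQ.HolOn.differentiableAt hopE hho hdE
    have hdte : DifferentiableAt ℝ (tr e c' c) (tl y) :=
      KRFQ.HolOn.differentiableAt hope (he.holo c' c) (dom_rs hV c' c hde)
    set H := fderiv ℝ (tr E c' c) y with hH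
    set H' := fderiv ℝ (tr e c' c) (tl y) with hH'
    have hHJ : ∀ v, H (J v) = J (H v) := fun v => hho.2 y hdE v
    have htlH : ∀ v, tl (H v) = H' (tl v) := by
      intro v
      have h1 : HasFDerivAt (fun y' => tl (tr E c' c y')) (tlL.comp H) y :=
        (tlL (n := n)).hasFDerivAt.comp y hdtr.hasFDerivAt
      have h2 : HasFDerivAt (fun y' => tr e c' c (tl y')) (H'.comp tlL) y :=
        HasFDerivAt.comp (g := tr e c' c) (f := tl) y hdte.hasFDerivAt
          (tlL (n := n)).hasFDerivAt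
      have h3 := (h1.congr_of_eventuallyEq (htl.mono fun _ h => h.symm)).unique h2
      exact DFunLike.congr_fun h3 v
    -- the function
    set y₁ := tr E c' c y with hy₁
    have hy₁' : tl y₁ = tr e c' c (tl y) := htl.self_of_nhds
    have hu1 : HasFDerivAt u (fderiv ℝ u (tl y₁)) (tl y₁) :=
      (hu.differentiable (by simp)).differentiableAt.hasFDerivAt
    have hf1 : HasFDerivAt (fun y' : Cn (n + 1) => u (tl y') * hd y' ^ m)
        (u (tl y₁) • ((m • hd y₁ ^ (m - 1)) • (hdL : Cn (n + 1) →L[ℝ] ℂ)) +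
          (hd y₁ ^ m) • (fderiv ℝ u (tl y₁)).comp tlL) y₁ := by
      have h1 : HasFDerivAt (fun y' : Cn (n + 1) => u (tl y')) ((fderiv ℝ u (tl y₁)).comp tlL)
          y₁ := HasFDerivAt.comp (g := u) (f := tl) y₁ hu1 (tlL (n := n)).hasFDerivAt
      have h2 : HasFDerivAt (fun y' : Cn (n + 1) => hd y' ^ m)
          ((m • hd y₁ ^ (m - 1)) • (hdL : Cn (n + 1) →L[ℝ] ℂ)) y₁ :=
        (hdL (n := n)).hasFDerivAt.pow m
      exact h1.mul h2
    have hf2 : HasFDerivAt (pb (rs E hVp) c' (xt E hVp c fun y => u (tl y) * hd y ^ m))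
        ((u (tl y₁) • ((m • hd y₁ ^ (m - 1)) • (hdL : Cn (n + 1) →L[ℝ] ℂ)) +
          (hd y₁ ^ m) • (fderiv ℝ u (tl y₁)).comp tlL).comp H) y :=
      (HasFDerivAt.comp y hf1 hdtr.hasFDerivAt).congr_of_eventuallyEq (xt_chart hVp hd')
    have hval : ∀ v, (fderiv ℝ (pb (rs E hVp) c' (xt E hVp c fun y => u (tl y) * hd y ^ m)) y v) =
        u (tl y₁) * ((m * hd y₁ ^ (m - 1)) * hd (H v)) +
          hd y₁ ^ m * fderiv ℝ u (tl y₁) (H' (tl v)) := by
      intro v
      rw [hf2.fderiv, ← htlH, ← nsmul_eq_mul]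
      rfl
    have hbx : xt E hVp c (fun y => B (tl y) * ‖hd y‖ ^ (2 * m)) ((rs E hVp c').symm y) =
        B (tl y₁) * ‖hd y₁‖ ^ (2 * m) := indicator_of_mem hq _
    rw [hval, hval, hHJ, hd_J, tl_J, hbx]
    have hH'J : H' (J (tl v)) = J (H' (tl v)) :=
      (he.holo c' c).2 _ (dom_rs hV c' c hde) _
    rw [hH'J]
    have h5 := hdb (tl y₁) (by
      have h1 := (hb.mem_target he hV hVp c _).1 (tr_mem_target hd')
      exact h1.1) (H' (tl v))
    rw [← dbar_apply] at h5
    have h6 : levz (kf w c') (tl v) (tl y) = levz (kf w c) (H' (tl v)) (tl y₁) := by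
      rw [hy₁']
      exact h0.g_compat c' c _ hde (tl v)
    have h7 : (u (tl y₁) * ((m * hd y₁ ^ (m - 1)) * hd (H v)) +
          hd y₁ ^ m * fderiv ℝ u (tl y₁) (H' (tl v)) +
        Complex.I * (u (tl y₁) * ((m * hd y₁ ^ (m - 1)) * (Complex.I * hd (H v))) +
          hd y₁ ^ m * fderiv ℝ u (tl y₁) (J (H' (tl v))))) / 2 =
        hd y₁ ^ m * ((fderiv ℝ u (tl y₁) (H' (tl v)) +
          Complex.I * fderiv ℝ u (tl y₁) (J (H' (tl v)))) / 2) := by
      have hI : Complex.I * Complex.I = -1 := Complex.I_mul_I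
      linear_combination (u (tl y₁) * (m * hd y₁ ^ (m - 1)) * hd (H v) / 2) * hI
    rw [h7, norm_mul, mul_pow, norm_pow, ← pow_mul, h6, mul_comm m 2]
    calc ‖hd y₁‖ ^ (2 * m) * _ ≤ ‖hd y₁‖ ^ (2 * m) *
          (B (tl y₁) * levz (kf w c) (H' (tl v)) (tl y₁)) :=
          mul_le_mul_of_nonneg_left h5 (by positivity)
      _ = _ := by ring
  · have hv : (rs E hVp c').symm y ∈ Vp E π V := by
      have := (rs E hVp c').map_target hy
      rw [rs_source] at this
      exact this.2
    have h1 := ((rs E hVp c').symm.continuousAt hy).eventually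
      (xt_ev hb hV hVp huc.isCompact hus (G := fun y => u (tl y) * hd y ^ m)
        (fun y hy => by rw [image_eq_zero_of_notMem_tsupport hy, zero_mul]) hv hq)
    have h2 : pb (rs E hVp) c' (xt E hVp c fun y => u (tl y) * hd y ^ m) =ᶠ[𝓝 y] fun _ => 0 :=
      h1
    rw [h2.fderiv_eq]
    have h3 : xt E hVp c (fun y => B (tl y) * ‖hd y‖ ^ (2 * m)) ((rs E hVp c').symm y) = 0 :=
      indicator_of_notMem hq _
    rw [h3]
    simp


/-- continuous functions with compact support in a chart are integrable -/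
theorem lintegral_ne_top {V : Set M} (hV : IsOpen V) {w : κ → Cn n → ℝ} {m : ℕ} {W : M → ℝ}
    {c : κ} (hw : ContinuousOn (w c) (rs e hV c).target)
    (hW : ContinuousOn (pb (rs e hV) c W) (rs e hV c).target) {G : Cn n → ℝ} (hG : Continuous G)
    (hGc : HasCompactSupport G) (hGs : tsupport G ⊆ (rs e hV c).target) :
    ∫⁻ x in (rs e hV c).target, ENNReal.ofReal
      (G x * w c x ^ (m + 1) * Real.exp (-pb (rs e hV) c W x)) ≠ ⊤ := by
  have h1 : ContinuousOn (fun x => G x * w c x ^ (m + 1) * Real.exp (-pb (rs e hV) c W x))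
      (tsupport G) :=
    (hG.continuousOn.mul ((hw.mono hGs).pow _)).mul (hW.mono hGs).neg.rexp
  have h2 : IntegrableOn (fun x => G x * w c x ^ (m + 1) * Real.exp (-pb (rs e hV) c W x))
      (tsupport G) := h1.integrableOn_compact hGc
  have h3 : ∫⁻ x in (rs e hV c).target, ENNReal.ofReal
      (G x * w c x ^ (m + 1) * Real.exp (-pb (rs e hV) c W x)) =
      ∫⁻ x in tsupport G, ENNReal.ofReal
        (G x * w c x ^ (m + 1) * Real.exp (-pb (rs e hV) c W x)) := by
    rw [← lintegral_indicator (rs e hV c).open_target.measurableSet,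
      ← lintegral_indicator (isClosed_tsupport G).measurableSet]
    refine lintegral_congr fun x => ?_
    by_cases hx : x ∈ tsupport G
    · rw [indicator_of_mem hx, indicator_of_mem (hGs hx)]
    · rw [indicator_of_notMem hx]
      by_cases hx' : x ∈ (rs e hV c).target
      · rw [indicator_of_mem hx', image_eq_zero_of_notMem_tsupport hx]
        simp
      · rw [indicator_of_notMem hx']
  rw [h3]
  exact h2.lintegral_lt_top.ne

theorem integrable_xt [T2Space M] [MeasurableSpace P] [BorelSpace P] (hb : IsKBun e π E)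
    (he : IsAtlas e)
    {V : Set M} (hV : IsOpen V) (hVp : IsOpen (Vp E π V)) {w : κ → Cn n → ℝ} {m : ℕ}
    {W : M → ℝ} {μ : Measure P}
    (hμ : IsDens (rs E hVp) (fun c y => Real.exp (-wtP (rs e hV) w m W c y)) μ)
    (hμ0 : μ (Vp E π V)ᶜ = 0)
    {c : κ} (hwt : ContinuousOn (wtP (rs e hV) w m W c) (rs E hVp c).target)
    (hw : ContinuousOn (w c) (rs e hV c).target)
    (hW : ContinuousOn (pb (rs e hV) c W) (rs e hV c).target)
    (hw0 : ∀ x ∈ (rs e hV c).target, 0 < w c x) {B : Cn n → ℝ} (hB : Continuous B)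
    (hBc : HasCompactSupport B) (hBs : tsupport B ⊆ (rs e hV c).target) (hB0 : ∀ x, 0 ≤ B x) :
    Integrable (xt E hVp c fun y => B (tl y) * ‖hd y‖ ^ (2 * m)) μ := by
  have hnn : ∀ v, 0 ≤ xt E hVp c (fun y => B (tl y) * ‖hd y‖ ^ (2 * m)) v := fun v => by
    refine indicator_nonneg (fun v _ => ?_) v
    have := hB0 (tl (E c v))
    positivity
  have hcont : ContinuousOn (xt E hVp c fun y => B (tl y) * ‖hd y‖ ^ (2 * m)) (Vp E π V) :=
    xt_cont hb hV hVp ((hB.comp continuous_tl).mul ((continuous_norm.comp continuous_hd).pow _))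
      hBc.isCompact hBs fun y hy => by rw [image_eq_zero_of_notMem_tsupport hy, zero_mul]
  have hmeas : AEStronglyMeasurable (xt E hVp c fun y => B (tl y) * ‖hd y‖ ^ (2 * m)) μ := by
    have h1 := hcont.aestronglyMeasurable (μ := μ) hVp.measurableSet
    rwa [Measure.restrict_eq_self_of_ae_mem
      (by rw [ae_iff]; exact hμ0)] at h1
  refine ⟨hmeas, ?_⟩
  rw [hasFiniteIntegral_iff_ofReal (Eventually.of_forall hnn)]
  have h2 := lintegral_eq hb he hV hVp hμ hwt hw0 hB hB0
  change ∫⁻ v, ENNReal.ofReal ((rs E hVp c).source.indicator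
        (fun v => B (tl (E c v)) * ‖hd (E c v)‖ ^ (2 * m)) v) ∂μ < ⊤
  rw [h2]
  exact ENNReal.mul_lt_top ENNReal.ofReal_lt_top
    (lintegral_ne_top hV hw hW hB hBc hBs).lt_top

end

end Sc

open Sc

/-- **The `∂bar`-equation for the sections of `-m K`.** -/
theorem hasSec {M : Type} [TopologicalSpace M] [T2Space M] {n : ℕ} {κ : Type}
    {e : κ → OpenPartialHomeomorph M (Cn n)} (he : IsAtlas e) {V : Set M} (hV : IsOpen V)
    {w g : κ → Cn n → ℝ} (h0 : L2D (rs e hV) V w (kf w)) (h : L2D (rs e hV) V w g) {ψ : M → ℝ}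
    (hψ : IsExh (rs e hV) V g ψ) : HasSec (rs e hV) w := by
  intro m W hW hWl c u B hu huc hus hB hBc hBs hB0 hdb
  have : Nonempty κ := ⟨c⟩
  obtain ⟨P, tP, t2P, π, E, hb⟩ := exists_kbun he
  let _ : MeasurableSpace P := borel P
  have : BorelSpace P := ⟨rfl⟩
  have hVp := hb.isOpen_Vp hV
  obtain ⟨μ, hμ, hμ0, H⟩ := exists_hol hb he hV hVp h0 h hψ hW hWl
  have hwt : ∀ c, ContinuousOn (wtP (rs e hV) w m W c) (rs E hVp c).target := fun c =>
    ((wtP_facts hb he hV hVp h0 hW hWl).2 c).1.continuousOn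
  have hw : ∀ c, ContinuousOn (w c) (rs e hV c).target := fun c =>
    (h0.w_smooth c).continuousOn
  have hWc : ∀ c, ContinuousOn (pb (rs e hV) c W) (rs e hV c).target := fun c =>
    (hW c).continuousOn
  set χ : P → ℂ := xt E hVp c fun y => u (tl y) * hd y ^ m with hχ
  set BB : P → ℝ := xt E hVp c fun y => B (tl y) * ‖hd y‖ ^ (2 * m) with hBB
  have hBBn : ∀ v, 0 ≤ BB v := fun v => by
    refine indicator_nonneg (fun v _ => ?_) v
    have := hB0 (tl (E c v))
    positivity
  have hBBi : Integrable BB μ :=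
    integrable_xt hb he hV hVp hμ hμ0 (hwt c) (hw c) (hWc c) (h0.w_pos c) hB hBc hBs hB0
  have hG : ContDiff ℝ ∞ fun y : Cn (n + 1) => u (tl y) * hd y ^ m :=
    (hu.comp contDiff_tl).mul (contDiff_hd.pow m)
  have hG0 : ∀ y : Cn (n + 1), tl y ∉ tsupport u → u (tl y) * hd y ^ m = 0 := fun y hy => by
    rw [image_eq_zero_of_notMem_tsupport hy, zero_mul]
  have hχs : Sm (rs E hVp) χ := fun c' =>
    xt_smooth hb he hV hVp hG huc.isCompact hus hG0 c'
  have hχc : ContinuousOn χ (Vp E π V) :=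
    xt_cont hb hV hVp hG.continuous huc.isCompact hus hG0
  have hself : μ.restrict (Vp E π V) = μ :=
    Measure.restrict_eq_self_of_ae_mem (by rw [ae_iff]; exact hμ0)
  have hχm : AEStronglyMeasurable χ μ := by
    have h1 := hχc.aestronglyMeasurable (μ := μ) hVp.measurableSet
    rwa [hself] at h1
  have hχ2 : MemLp χ 2 μ := by
    rw [memLp_two_iff_integrable_sq_norm hχm]
    have h1 := integrable_xt hb he hV hVp hμ hμ0 (hwt c) (hw c) (hWc c) (h0.w_pos c)
      (B := fun x => ‖u x‖ ^ 2) (hu.continuous.norm.pow 2)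
      (huc.comp_left (g := fun a : ℂ => ‖a‖ ^ 2) (by simp)) ?_ (fun x => by positivity)
    · refine h1.congr (Eventually.of_forall fun v => ?_)
      simp only [hχ, xt]
      by_cases hv : v ∈ (rs E hVp c).source
      · rw [indicator_of_mem hv, indicator_of_mem hv, norm_mul, mul_pow, norm_pow, ← pow_mul,
          mul_comm m 2]
      · rw [indicator_of_notMem hv, indicator_of_notMem hv]
        simp
    · refine Subset.trans ?_ hus
      refine closure_mono fun x hx => ?_
      simp only [Function.mem_support] at hx ⊢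
      intro h
      exact hx (by simp [h])
  obtain ⟨b, hb1, hb2, hb3⟩ := H χ BB hχs hχ2 hBBn hBBi fun c' y hy v =>
    dbar_xt hb he hV hVp h0 hu huc hus hdb c' hy v
  have hcsymm : ∀ c' (f : P → ℂ), Sm (rs E hVp) f →
      ContinuousOn (fun y => f ((E c').symm y)) (rs E hVp c').target := fun c' f hf =>
    (hf c').continuousOn
  -- the estimate on the bundle
  set R : ℝ≥0∞ := ∫⁻ z in (rs e hV c).target, ENNReal.ofReal
    (B z * w c z ^ (m + 1) * Real.exp (-pb (rs e hV) c W z)) with hR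
  have key : ∫⁻ v, ENNReal.ofReal (‖χ v - b v‖ ^ 2) ∂μ ≤ ENNReal.ofReal Real.pi * R := by
    have h1 : Integrable (fun v => ‖χ v - b v‖ ^ 2) μ :=
      (memLp_two_iff_integrable_sq_norm (hχ2.sub hb2).1).1 (hχ2.sub hb2)
    rw [← ofReal_integral_eq_lintegral_ofReal h1 (Eventually.of_forall fun v => by positivity)]
    refine le_trans (ENNReal.ofReal_le_ofReal hb3) ?_
    rw [ofReal_integral_eq_lintegral_ofReal hBBi (Eventually.of_forall hBBn), hR]
    exact (lintegral_eq hb he hV hVp hμ (hwt c) (h0.w_pos c) hB hB0).le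
  have hπ0 : ENNReal.ofReal Real.pi ≠ 0 := by
    rw [Ne, ENNReal.ofReal_eq_zero, not_le]
    exact Real.pi_pos
  have hcan : ∀ X : ℝ≥0∞, ENNReal.ofReal Real.pi * X ≤ ENNReal.ofReal Real.pi * R → X ≤ R :=
    fun X hX => (ENNReal.mul_le_mul_iff_right hπ0 ENNReal.ofReal_ne_top).1 hX
  refine ⟨fun c x => cm m fun ξ => b ((E c).symm (jn ξ x)), isSect_cm hb he hV hVp hb1 m,
    hcan _ ?_, fun c' A hA hAs hAd => hcan _ ?_⟩
  · refine le_trans ?_ key
    refine Sc.le_lintegral hb he hV hVp hμ (hwt c) (h0.w_pos c) (rs e hV c).open_target.measurableSet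
      subset_rfl (hcsymm c χ hχs) (hcsymm c b fun c' => (hb1 c').1)
      (fun x hx => (holC_bun hb he hV hVp hb1 m c).2 x hx) fun x hx ξ hξ => ?_
    have h1 : jn ξ x ∈ (rs E hVp c).target :=
      (hb.mem_target he hV hVp c _).2 ⟨by simpa using hx, by simpa using hξ⟩
    have h2 : (E c).symm (jn ξ x) ∈ (rs E hVp c).source := (rs E hVp c).map_target h1
    have h3 : E c ((E c).symm (jn ξ x)) = jn ξ x := (rs E hVp c).right_inv h1
    simp only [hχ, xt]
    rw [indicator_of_mem h2, h3, tl_jn, hd_jn]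
  · refine le_trans ?_ key
    have h4 := Sc.le_lintegral hb he hV hVp hμ (hwt c') (h0.w_pos c') hA.measurableSet hAs
      (hcsymm c' χ hχs) (hcsymm c' b fun c' => (hb1 c').1)
      (fun x hx => (holC_bun hb he hV hVp hb1 m c').2 x (hAs hx)) (a := fun _ => 0)
      fun x hx ξ hξ => ?_
    · simpa only [zero_sub, norm_neg] using h4
    rw [zero_mul]
    simp only [hχ, xt]
    by_cases hv : (E c').symm (jn ξ x) ∈ (rs E hVp c).source
    · rw [indicator_of_mem hv]
      have h5 : (E c').symm (jn ξ x) ∈ (E c).source ∧ (E c').symm (jn ξ x) ∈ Vp E π V := by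
        rwa [rs_source] at hv
      have h6 : π ((E c').symm (jn ξ x)) = (e c').symm x := by
        have := hb.pi_symm (c := c') (y := jn ξ x)
          (by simpa using rs_target_sub hV c' (hAs hx))
        simpa using this
      have h7 : (e c').symm x ∈ (rs e hV c).source := by
        rw [rs_source]
        refine ⟨?_, ?_⟩
        · have := h5.1
          rw [hb.source] at this
          rw [← h6]
          exact this
        · rw [← h6]
          exact h5.2.1
      have h8 := hAd x hx h7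
      refine hG0 _ ?_
      rw [hb.tl_eq c _ h5.1, h6]
      exact h8
    · exact indicator_of_notMem hv _

end Pool.Agent.KRFKo
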