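import Pool.Agent.Work.MP_a2bf38_gt.Ko.Defs

/-!
# KRF VIII, part B: statements
-/

open scoped ContDiff Topology LinearAlgebra.Projectivization
open Set MeasureTheory Filter Pool.Agent.ToricKRF Pool.Agent.ToricKRF.G Pool.Agent.KRFS
  Pool.Agent.KRFF Pool.Agent.KRFQ Pool.Agent.KRFZ

namespace Pool.Agent.KRFKo

/-! ### B1 (Ko/Bundle.lean): the total space -/

/-- B1.  Mathlib: `FiberBundleCore κ M ℂ`. -/
theorem exists_kbun {M : Type} [TopologicalSpace M] [T2Space M] {n : ℕ} {κ : Type}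
    {e : κ → OpenPartialHomeomorph M (Cn n)} (he : IsAtlas e) :
    ∃ (P : Type) (_ : TopologicalSpace P) (_ : T2Space P) (π : P → M)
      (E : κ → OpenPartialHomeomorph P (Cn (n + 1))), IsKBun e π E := sorry

section Bun

variable {M P : Type} [TopologicalSpace M] [TopologicalSpace P] {n : ℕ} {κ : Type}
  {e : κ → OpenPartialHomeomorph M (Cn n)} {π : P → M}
  {E : κ → OpenPartialHomeomorph P (Cn (n + 1))}

/-! ### B1b (Ko/Bun.lean): facts -/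

theorem IsKBun.isOpen_Vp (hb : IsKBun e π E) {V : Set M} (hV : IsOpen V) :
    IsOpen (Vp E π V) := sorry

/-- being away from the zero section does not depend on the chart -/
theorem IsKBun.hd_ne (hb : IsKBun e π E) (he : IsAtlas e) {V : Set M} {v : P}
    (hv : v ∈ Vp E π V) {c : κ} (hc : v ∈ (E c).source) : hd (E c v) ≠ 0 := sorry

theorem IsKBun.mem_target (hb : IsKBun e π E) (he : IsAtlas e) {V : Set M} (hV : IsOpen V)
    (hVp : IsOpen (Vp E π V)) (c : κ) (y : Cn (n + 1)) :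
    y ∈ (rs E hVp c).target ↔ tl y ∈ (rs e hV c).target ∧ hd y ≠ 0 := sorry

theorem IsKBun.pi_symm (hb : IsKBun e π E) {c : κ} {y : Cn (n + 1)} (hy : tl y ∈ (e c).target) :
    π ((E c).symm y) = (e c).symm (tl y) := sorry

theorem IsKBun.mem_dom (hb : IsKBun e π E) (c c' : κ) (y : Cn (n + 1)) :
    y ∈ dom E c c' ↔ tl y ∈ dom e c c' := sorry

theorem IsKBun.holo (hb : IsKBun e π E) (he : IsAtlas e) (c c' : κ) :
    HolOn (tr E c c') (dom E c c') := sorry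

theorem IsKBun.det_one (hb : IsKBun e π E) (he : IsAtlas e) (c c' : κ) {y : Cn (n + 1)}
    (hy : y ∈ dom E c c') : |(fderiv ℝ (tr E c c') y).det| = 1 := sorry

/-- the norm in two charts -/
theorem IsKBun.nr_tr (hb : IsKBun e π E) (he : IsAtlas e) {V : Set M} (hV : IsOpen V)
    {w g : κ → Cn n → ℝ} (h : L2D (rs e hV) V w g) {c c' : κ} {y : Cn (n + 1)}
    (hy : tl y ∈ dom (rs e hV) c c') (h0 : hd y ≠ 0) :
    nr w c' (tr E c c' y) = nr w c y := sorry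

/-! ### B2 (Ko/PData.lean): the metric data on the bundle -/

/-- B2a -/
theorem levz_tl {f : Cn n → ℝ} {U : Set (Cn n)} (hU : IsOpen U) (hf : ContDiffOn ℝ ∞ f U)
    {y : Cn (n + 1)} (hy : tl y ∈ U) (v : Cn (n + 1)) :
    levz (fun y => f (tl y)) v y = levz f (tl v) (tl y) := sorry

/-- B2a: the Levi form of the norm -/
theorem levz_nr {w : κ → Cn n → ℝ} {c : κ} {U : Set (Cn n)} (hU : IsOpen U)
    (hw : ContDiffOn ℝ ∞ (w c) U) (hw0 : ∀ x ∈ U, 0 < w c x) {y : Cn (n + 1)} (hy : tl y ∈ U)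
    (h0 : hd y ≠ 0) (v : Cn (n + 1)) : levz (nr w c) v y = levz (kf w c) (tl v) (tl y) := sorry

/-- B2a -/
theorem levz_scomp {m : ℕ} {φ : ℝ → ℝ} (hφ : ContDiff ℝ ∞ φ) {f : Cn m → ℝ} {U : Set (Cn m)}
    (hU : IsOpen U) (hf : ContDiffOn ℝ ∞ f U) {y : Cn m} (hy : y ∈ U) (v : Cn m) :
    levz (fun y => φ (f y)) v y = deriv φ (f y) * levz f v y +
      deriv (deriv φ) (f y) * (((D v f y) ^ 2 + (D (J v) f y) ^ 2) / 4) := sorry

/-- B2a -/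
theorem Uf_facts : ContDiff ℝ ∞ Uf ∧ (∀ r, 0 < deriv Uf r) ∧
    ∀ r, deriv (deriv Uf) r = 1 / (1 + r ^ 2) := sorry

/-- B2b -/
theorem l2d_bun (hb : IsKBun e π E) (he : IsAtlas e) {V : Set M} (hV : IsOpen V)
    (hVp : IsOpen (Vp E π V)) {w g : κ → Cn n → ℝ} (h0 : L2D (rs e hV) V w (kf w))
    (h : L2D (rs e hV) V w g) :
    L2D (rs E hVp) (Vp E π V) (fun _ _ => 1) (fun c y => g c (tl y) + Uf (nr w c y)) := sorry

/-- B2c: `ψ' = (ψ ∘ π + log (1 + r^2)) / 3` -/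
theorem exh_bun [T2Space P] (hb : IsKBun e π E) (he : IsAtlas e) {V : Set M} (hV : IsOpen V)
    (hVp : IsOpen (Vp E π V)) {w g : κ → Cn n → ℝ} (h0 : L2D (rs e hV) V w (kf w))
    (h : L2D (rs e hV) V w g) {ψ : M → ℝ} (hψ : IsExh (rs e hV) V g ψ) :
    ∃ ψ' : P → ℝ, IsExh (rs E hVp) (Vp E π V) (fun c y => g c (tl y) + Uf (nr w c y)) ψ' := sorry

/-- B2d: the weight -/
theorem wtP_facts (hb : IsKBun e π E) (he : IsAtlas e) {V : Set M} (hV : IsOpen V)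
    (hVp : IsOpen (Vp E π V)) {w : κ → Cn n → ℝ} (h0 : L2D (rs e hV) V w (kf w)) {m : ℕ}
    {W : M → ℝ} (hW : ∀ c, ContDiffOn ℝ ∞ (pb (rs e hV) c W) (rs e hV c).target)
    (hWl : ∀ c, ∀ z ∈ (rs e hV c).target, ∀ v,
      -((m : ℝ) - 1) * levz (kf w c) v z ≤ levz (pb (rs e hV) c W) v z) :
    (∃ ρ : P → ℝ, ∀ c, ∀ y ∈ (rs E hVp c).target,
      pb (rs E hVp) c ρ y = wtP (rs e hV) w m W c y) ∧
    ∀ c, ContDiffOn ℝ ∞ (wtP (rs e hV) w m W c) (rs E hVp c).target ∧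
      ∀ y ∈ (rs E hVp c).target, ∀ v,
        levz (kf w c) (tl v) (tl y) ≤ levz (wtP (rs e hV) w m W c) v y := sorry

/-- B2e: Theorem G on the bundle (from `l2d_bun`, `exh_bun`, `wtP_facts`, `L2D.mul_exp`,
`L2D.exists_measure`, `IsDens.hormander`) -/
theorem exists_hol [T2Space P] [MeasurableSpace P] [BorelSpace P] [Nonempty κ]
    (hb : IsKBun e π E) (he : IsAtlas e) {V : Set M} (hV : IsOpen V)
    (hVp : IsOpen (Vp E π V)) {w g : κ → Cn n → ℝ} (h0 : L2D (rs e hV) V w (kf w))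
    (h : L2D (rs e hV) V w g) {ψ : M → ℝ} (hψ : IsExh (rs e hV) V g ψ) {m : ℕ}
    {W : M → ℝ} (hW : ∀ c, ContDiffOn ℝ ∞ (pb (rs e hV) c W) (rs e hV c).target)
    (hWl : ∀ c, ∀ z ∈ (rs e hV c).target, ∀ v,
      -((m : ℝ) - 1) * levz (kf w c) v z ≤ levz (pb (rs e hV) c W) v z) :
    ∃ μ : Measure P, IsDens (rs E hVp) (fun c y => Real.exp (-wtP (rs e hV) w m W c y)) μ ∧
      μ (Vp E π V)ᶜ = 0 ∧
      ∀ (χ : P → ℂ) (B : P → ℝ), Sm (rs E hVp) χ → MemLp χ 2 μ → (∀ v, 0 ≤ B v) →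
        Integrable B μ →
        (∀ c, ∀ y ∈ (rs E hVp c).target, ∀ v,
          ‖∑ j, dzb j (pb (rs E hVp) c χ) y * (starRingEnd ℂ) (cc v j)‖ ^ 2 ≤
            B ((rs E hVp c).symm y) * levz (kf w c) (tl v) (tl y)) →
        ∃ b : P → ℂ, (∀ c, ContDiffOn ℝ ∞ (pb (rs E hVp) c b) (rs E hVp c).target ∧
          ∀ k, ∀ y ∈ (rs E hVp c).target, dzb k (pb (rs E hVp) c b) y = 0) ∧
          MemLp b 2 μ ∧ ∫ v, ‖χ v - b v‖ ^ 2 ∂μ ≤ ∫ v, B v ∂μ := sorry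

/-! ### B3 (Ko/Fibre.lean, Ko/Fourier.lean) -/

/-- the weight on a fibre -/
noncomputable def fw (m : ℕ) (t : ℝ) (ξ : ℂ) : ℝ :=
  Real.exp (-(m * (Real.log (‖ξ‖ ^ 2) - Real.log t) +
    2 * Real.log (1 + Real.exp (Real.log (‖ξ‖ ^ 2) - Real.log t))))

/-- B3a (polar coordinates, Cauchy-Schwarz on every circle) -/
theorem fibre_le {b : ℂ → ℂ} (hb : DifferentiableOn ℂ b {0}ᶜ) (m : ℕ) (a : ℂ) {t : ℝ}
    (ht : 0 < t) :
    ENNReal.ofReal (Real.pi * t ^ (m + 1) * ‖a - cm m b‖ ^ 2) ≤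
      ∫⁻ ξ : ℂ, ENNReal.ofReal (‖a * ξ ^ m - b ξ‖ ^ 2 * fw m t ξ) := sorry

/-- B3a -/
theorem fibre_eq (m : ℕ) {t : ℝ} (ht : 0 < t) :
    ∫⁻ ξ : ℂ, ENNReal.ofReal (‖ξ‖ ^ (2 * m) * fw m t ξ) =
      ENNReal.ofReal (Real.pi * t ^ (m + 1)) := sorry

/-- B3a -/
theorem cm_mul {b : ℂ → ℂ} (hb : DifferentiableOn ℂ b {0}ᶜ) (m : ℕ) {a : ℂ} (ha : a ≠ 0) :
    cm m (fun ξ => b (a * ξ)) = a ^ m * cm m b := sorry

/-- B3b -/
theorem holC_cm {b : Cn (n + 1) → ℂ} {U : Set (Cn n)} (hU : IsOpen U)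
    (hb : ContDiffOn ℝ ∞ b {y | tl y ∈ U ∧ hd y ≠ 0})
    (hb' : ∀ k, ∀ y, tl y ∈ U → hd y ≠ 0 → dzb k b y = 0) (m : ℕ) :
    NF.HolC (fun x => cm m fun ξ => b (jn ξ x)) U ∧
      ∀ x ∈ U, DifferentiableOn ℂ (fun ξ => b (jn ξ x)) {0}ᶜ := sorry

/-- B3c: Fubini -/
theorem lintegral_jn {A : Set (Cn n)} (hA : MeasurableSet A) {F : Cn (n + 1) → ENNReal}
    (hF : AEMeasurable F (volume.restrict {y | tl y ∈ A})) :
    ∫⁻ y in {y | tl y ∈ A}, F y = ∫⁻ x in A, ∫⁻ ξ : ℂ, F (jn ξ x) := sorry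

/-! ### B4 (Ko/Section.lean) -/

/-- B4a: the section of a holomorphic function on the bundle -/
theorem isSect_cm (hb : IsKBun e π E) (he : IsAtlas e) {V : Set M} (hV : IsOpen V)
    (hVp : IsOpen (Vp E π V)) {b : P → ℂ}
    (hb1 : ∀ c, ContDiffOn ℝ ∞ (pb (rs E hVp) c b) (rs E hVp c).target ∧
      ∀ k, ∀ y ∈ (rs E hVp c).target, dzb k (pb (rs E hVp) c b) y = 0) (m : ℕ) :
    IsSect (rs e hV) m fun c x => cm m fun ξ => b ((E c).symm (jn ξ x)) := sorry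

/-- B4: the solution of the `∂bar`-equation for sections.  `P` from `exists_kbun`,
`χ v = u (tl (E c v)) * hd (E c v) ^ m` and `B v = B (tl (E c v)) * ‖hd (E c v)‖ ^ (2 m)` on the
source of `E c`, `0` elsewhere. -/
theorem hasSec {M : Type} [TopologicalSpace M] [T2Space M] {n : ℕ} {κ : Type}
    {e : κ → OpenPartialHomeomorph M (Cn n)} (he : IsAtlas e) {V : Set M} (hV : IsOpen V)
    {w g : κ → Cn n → ℝ} (h0 : L2D (rs e hV) V w (kf w)) (h : L2D (rs e hV) V w g) {ψ : M → ℝ}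
    (hψ : IsExh (rs e hV) V g ψ) : HasSec (rs e hV) w := sorry

end Bun

section Main

variable {M : Type} [TopologicalSpace M] [T2Space M] {n : ℕ} {κ : Type}
  {e : κ → OpenPartialHomeomorph M (Cn n)} {V : Set M} {w : κ → Cn n → ℝ}

/-! ### B5 (Ko/Pole.lean) -/

theorem exists_pole (h0 : L2D e V w (kf w)) {K : Set M} (hK : IsCompact K) (hKV : K ⊆ V) :
    ∃ C : ℝ, 0 ≤ C ∧ ∀ p ∈ K, ∃ c W, IsPole e V w C p c W := sorry

/-! ### B6 (Ko/Jets.lean) -/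

/-- B6a: mean values of holomorphic functions: there is `C` with
`|h(z₀)|^2 + ε^2 |∂_k h(z₀)|^2 ≤ C ε^(-2n) ∫ |h|^2` -/
theorem holC_mean (n : ℕ) : ∃ C : ℝ, 0 < C ∧ ∀ (h : Cn n → ℂ) (z₀ : Cn n) (ε : ℝ), 0 < ε →
    NF.HolC h {z | nsq (z - z₀) < ε ^ 2} →
    ENNReal.ofReal ((‖h z₀‖ ^ 2 + ∑ k, ε ^ 2 * ‖dz k h z₀‖ ^ 2) * ε ^ (2 * n)) ≤
      ENNReal.ofReal C * ∫⁻ z in {z | nsq (z - z₀) < ε ^ 2}, ENNReal.ofReal (‖h z‖ ^ 2) := sorry

/-- B6: sections with given values and first derivatives at `p`, and small at `p'` -/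
theorem exists_jet (h0 : L2D e V w (kf w)) (hsec : HasSec e w) {C : ℝ} {p p' : M} {c c' : κ}
    {W W' : ℝ → M → ℝ} (hW : IsPole e V w C p c W) (hW' : IsPole e V w C p' c' W') {m : ℕ}
    (hm : 2 * C + 1 ≤ m) (a₀ : ℂ) (a : Fin n → ℂ) {δ : ℝ} (hδ : 0 < δ) :
    ∃ s, IsSect e m s ∧ ‖s c (e c p) - a₀‖ ≤ δ ∧ (∀ i, ‖dz i (s c) (e c p) - a i‖ ≤ δ) ∧
      (p ≠ p' → ‖s c' (e c' p')‖ ≤ δ) := sorry

/-! ### B7 (Ko/Embed.lean) -/

/-- B7a: sections that embed a neighbourhood of `p` -/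
theorem exists_local (h0 : L2D e V w (kf w)) {m : ℕ} {p : M} {c : κ} (hp : p ∈ (e c).source)
    (hjet : ∀ (a₀ : ℂ) (a : Fin n → ℂ) (δ : ℝ), 0 < δ → ∃ s, IsSect e m s ∧
      ‖s c (e c p) - a₀‖ ≤ δ ∧ ∀ i, ‖dz i (s c) (e c p) - a i‖ ≤ δ) :
    ∃ (S : Set M) (s : Fin (n + 1) → κ → Cn n → ℂ), IsOpen S ∧ p ∈ S ∧ IsEmbK e S m s := sorry

/-- B7b: sections that embed a compact set -/
theorem exists_embed (h0 : L2D e V w (kf w)) (hsec : HasSec e w) {K : Set M}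
    (hK : IsCompact K) (hKV : K ⊆ V) :
    ∃ (m L : ℕ) (s : Fin (L + 1) → κ → Cn n → ℂ), IsEmbK e K m s := sorry

end Main

/-! ### B8 (Ko/Nat.lean) -/

section Nat

variable {M Z : Type} [MetricSpace M] [CompactSpace M] [MetricSpace Z] {n N : ℕ} {κ P : Type}
  {e : κ → OpenPartialHomeomorph M (Cn n)} {U : P → Set Z} {q : P → Z → Cn N}
  {O : P → Set (Cn N)} {K : P → Cn N → ℝ} {f : M → Z} {T : ℝ} {ψ : κ → ℝ × Cn n → ℝ}
  {Ω : κ → Cn n → ℝ}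

/-- B8a: the data near a fibre, `V = f⁻¹ (small ball)`, `w = Ω exp (-K ∘ f / T)`,
`g = ψ (0) + lb (F)` from `L2D.exh`, `K' = f⁻¹ (smaller closed ball)` -/
theorem exists_data (hT : 0 < T) (he : IsAtlas e) (hZ : IsKahlerSpace U q O K)
    (hf : IsHolConn e U q f) (hψ : IsKRF e T ψ) (hlim : IsSemiampleLimit e U q f T ψ Ω K)
    (z₀ : Z) :
    ∃ (V K' : Set M) (hV : IsOpen V) (w g : κ → Cn n → ℝ) (ψ' : M → ℝ) (S : Set Z),
      IsOpen S ∧ z₀ ∈ S ∧ f ⁻¹' S ⊆ K' ∧ IsCompact K' ∧ K' ⊆ V ∧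
      L2D (rs e hV) V w (kf w) ∧ L2D (rs e hV) V w g ∧ IsExh (rs e hV) V g ψ' := sorry

/-- B8b: the map to the projective space -/
theorem isEmbOver_of (he : IsAtlas e) {V K' : Set M} (hV : IsOpen V) (hK : K' ⊆ V) {S : Set Z}
    (hS : f ⁻¹' S ⊆ K') (hSo : IsOpen (f ⁻¹' S)) {m L : ℕ}
    {s : Fin (L + 1) → κ → Cn n → ℂ} (hs : IsEmbK (rs e hV) K' m s) :
    ∃ ι : M → ℙ ℂ (Fin (L + 1) → ℂ), IsEmbOver e U q f S ι := sorry

/-- B8: locally over `Z` the fibres are embedded in a projective space -/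
theorem exists_embOver (hT : 0 < T) (he : IsAtlas e) (hZ : IsKahlerSpace U q O K)
    (hf : IsHolConn e U q f) (hψ : IsKRF e T ψ) (hlim : IsSemiampleLimit e U q f T ψ Ω K)
    (z₀ : Z) :
    ∃ (S : Set Z) (L : ℕ) (ι : M → ℙ ℂ (Fin (L + 1) → ℂ)), IsOpen S ∧ z₀ ∈ S ∧
      IsEmbOver e U q f S ι := by
  obtain ⟨V, K', hV, w, g, ψ', S, hS, hz₀, hSK, hK', hKV, h0, h, hψ'⟩ :=
    exists_data hT he hZ hf hψ hlim z₀
  obtain ⟨m, L, s, hs⟩ := exists_embed h0 (hasSec he hV h0 h hψ') hK' hKV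
  obtain ⟨ι, hι⟩ := isEmbOver_of (U := U) (q := q) he hV hKV hSK (hS.preimage hf.cont) hs
  exact ⟨S, L, ι, hS, hz₀, hι⟩

end Nat

end Pool.Agent.KRFKo
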